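import Mathlib
import Pool.Agent.Q83.WG.A

/-!
# Expected size of the high frequencies
-/

set_option autoImplicit false
set_option linter.unusedSectionVars false

open MeasureTheory Filter Topology
open scoped ENNReal
open Pool.Agent.H469R2.NK (e norm_e e_add conj_e e_zero)

namespace Pool.Agent.Q83.WG

lemma e_sum {ι : Type*} (T : Finset ι) (a : ι → ℝ) : e (∑ i ∈ T, a i) = ∏ i ∈ T, e (a i) := by
  classical
  induction T using Finset.induction_on with
  | empty => simp [e_zero]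
  | insert i T hi ih => rw [Finset.sum_insert hi, Finset.prod_insert hi, e_add, ih]

lemma norm_neg_e {ι : Type*} (T : Finset ι) (a : ι → ℝ) :
    ‖∑ x ∈ T, e (-a x)‖ = ‖∑ x ∈ T, e (a x)‖ := by
  rw [← Complex.norm_conj (∑ x ∈ T, e (a x)), map_sum]
  congr 1
  exact Finset.sum_congr rfl fun x _ => (conj_e _).symm

section Exp

variable {ι : Type*} [Fintype ι] [DecidableEq ι] (μ : ι → Measure ℝ) [∀ i, IsProbabilityMeasure (μ i)]
  (I : ι → Finset ℕ) (φ : ι → ℕ → ℝ → ℝ)

/-- one exponential sum -/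
noncomputable def f (i : ι) (θ t : ℝ) : ℂ := ∑ x ∈ I i, e (θ * φ i x t)

/-- the full exponential sum -/
noncomputable def F (θ : ℝ) (t : ι → ℝ) : ℂ :=
  ∑ x ∈ Fintype.piFinset I, e (θ * ∑ i, φ i (x i) (t i))

/-- mean square of one exponential sum -/
noncomputable def A (i : ι) (θ : ℝ) : ℝ := ∫ t, ‖f I φ i θ t‖ ^ 2 ∂(μ i)

lemma F_eq (θ : ℝ) (t : ι → ℝ) : F I φ θ t = ∏ i, f I φ i θ (t i) := by
  unfold F f
  rw [Finset.prod_univ_sum]
  refine Finset.sum_congr rfl fun x _ => ?_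
  rw [Finset.mul_sum, e_sum]

variable {φ}

lemma f_meas (hφ : ∀ i x, Measurable (φ i x)) (i : ι) (θ : ℝ) : Measurable (f I φ i θ) := by
  unfold f
  refine Finset.measurable_fun_sum _ fun x _ => ?_
  exact continuous_e.measurable.comp ((hφ i x).const_mul θ)

variable (φ) in
lemma f_norm_le (i : ι) (θ t : ℝ) : ‖f I φ i θ t‖ ≤ (I i).card := by
  unfold f
  refine (norm_sum_le _ _).trans ?_
  simp [norm_e]

variable (φ) in
lemma A_nonneg (i : ι) (θ : ℝ) : 0 ≤ A μ I φ i θ := integral_nonneg fun _ => by positivity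

lemma int_f_le (hφ : ∀ i x, Measurable (φ i x)) (i : ι) (θ : ℝ) :
    ∫ t, ‖f I φ i θ t‖ ∂(μ i) ≤ Real.sqrt (A μ I φ i θ) := by
  have hi1 : Integrable (fun t => ‖f I φ i θ t‖) (μ i) := by
    refine Integrable.of_bound (f_meas I hφ i θ).norm.aestronglyMeasurable (C := (I i).card) ?_
    exact ae_of_all _ fun t => by simpa using f_norm_le I φ i θ t
  have hi2 : Integrable (fun t => ‖f I φ i θ t‖ ^ 2) (μ i) := by
    refine Integrable.of_bound ((f_meas I hφ i θ).norm.pow_const 2).aestronglyMeasurable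
      (C := ((I i).card : ℝ) ^ 2) ?_
    refine ae_of_all _ fun t => ?_
    rw [norm_pow, norm_norm]
    exact pow_le_pow_left₀ (norm_nonneg _) (f_norm_le I φ i θ t) 2
  refine Real.le_sqrt_of_sq_le ?_
  set m := ∫ t, ‖f I φ i θ t‖ ∂(μ i) with hm
  have h : 0 ≤ ∫ t, (‖f I φ i θ t‖ - m) ^ 2 ∂(μ i) := integral_nonneg fun _ => by positivity
  have h2 : ∫ t, (‖f I φ i θ t‖ - m) ^ 2 ∂(μ i) = A μ I φ i θ - m ^ 2 := by
    have h3 : ∀ t, (‖f I φ i θ t‖ - m) ^ 2 = ‖f I φ i θ t‖ ^ 2 - 2 * m * ‖f I φ i θ t‖ + m ^ 2 := by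
      intro t; ring
    simp_rw [h3]
    have i1 : Integrable (fun t => ‖f I φ i θ t‖ ^ 2 - 2 * m * ‖f I φ i θ t‖) (μ i) :=
      hi2.sub (hi1.const_mul _)
    rw [integral_add i1 (integrable_const _),
      integral_sub hi2 (hi1.const_mul _), integral_const_mul, ← hm]
    simp [A]
    ring
  rw [h2] at h
  linarith

lemma int_F_le (hφ : ∀ i x, Measurable (φ i x)) (θ : ℝ) :
    ∫ t, ‖F I φ θ t‖ ∂(Measure.pi μ) ≤ ∏ i, Real.sqrt (A μ I φ i θ) := by
  have h1 : ∀ t, ‖F I φ θ t‖ = ∏ i, ‖f I φ i θ (t i)‖ := by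
    intro t; rw [F_eq, norm_prod]
  simp_rw [h1]
  rw [integral_fintype_prod_eq_prod (μ := μ) (fun i t => ‖f I φ i θ t‖)]
  exact Finset.prod_le_prod (fun i _ => integral_nonneg fun _ => norm_nonneg _)
    fun i _ => int_f_le μ I hφ i θ

lemma F_meas (hφ : ∀ i x, Measurable (φ i x)) :
    Measurable (fun z : (ι → ℝ) × ℝ => F I φ z.2 z.1) := by
  unfold F
  refine Finset.measurable_fun_sum _ fun x _ => ?_
  refine continuous_e.measurable.comp ?_
  refine measurable_snd.mul ?_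
  refine Finset.measurable_fun_sum _ fun i _ => ?_
  exact (hφ i (x i)).comp ((measurable_pi_apply i).comp measurable_fst)

/-- Tonelli. -/
theorem expect_le (hφ : ∀ i x, Measurable (φ i x)) (w : ℝ → ℝ) (hw : Measurable w) :
    ∫⁻ t, (∫⁻ θ, ‖F I φ θ t‖ₑ * ENNReal.ofReal (w θ)) ∂(Measure.pi μ) ≤
      ∫⁻ θ, ENNReal.ofReal (∏ i, Real.sqrt (A μ I φ i θ)) * ENNReal.ofReal (w θ) := by
  rw [lintegral_lintegral_swap]
  · refine lintegral_mono fun θ => ?_
    have hm : Measurable fun t => ‖F I φ θ t‖ₑ :=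
      ((F_meas I hφ).comp (measurable_id.prodMk measurable_const)).enorm
    rw [lintegral_mul_const _ hm]
    gcongr
    have h2 : ∫⁻ t, ‖F I φ θ t‖ₑ ∂(Measure.pi μ) = ENNReal.ofReal (∫ t, ‖F I φ θ t‖ ∂(Measure.pi μ)) := by
      rw [ofReal_integral_norm_eq_lintegral_enorm]
      refine Integrable.of_bound ?_ (C := (Fintype.piFinset I).card) ?_
      · exact ((F_meas I hφ).comp (measurable_id.prodMk measurable_const)).aestronglyMeasurable
      · refine ae_of_all _ fun t => ?_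
        unfold F
        refine (norm_sum_le _ _).trans ?_
        simp [norm_e]
    rw [h2]
    exact ENNReal.ofReal_le_ofReal (int_F_le μ I hφ θ)
  · refine Measurable.aemeasurable ?_
    exact ((F_meas I hφ).enorm).mul (hw.comp measurable_snd).ennreal_ofReal

end Exp

end Pool.Agent.Q83.WG
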