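import Mathlib
import Pool.Agent.Q83.WG.B

/-!
# One scale: the integral over all frequencies
-/

set_option autoImplicit false
set_option linter.unusedSectionVars false

open MeasureTheory Filter Topology Set
open scoped ENNReal
open Pool.Agent.H469R2.NK (e norm_e e_add conj_e e_zero)

namespace Pool.Agent.Q83.WG

lemma lint_even (h : ℝ → ℝ≥0∞) (he : ∀ x, h (-x) = h x) :
    ∫⁻ x, h x = 2 * ∫⁻ x in Ioi (0 : ℝ), h x := by
  rw [← lintegral_add_compl h (measurableSet_Ioi (a := (0 : ℝ))), compl_Ioi, two_mul]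
  congr 1
  have h1 : ∫⁻ x in Iic (0 : ℝ), h x = ∫⁻ x in Iio (0 : ℝ), h x :=
    setLIntegral_congr Iio_ae_eq_Iic.symm
  rw [h1]
  have h2 := (Measure.measurePreserving_neg (volume : Measure ℝ)).setLIntegral_comp_preimage_emb
    (Homeomorph.neg ℝ).measurableEmbedding h (Iio 0)
  rw [← h2]
  simp [he]

section Exp

variable {ι : Type*} [Fintype ι] [DecidableEq ι] (μ : ι → Measure ℝ) [∀ i, IsProbabilityMeasure (μ i)]
  (I : ι → Finset ℕ) (φ : ι → ℕ → ℝ → ℝ)

lemma A_even (i : ι) (θ : ℝ) : A μ I φ i (-θ) = A μ I φ i θ := by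
  unfold A f
  refine integral_congr_ae (ae_of_all _ fun t => ?_)
  simp only
  rw [← norm_neg_e (I i) (fun x => θ * φ i x t)]
  simp

lemma A_le (hφ : ∀ i x, Measurable (φ i x)) (i : ι) (θ : ℝ) :
    Real.sqrt (A μ I φ i θ) ≤ (I i).card := by
  apply Real.sqrt_le_iff.mpr
  refine ⟨by positivity, ?_⟩
  unfold A
  have hi2 : Integrable (fun t => ‖f I φ i θ t‖ ^ 2) (μ i) := by
    refine Integrable.of_bound ((f_meas I hφ i θ).norm.pow_const 2).aestronglyMeasurable
      (C := ((I i).card : ℝ) ^ 2) ?_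
    refine ae_of_all _ fun t => ?_
    rw [norm_pow, norm_norm]
    exact pow_le_pow_left₀ (norm_nonneg _) (f_norm_le I φ i θ t) 2
  have := integral_mono hi2 (integrable_const (((I i).card : ℝ) ^ 2)) (fun t => by
    show ‖f I φ i θ t‖ ^ 2 ≤ ((I i).card : ℝ) ^ 2
    exact pow_le_pow_left₀ (norm_nonneg _) (f_norm_le I φ i θ t) 2)
  simpa using this

/-- the bound at one scale -/
theorem high_bound (hφ : ∀ i x, Measurable (φ i x)) (X U H δ K η : ℝ) (p : ι → ℝ)
    (hX : 1 ≤ X) (hU : X⁻¹ ≤ U) (hδ : 0 < δ) (hH : δ ≤ H) (hK : 0 ≤ K)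
    (hη : 0 < η) (hp : ∑ i, p i = 2 * (1 + η))
    (h1 : ∀ i, ∀ θ : ℝ, U ≤ θ → θ ≤ 1 → Real.sqrt (A μ I φ i θ) ≤ K * (I i).card * (θ * X) ^ (-(p i / 2)))
    (h2 : ∀ i, ∀ θ : ℝ, 1 ≤ θ → Real.sqrt (A μ I φ i θ) ≤ K * (I i).card * X ^ (-(p i / 2))) :
    ∫⁻ θ, ENNReal.ofReal (∏ i, Real.sqrt (A μ I φ i θ)) * ENNReal.ofReal (gw δ θ - gw H θ) ≤
      ENNReal.ofReal (2 * ((∏ i, ((I i).card : ℝ)) * (Real.pi * H ^ 2 * U ^ 3 +
        K ^ Fintype.card ι * X ^ (-(1 + η)) * (U ^ (-η) / η + δ⁻¹)))) := by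
  classical
  have hX0 : 0 < X := lt_of_lt_of_le one_pos hX
  have hU0 : 0 < U := lt_of_lt_of_le (by positivity) hU
  obtain ⟨M, hM⟩ : ∃ M : ℝ, M = ∏ i, ((I i).card : ℝ) := ⟨_, rfl⟩
  have hM0 : 0 ≤ M := by rw [hM]; exact Finset.prod_nonneg fun i _ => Nat.cast_nonneg _
  obtain ⟨Ks, hKs⟩ : ∃ Ks : ℝ, Ks = K ^ Fintype.card ι := ⟨_, rfl⟩
  have hKs0 : 0 ≤ Ks := by rw [hKs]; exact pow_nonneg hK _
  rw [← hM, ← hKs]
  set P : ℝ → ℝ := fun θ => ∏ i, Real.sqrt (A μ I φ i θ) with hP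
  have hP0 : ∀ θ, 0 ≤ P θ := fun θ => Finset.prod_nonneg fun i _ => Real.sqrt_nonneg _
  have hPM : ∀ θ, P θ ≤ M := fun θ => by
    rw [hM]
    exact Finset.prod_le_prod (fun i _ => Real.sqrt_nonneg _) fun i _ => A_le μ I φ hφ i θ
  have hprod : ∀ y : ℝ, 0 < y → ∏ i, (K * ((I i).card : ℝ) * y ^ (-(p i / 2))) =
      Ks * M * y ^ (-(1 + η)) := by
    intro y hy
    rw [Finset.prod_mul_distrib, Finset.prod_mul_distrib, Finset.prod_const, Finset.card_univ,
      ← Real.rpow_sum_of_pos hy, ← hM, ← hKs]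
    congr 2
    rw [Finset.sum_neg_distrib, ← Finset.sum_div, hp]
    ring
  have hP1 : ∀ θ, U ≤ θ → θ ≤ 1 → P θ ≤ Ks * M * (θ * X) ^ (-(1 + η)) := by
    intro θ ha hb
    rw [← hprod _ (by have := hU0.trans_le ha; positivity)]
    exact Finset.prod_le_prod (fun i _ => Real.sqrt_nonneg _) fun i _ => h1 i θ ha hb
  have hP2 : ∀ θ, 1 ≤ θ → P θ ≤ Ks * M * X ^ (-(1 + η)) := by
    intro θ ha
    rw [← hprod _ hX0]
    exact Finset.prod_le_prod (fun i _ => Real.sqrt_nonneg _) fun i _ => h2 i θ ha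
  have hw1 : ∀ θ, gw δ θ - gw H θ ≤ Real.pi * (H * θ) ^ 2 := by
    intro θ
    have a1 := gw_le_one δ θ
    have a2 : 1 - Real.pi * (H * θ) ^ 2 ≤ gw H θ := by
      unfold gw
      have := Real.add_one_le_exp (-(Real.pi * (H * θ) ^ 2))
      linarith
    linarith
  have hw2 : ∀ θ, gw δ θ - gw H θ ≤ gw δ θ := fun θ => by have := gw_pos H θ; linarith
  have hw0 : ∀ θ, 0 ≤ gw δ θ - gw H θ := by
    intro θ
    rw [sub_nonneg]
    unfold gw
    apply Real.exp_le_exp.mpr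
    have : (δ * θ) ^ 2 ≤ (H * θ) ^ 2 := by
      rw [mul_pow, mul_pow]
      gcongr
    nlinarith [Real.pi_pos]
  rw [lint_even _ (fun θ => by
    have e1 : gw δ (-θ) = gw δ θ := by simp [gw]
    have e2 : gw H (-θ) = gw H θ := by simp [gw]
    simp only [A_even, e1, e2])]
  set c1 : ℝ := M * (Real.pi * H ^ 2 * U ^ 2) with hc1
  set c2 : ℝ := Ks * M * X ^ (-(1 + η)) with hc2
  have hc20 : 0 ≤ c2 := by positivity
  have key : ∫⁻ θ in Ioi (0 : ℝ), ENNReal.ofReal (P θ) * ENNReal.ofReal (gw δ θ - gw H θ) ≤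
      ENNReal.ofReal (c1 * U + c2 * (U ^ (-η) / η) + c2 * δ⁻¹) := by
    have hpt : ∀ θ ∈ Ioi (0 : ℝ), ENNReal.ofReal (P θ) * ENNReal.ofReal (gw δ θ - gw H θ) ≤
        (Ioc 0 U).indicator (fun _ => ENNReal.ofReal c1) θ +
        (Ioi U).indicator (fun θ => ENNReal.ofReal (c2 * θ ^ (-(1 + η)))) θ +
        ENNReal.ofReal (c2 * gw δ θ) := by
      intro θ hθ
      have hθ0 : (0 : ℝ) < θ := hθ
      rw [← ENNReal.ofReal_mul (hP0 θ)]
      rcases le_or_gt θ U with h | h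
      · rw [indicator_of_mem (show θ ∈ Ioc 0 U from ⟨hθ0, h⟩)]
        refine le_trans ?_ (le_add_right (le_add_right le_rfl))
        apply ENNReal.ofReal_le_ofReal
        calc P θ * (gw δ θ - gw H θ) ≤ M * (Real.pi * (H * θ) ^ 2) :=
              mul_le_mul (hPM θ) (hw1 θ) (hw0 θ) hM0
          _ ≤ M * (Real.pi * (H * U) ^ 2) := by
              have hH0 : 0 ≤ H := hδ.le.trans hH
              gcongr
          _ = c1 := by rw [hc1]; ring
      · rcases le_or_gt θ 1 with h' | h'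
        · rw [indicator_of_mem (show θ ∈ Ioi U from h)]
          refine le_trans ?_ (le_add_right (le_add_left le_rfl))
          apply ENNReal.ofReal_le_ofReal
          calc P θ * (gw δ θ - gw H θ) ≤ P θ * 1 :=
                mul_le_mul_of_nonneg_left ((hw2 θ).trans (gw_le_one δ θ)) (hP0 θ)
            _ ≤ Ks * M * (θ * X) ^ (-(1 + η)) := by
                rw [mul_one]; exact hP1 θ h.le h'
            _ = c2 * θ ^ (-(1 + η)) := by
                rw [Real.mul_rpow hθ0.le hX0.le, hc2]; ring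
        · refine le_trans ?_ (le_add_left le_rfl)
          apply ENNReal.ofReal_le_ofReal
          exact mul_le_mul (hP2 θ h'.le) (hw2 θ) (hw0 θ) hc20
    refine (setLIntegral_mono' measurableSet_Ioi hpt).trans ?_
    rw [lintegral_add_right _ (by
        exact ((gw_cont δ).measurable.const_mul c2).ennreal_ofReal),
      lintegral_add_right _ (by
        refine Measurable.indicator ?_ measurableSet_Ioi
        exact ((measurable_id.pow_const (-(1 + η))).const_mul c2).ennreal_ofReal)]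
    have i1 : ∫⁻ θ in Ioi (0 : ℝ), (Ioc 0 U).indicator (fun _ => ENNReal.ofReal c1) θ ≤
        ENNReal.ofReal (c1 * U) := by
      rw [lintegral_indicator measurableSet_Ioc, setLIntegral_const,
        Measure.restrict_apply measurableSet_Ioc]
      have : volume (Ioc 0 U ∩ Ioi (0 : ℝ)) ≤ ENNReal.ofReal U := by
        refine (measure_mono inter_subset_left).trans ?_
        rw [Real.volume_Ioc, sub_zero]
      calc ENNReal.ofReal c1 * volume (Ioc 0 U ∩ Ioi (0 : ℝ)) ≤ ENNReal.ofReal c1 * ENNReal.ofReal U := by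
            gcongr
        _ = ENNReal.ofReal (c1 * U) := (ENNReal.ofReal_mul (by positivity)).symm
    have i2 : ∫⁻ θ in Ioi (0 : ℝ), (Ioi U).indicator (fun θ => ENNReal.ofReal (c2 * θ ^ (-(1 + η)))) θ ≤
        ENNReal.ofReal (c2 * (U ^ (-η) / η)) := by
      rw [lintegral_indicator measurableSet_Ioi, Measure.restrict_restrict measurableSet_Ioi]
      have hs : Ioi U ∩ Ioi (0 : ℝ) = Ioi U := inter_eq_left.mpr (Ioi_subset_Ioi hU0.le)
      rw [hs]
      have hint : IntegrableOn (fun θ : ℝ => c2 * θ ^ (-(1 + η))) (Ioi U) :=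
        (integrableOn_Ioi_rpow_of_lt (by linarith) hU0).const_mul c2
      rw [← ofReal_integral_eq_lintegral_ofReal hint (by
        refine (ae_restrict_iff' measurableSet_Ioi).mpr (ae_of_all _ fun θ hθ => ?_)
        have : (0 : ℝ) < θ := hU0.trans hθ
        positivity)]
      apply ENNReal.ofReal_le_ofReal
      rw [integral_const_mul, integral_Ioi_rpow_of_lt (by linarith) hU0]
      have e1 : -(1 + η) + 1 = -η := by ring
      rw [e1, neg_div_neg_eq]
    have i3 : ∫⁻ θ in Ioi (0 : ℝ), ENNReal.ofReal (c2 * gw δ θ) ≤ ENNReal.ofReal (c2 * δ⁻¹) := by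
      refine (setLIntegral_le_lintegral _ _).trans ?_
      rw [← ofReal_integral_eq_lintegral_ofReal ((gw_integrable hδ).const_mul c2)
        (ae_of_all _ fun θ => by have := gw_pos δ θ; positivity), integral_const_mul,
        gw_integral hδ]
    refine (add_le_add (add_le_add i1 i2) i3).trans ?_
    rw [← ENNReal.ofReal_add (by positivity) (by positivity),
      ← ENNReal.ofReal_add (by positivity) (by positivity)]
  calc 2 * ∫⁻ θ in Ioi (0 : ℝ), ENNReal.ofReal (∏ i, Real.sqrt (A μ I φ i θ)) *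
          ENNReal.ofReal (gw δ θ - gw H θ)
      ≤ 2 * ENNReal.ofReal (c1 * U + c2 * (U ^ (-η) / η) + c2 * δ⁻¹) := by gcongr
    _ = ENNReal.ofReal (2 * (c1 * U + c2 * (U ^ (-η) / η) + c2 * δ⁻¹)) := by
        rw [ENNReal.ofReal_mul (by norm_num)]; norm_num
    _ = _ := by
        congr 1
        rw [hc1, hc2]; ring

end Exp

end Pool.Agent.Q83.WG
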