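import Mathlib
import Pool.Agent.Q83.WG.C

/-!
# One scale: probability of failure and counting
-/

set_option autoImplicit false
set_option linter.unusedSectionVars false

open MeasureTheory Filter Topology Set
open scoped ENNReal
open Pool.Agent.H469R2.NK (e norm_e e_add conj_e e_zero)

namespace Pool.Agent.Q83.WG

/-- deterministic step: from smoothed counts to counts -/
lemma count_of_smooth {ι : Type*} (T : Finset ι) (S : ι → ℝ) {δ H r D N : ℝ} (hδ : 0 < δ) (hH : δ ≤ H)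
    (hr : 0 ≤ r) (hD : 0 ≤ D)
    (h1 : ∫⁻ θ : ℝ, ‖∑ x ∈ T, e (θ * S x)‖ₑ * ENNReal.ofReal (gw δ θ - gw H θ) ≤ ENNReal.ofReal D)
    (h2 : 2 * D * H * Real.exp Real.pi ≤ ((T.filter fun x => |S x - N| ≤ H).card : ℝ)) :
    δ * D - T.card * Real.exp (-(Real.pi * (r / δ) ^ 2)) ≤
      ((T.filter fun x => |S x - N| ≤ r).card : ℝ) := by
  have hH0 : 0 < H := hδ.trans_le hH
  have a1 := (sum_G_sub_le T S hδ hH N).trans h1
  rw [ENNReal.ofReal_le_ofReal_iff hD] at a1
  have a2 : 2 * D ≤ ∑ x ∈ T, G H (S x - N) := by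
    have b1 : ∀ x ∈ T.filter (fun x => |S x - N| ≤ H), H⁻¹ * Real.exp (-Real.pi) ≤ G H (S x - N) := by
      intro x hx
      have hx2 := (Finset.mem_filter.mp hx).2
      unfold G
      gcongr
      have : ((S x - N) / H) ^ 2 ≤ 1 := by
        rw [div_pow, div_le_one (by positivity), ← sq_abs]
        exact pow_le_pow_left₀ (abs_nonneg _) hx2 2
      nlinarith [Real.pi_pos]
    calc 2 * D = (2 * D * H * Real.exp Real.pi) * (H⁻¹ * Real.exp (-Real.pi)) := by
          rw [Real.exp_neg]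
          have := (Real.exp_pos Real.pi).ne'
          field_simp
      _ ≤ ((T.filter fun x => |S x - N| ≤ H).card : ℝ) * (H⁻¹ * Real.exp (-Real.pi)) := by
          gcongr
      _ = ∑ x ∈ T.filter (fun x => |S x - N| ≤ H), H⁻¹ * Real.exp (-Real.pi) := by
          rw [Finset.sum_const, nsmul_eq_mul]
      _ ≤ ∑ x ∈ T.filter (fun x => |S x - N| ≤ H), G H (S x - N) := Finset.sum_le_sum b1
      _ ≤ ∑ x ∈ T, G H (S x - N) :=
          Finset.sum_le_sum_of_subset_of_nonneg (Finset.filter_subset _ _)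
            fun x _ _ => G_nonneg hH0 _
  have a3 : D ≤ ∑ x ∈ T, G δ (S x - N) := by
    have := (abs_le.mp a1).1
    linarith
  have a4 : ∑ x ∈ T, G δ (S x - N) ≤
      δ⁻¹ * ((T.filter fun x => |S x - N| ≤ r).card : ℝ) +
      δ⁻¹ * (T.card * Real.exp (-(Real.pi * (r / δ) ^ 2))) := by
    rw [← Finset.sum_filter_add_sum_filter_not T (fun x => |S x - N| ≤ r)]
    refine add_le_add ?_ ?_
    · calc ∑ x ∈ T.filter (fun x => |S x - N| ≤ r), G δ (S x - N)
          ≤ ∑ x ∈ T.filter (fun x => |S x - N| ≤ r), δ⁻¹ := Finset.sum_le_sum fun x _ => G_le hδ _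
        _ = _ := by rw [Finset.sum_const, nsmul_eq_mul, mul_comm]
    · calc ∑ x ∈ T.filter (fun x => ¬ |S x - N| ≤ r), G δ (S x - N)
          ≤ ∑ x ∈ T.filter (fun x => ¬ |S x - N| ≤ r), δ⁻¹ * Real.exp (-(Real.pi * (r / δ) ^ 2)) := by
            refine Finset.sum_le_sum fun x hx => ?_
            have hx2 := (Finset.mem_filter.mp hx).2
            have hsq : (r / δ) ^ 2 ≤ ((S x - N) / δ) ^ 2 := by
              rw [← sq_abs ((S x - N) / δ), abs_div, abs_of_pos hδ]
              exact pow_le_pow_left₀ (by positivity) (by gcongr; exact (not_le.mp hx2).le) 2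
            unfold G
            refine mul_le_mul_of_nonneg_left (Real.exp_le_exp.mpr ?_) (by positivity)
            nlinarith [Real.pi_pos]
        _ = ((T.filter (fun x => ¬ |S x - N| ≤ r)).card : ℝ) *
              (δ⁻¹ * Real.exp (-(Real.pi * (r / δ) ^ 2))) := by
            rw [Finset.sum_const, nsmul_eq_mul]
        _ ≤ (T.card : ℝ) * (δ⁻¹ * Real.exp (-(Real.pi * (r / δ) ^ 2))) := by
            refine mul_le_mul_of_nonneg_right ?_ (by positivity)
            exact_mod_cast Finset.card_filter_le _ _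
        _ = _ := by ring
  have a5 := mul_le_mul_of_nonneg_left (a3.trans a4) hδ.le
  have a6 : δ * (δ⁻¹ * ((T.filter fun x => |S x - N| ≤ r).card : ℝ) +
      δ⁻¹ * (T.card * Real.exp (-(Real.pi * (r / δ) ^ 2)))) =
      ((T.filter fun x => |S x - N| ≤ r).card : ℝ) + T.card * Real.exp (-(Real.pi * (r / δ) ^ 2)) := by
    field_simp
  rw [a6] at a5
  linarith

section Exp

variable {ι : Type*} [Fintype ι] [DecidableEq ι] (μ : ι → Measure ℝ) [∀ i, IsProbabilityMeasure (μ i)]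
  (I : ι → Finset ℕ) (φ : ι → ℕ → ℝ → ℝ)

/-- size of the high frequencies -/
noncomputable def Err (X d γ : ℝ) (t : ι → ℝ) : ℝ≥0∞ :=
  ∫⁻ θ : ℝ, ‖F I φ θ t‖ₑ * ENNReal.ofReal (gw (X ^ (-γ)) θ - gw (X ^ (1 - d)) θ)

/-- Probability of failure at one scale. -/
theorem scale (hφ : ∀ i x, Measurable (φ i x)) (X d γ K η κ : ℝ) (p : ι → ℝ)
    (hX : 1 ≤ X) (hd : 0 < d) (hd1 : d ≤ 1) (hγ : 0 ≤ γ) (hK : 1 ≤ K) (hη : 0 < η) (hκ : 0 < κ)
    (hp : ∑ i, p i = 2 * (1 + η))
    (hM : ∀ i, (I i).Nonempty)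
    (h1 : ∀ i, ∀ θ : ℝ, X ^ (-1 + d / 2) ≤ θ → θ ≤ 1 →
      Real.sqrt (A μ I φ i θ) ≤ K * (I i).card * (θ * X) ^ (-(p i / 2)))
    (h2 : ∀ i, ∀ θ : ℝ, 1 ≤ θ → Real.sqrt (A μ I φ i θ) ≤ K * (I i).card * X ^ (-(p i / 2))) :
    Measure.pi μ {t | ENNReal.ofReal (κ * (∏ i, ((I i).card : ℝ)) / X) ≤ Err I φ X d γ t} ≤
      ENNReal.ofReal (2 / κ * K ^ Fintype.card ι *
        (Real.pi * X ^ (-(d / 2)) + η⁻¹ * X ^ (-(η * d / 2)) + X ^ (-(η - γ)))) := by
  have hX0 : 0 < X := lt_of_lt_of_le one_pos hX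
  obtain ⟨M, hMd⟩ : ∃ M : ℝ, M = ∏ i, ((I i).card : ℝ) := ⟨_, rfl⟩
  have hM0 : 0 < M := by
    rw [hMd]
    exact Finset.prod_pos fun i _ => by exact_mod_cast Finset.card_pos.mpr (hM i)
  obtain ⟨Ks, hKs⟩ : ∃ Ks : ℝ, Ks = K ^ Fintype.card ι := ⟨_, rfl⟩
  have hKs1 : 1 ≤ Ks := by rw [hKs]; exact one_le_pow₀ hK
  have hb := high_bound μ I φ hφ X (X ^ (-1 + d / 2)) (X ^ (1 - d)) (X ^ (-γ)) K η p hX
    (by rw [← Real.rpow_neg_one]; exact Real.rpow_le_rpow_of_exponent_le hX (by linarith))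
    (by positivity) (Real.rpow_le_rpow_of_exponent_le hX (by linarith)) (by linarith) hη hp h1 h2
  have he := expect_le μ I hφ (fun θ => gw (X ^ (-γ)) θ - gw (X ^ (1 - d)) θ)
    ((gw_cont _).measurable.sub (gw_cont _).measurable)
  have hE := he.trans hb
  rw [← hMd, ← hKs] at hE
  rw [← hMd, ← hKs]
  have hmeas : Measurable (Err I φ X d γ) := by
    unfold Err
    refine Measurable.lintegral_prod_right' (f := fun z : (ι → ℝ) × ℝ =>
      ‖F I φ z.2 z.1‖ₑ * ENNReal.ofReal (gw (X ^ (-γ)) z.2 - gw (X ^ (1 - d)) z.2)) ?_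
    exact ((F_meas I hφ).enorm).mul
      (((gw_cont _).measurable.sub (gw_cont _).measurable).comp measurable_snd).ennreal_ofReal
  have hD : 0 < κ * M / X := by positivity
  have hmk := meas_ge_le_lintegral_div hmeas.aemeasurable (μ := Measure.pi μ)
    (ε := ENNReal.ofReal (κ * M / X)) (by simpa using hD) ENNReal.ofReal_ne_top
  refine hmk.trans ?_
  refine (ENNReal.div_le_div_right hE _).trans ?_
  rw [← ENNReal.ofReal_div_of_pos hD]
  apply ENNReal.ofReal_le_ofReal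
  have e1 : (X ^ (1 - d)) ^ 2 * (X ^ (-1 + d / 2)) ^ 3 * X = X ^ (-(d / 2)) := by
    rw [← Real.rpow_natCast, ← Real.rpow_natCast, ← Real.rpow_mul hX0.le, ← Real.rpow_mul hX0.le,
      ← Real.rpow_add hX0]
    nth_rewrite 2 [← Real.rpow_one X]
    rw [← Real.rpow_add hX0]
    congr 1
    push_cast
    ring
  have e2 : X ^ (-(1 + η)) * (X ^ (-1 + d / 2)) ^ (-η) * X = X ^ (-(η * d / 2)) := by
    rw [← Real.rpow_mul hX0.le, ← Real.rpow_add hX0]
    nth_rewrite 2 [← Real.rpow_one X]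
    rw [← Real.rpow_add hX0]
    congr 1
    ring
  have e3 : X ^ (-(1 + η)) * (X ^ (-γ))⁻¹ * X = X ^ (-(η - γ)) := by
    rw [← Real.rpow_neg hX0.le, ← Real.rpow_add hX0]
    nth_rewrite 2 [← Real.rpow_one X]
    rw [← Real.rpow_add hX0]
    congr 1
    ring
  have e4 : 2 * (M * (Real.pi * (X ^ (1 - d)) ^ 2 * (X ^ (-1 + d / 2)) ^ 3 +
      Ks * X ^ (-(1 + η)) * ((X ^ (-1 + d / 2)) ^ (-η) / η + (X ^ (-γ))⁻¹))) / (κ * M / X) =
      2 / κ * (Real.pi * ((X ^ (1 - d)) ^ 2 * (X ^ (-1 + d / 2)) ^ 3 * X) +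
        Ks * (η⁻¹ * (X ^ (-(1 + η)) * (X ^ (-1 + d / 2)) ^ (-η) * X) +
          X ^ (-(1 + η)) * (X ^ (-γ))⁻¹ * X)) := by
    field_simp
  rw [e4, e1, e2, e3]
  have hx1 : 0 ≤ X ^ (-(d / 2)) := by positivity
  calc 2 / κ * (Real.pi * X ^ (-(d / 2)) + Ks * (η⁻¹ * X ^ (-(η * d / 2)) + X ^ (-(η - γ))))
      ≤ 2 / κ * (Ks * (Real.pi * X ^ (-(d / 2))) + Ks * (η⁻¹ * X ^ (-(η * d / 2)) + X ^ (-(η - γ)))) := by
        refine mul_le_mul_of_nonneg_left ?_ (by positivity)
        have : 0 ≤ Real.pi * X ^ (-(d / 2)) := by positivity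
        nlinarith
    _ = _ := by ring

lemma pivot_count (I : ι → Finset ℕ) (h : ι → ℕ → ℝ) (i0 : ι) (N R c : ℝ) (x0 : ℕ) (hx0 : x0 ∈ I i0)
    (hc : ∀ z ∈ Fintype.piFinset I, c ≤
      (((I i0).filter fun x => |h i0 x - (N - ∑ i ∈ Finset.univ.erase i0, h i (z i))| ≤ R).card : ℝ)) :
    c * ∏ i ∈ Finset.univ.erase i0, ((I i).card : ℝ) ≤
      (((Fintype.piFinset I).filter fun x => |∑ i, h i (x i) - N| ≤ R).card : ℝ) := by
  obtain ⟨J, hJ⟩ : ∃ J : ι → Finset ℕ, J = fun i => if i = i0 then {x0} else I i := ⟨_, rfl⟩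
  have hJ0 : J i0 = {x0} := by rw [hJ]; simp
  have hJ1 : ∀ i, i ≠ i0 → J i = I i := fun i hi => by rw [hJ]; simp [hi]
  have hJc : ((Fintype.piFinset J).card : ℝ) = ∏ i ∈ Finset.univ.erase i0, ((I i).card : ℝ) := by
    rw [Fintype.card_piFinset, Nat.cast_prod, ← Finset.prod_erase_mul _ _ (Finset.mem_univ i0), hJ0,
      Finset.card_singleton, Nat.cast_one, mul_one]
    exact Finset.prod_congr rfl fun i hi => by rw [hJ1 i (Finset.ne_of_mem_erase hi)]
  have hJI : ∀ z ∈ Fintype.piFinset J, z ∈ Fintype.piFinset I := by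
    intro z hz
    rw [Fintype.mem_piFinset] at hz ⊢
    intro i
    by_cases hi : i = i0
    · have := hz i
      rw [hi, hJ0, Finset.mem_singleton] at this
      rw [hi, this]; exact hx0
    · have := hz i
      rwa [hJ1 i hi] at this
  rw [← hJc, mul_comm, ← nsmul_eq_mul]
  refine (Finset.card_nsmul_le_sum _ _ _ fun z hz => hc z (hJI z hz)).trans ?_
  rw [← Nat.cast_sum, ← Finset.card_sigma]
  refine Nat.cast_le.mpr (Finset.card_le_card_of_injOn (fun y => Function.update y.1 i0 y.2) ?_ ?_)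
  · rintro ⟨z, x⟩ hzx
    rw [Finset.mem_coe, Finset.mem_sigma] at hzx
    obtain ⟨hz, hx⟩ := hzx
    obtain ⟨hx, hx2⟩ := Finset.mem_filter.mp hx
    rw [Finset.mem_coe, Finset.mem_filter]
    have hz' := Fintype.mem_piFinset.mp (hJI z hz)
    constructor
    · rw [Fintype.mem_piFinset]
      intro i
      show Function.update z i0 x i ∈ I i
      by_cases hi : i = i0
      · rw [hi, Function.update_self]; exact hx
      · rw [Function.update_of_ne hi]; exact hz' i
    · show |∑ i, h i (Function.update z i0 x i) - N| ≤ R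
      rw [← Finset.sum_erase_add _ _ (Finset.mem_univ i0), Function.update_self]
      have hge : ∑ i ∈ Finset.univ.erase i0, h i (Function.update z i0 x i) =
          ∑ i ∈ Finset.univ.erase i0, h i (z i) :=
        Finset.sum_congr rfl fun i hi => by rw [Function.update_of_ne (Finset.ne_of_mem_erase hi)]
      rw [hge]
      have : ∑ i ∈ Finset.univ.erase i0, h i (z i) + h i0 x - N =
        h i0 x - (N - ∑ i ∈ Finset.univ.erase i0, h i (z i)) := by ring
      rw [this]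
      exact hx2
  · rintro ⟨z, x⟩ hzx ⟨z', x'⟩ hzx' heq
    rw [Finset.mem_coe, Finset.mem_sigma] at hzx hzx'
    have heq' : Function.update z i0 x = Function.update z' i0 x' := heq
    have hxx : x = x' := by
      have := congrFun heq' i0
      rwa [Function.update_self, Function.update_self] at this
    have hzz : z = z' := by
      funext i
      by_cases hi : i = i0
      · have h1 := (Fintype.mem_piFinset.mp hzx.1) i
        have h2 := (Fintype.mem_piFinset.mp hzx'.1) i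
        rw [hi, hJ0, Finset.mem_singleton] at h1 h2
        rw [hi]; exact h1.trans h2.symm
      · have := congrFun heq' i
        rwa [Function.update_of_ne hi, Function.update_of_ne hi] at this
    rw [hxx, hzz]

/-- Counting at one scale, from the bound for the high frequencies and a pivot variable. -/
theorem count_scale (X d γ κ : ℝ) (i0 : ι) (hX : 1 ≤ X) (hd1 : d ≤ 1) (hγ : 0 ≤ γ)
    (hκ : 0 < κ) (t : ι → ℝ) (N r : ℝ) (hr : 0 ≤ r) (hN1 : X ≤ N) (hN2 : N ≤ 2 * X)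
    (h0 : (I i0).Nonempty)
    (h3 : ∀ y : ℝ, X / 2 ≤ y → y ≤ 2 * X → 2 * κ * X ^ (-d) * Real.exp Real.pi * ((I i0).card : ℝ) ≤
      (((I i0).filter fun x => |φ i0 x (t i0) - y| ≤ X ^ (1 - d)).card : ℝ))
    (h4 : ∀ i, i ≠ i0 → ∀ x ∈ I i, 0 ≤ φ i x (t i) ∧ φ i x (t i) * (2 * Fintype.card ι) ≤ X)
    (h5 : Err I φ X d γ t ≤ ENNReal.ofReal (κ * (∏ i, ((I i).card : ℝ)) / X)) :
    X ^ (-γ) * (κ * (∏ i, ((I i).card : ℝ)) / X) -
        (∏ i, ((I i).card : ℝ)) * Real.exp (-(Real.pi * (r / X ^ (-γ)) ^ 2)) ≤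
      (((Fintype.piFinset I).filter fun x => |∑ i, φ i (x i) (t i) - N| ≤ r).card : ℝ) := by
  have hX0 : 0 < X := lt_of_lt_of_le one_pos hX
  have hcard : ((Fintype.piFinset I).card : ℝ) = ∏ i, ((I i).card : ℝ) := by
    rw [Fintype.card_piFinset, Nat.cast_prod]
  have hm : 0 ≤ κ * (∏ i, ((I i).card : ℝ)) / X := by
    have : 0 ≤ ∏ i, ((I i).card : ℝ) := Finset.prod_nonneg fun i _ => Nat.cast_nonneg _
    exact div_nonneg (mul_nonneg hκ.le this) hX0.le
  have hfib := pivot_count I (fun i x => φ i x (t i)) i0 N (X ^ (1 - d))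
    (2 * κ * X ^ (-d) * Real.exp Real.pi * ((I i0).card : ℝ)) h0.choose h0.choose_spec (by
      intro z hz
      rw [Fintype.mem_piFinset] at hz
      have hc : (0 : ℝ) < Fintype.card ι := by
        exact_mod_cast Fintype.card_pos_iff.mpr ⟨i0⟩
      have g1 : 0 ≤ ∑ i ∈ Finset.univ.erase i0, φ i (z i) (t i) :=
        Finset.sum_nonneg fun i hi => (h4 i (Finset.ne_of_mem_erase hi) _ (hz i)).1
      have g2 : ∑ i ∈ Finset.univ.erase i0, φ i (z i) (t i) ≤ X / 2 := by
        calc ∑ i ∈ Finset.univ.erase i0, φ i (z i) (t i)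
            ≤ ∑ i ∈ Finset.univ.erase i0, X / (2 * Fintype.card ι) := by
              refine Finset.sum_le_sum fun i hi => ?_
              rw [le_div_iff₀ (by linarith)]
              exact (h4 i (Finset.ne_of_mem_erase hi) _ (hz i)).2
          _ ≤ ∑ i : ι, X / (2 * Fintype.card ι) :=
              Finset.sum_le_sum_of_subset_of_nonneg (Finset.erase_subset _ _)
                fun i _ _ => div_nonneg hX0.le (by linarith)
          _ = X / 2 := by
              rw [Finset.sum_const, Finset.card_univ, nsmul_eq_mul]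
              field_simp
      exact h3 _ (by linarith) (by linarith))
  have key := count_of_smooth (Fintype.piFinset I) (fun x => ∑ i, φ i (x i) (t i))
    (δ := X ^ (-γ)) (H := X ^ (1 - d)) (r := r) (D := κ * (∏ i, ((I i).card : ℝ)) / X) (N := N)
    (Real.rpow_pos_of_pos hX0 _) (Real.rpow_le_rpow_of_exponent_le hX (by linarith)) hr hm h5 (by
      refine le_trans (le_of_eq ?_) hfib
      rw [← Finset.prod_erase_mul _ _ (Finset.mem_univ i0)]
      have e1 : X ^ (1 - d) = X * X ^ (-d) := by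
        rw [sub_eq_add_neg, Real.rpow_add hX0, Real.rpow_one]
      rw [e1]
      generalize (∏ i ∈ Finset.univ.erase i0, ((I i).card : ℝ)) = P
      generalize X ^ (-d) = Y
      generalize Real.exp Real.pi = Z
      generalize ((I i0).card : ℝ) = Q
      field_simp)
  rw [hcard] at key
  exact key

end Exp

end Pool.Agent.Q83.WG
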