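import Mathlib
import Pool.Agent.Q83.WG.D

/-!
# Mean squares from oscillation
-/

set_option autoImplicit false
set_option linter.unusedSectionVars false

open MeasureTheory Filter Topology Set
open scoped ENNReal
open Pool.Agent.H469R2.NK (e norm_e e_add conj_e e_zero)

namespace Pool.Agent.Q83.WG

/-- sums of reciprocals of distances of distinct integers -/
lemma sum_recip (I : Finset ℕ) (L : ℕ) (hL : ∀ x ∈ I, x ≤ L) (x : ℕ) (hx : x ∈ I) :
    ∑ y ∈ I.erase x, 1 / |(x : ℝ) - y| ≤ 2 * (1 + Real.log L) := by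
  classical
  rcases Nat.eq_zero_or_pos L with h0 | hLpos
  · have : I.erase x = ∅ := by
      apply Finset.eq_empty_of_forall_notMem
      intro y hy
      rw [Finset.mem_erase] at hy
      have h1 := hL x hx
      have h2 := hL y hy.2
      omega
    rw [this, Finset.sum_empty, h0]
    simp
  have hH : ∑ i ∈ Finset.Icc 1 L, (1 : ℝ) / i ≤ 1 + Real.log L := by
    have := harmonic_le_one_add_log L
    rw [harmonic_eq_sum_Icc] at this
    push_cast at this
    simpa [one_div] using this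
  have hsplit : I.erase x = (I.erase x).filter (fun y => y < x) ∪ (I.erase x).filter (fun y => x < y) := by
    ext y
    simp only [Finset.mem_union, Finset.mem_filter, Finset.mem_erase]
    constructor
    · rintro ⟨h1, h2⟩
      rcases lt_or_gt_of_ne h1 with h | h
      · exact Or.inl ⟨⟨h1, h2⟩, h⟩
      · exact Or.inr ⟨⟨h1, h2⟩, h⟩
    · rintro (h | h)
      · exact h.1
      · exact h.1
  have hd : Disjoint ((I.erase x).filter (fun y => y < x)) ((I.erase x).filter (fun y => x < y)) := by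
    rw [Finset.disjoint_filter]
    intro y _ h1 h2
    omega
  rw [hsplit, Finset.sum_union hd]
  have hxL := hL x hx
  have h1 : ∑ y ∈ (I.erase x).filter (fun y => y < x), 1 / |(x : ℝ) - y| ≤
      ∑ i ∈ Finset.Icc 1 L, (1 : ℝ) / i := by
    calc ∑ y ∈ (I.erase x).filter (fun y => y < x), 1 / |(x : ℝ) - y|
        = ∑ y ∈ (I.erase x).filter (fun y => y < x), (1 : ℝ) / ((x - y : ℕ) : ℝ) := by
          refine Finset.sum_congr rfl fun y hy => ?_
          have hlt := (Finset.mem_filter.mp hy).2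
          rw [Nat.cast_sub hlt.le, abs_of_pos]
          have : (y : ℝ) < x := by exact_mod_cast hlt
          linarith
      _ = ∑ i ∈ ((I.erase x).filter (fun y => y < x)).image (fun y => x - y), (1 : ℝ) / i := by
          rw [Finset.sum_image]
          intro y hy z hz hyz
          have h1 := (Finset.mem_filter.mp hy).2
          have h2 := (Finset.mem_filter.mp hz).2
          simp only at hyz
          omega
      _ ≤ ∑ i ∈ Finset.Icc 1 L, (1 : ℝ) / i := by
          refine Finset.sum_le_sum_of_subset_of_nonneg ?_ fun i _ _ => by positivity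
          intro i hi
          rw [Finset.mem_image] at hi
          obtain ⟨y, hy, rfl⟩ := hi
          have h1 := (Finset.mem_filter.mp hy).2
          rw [Finset.mem_Icc]
          omega
  have h2 : ∑ y ∈ (I.erase x).filter (fun y => x < y), 1 / |(x : ℝ) - y| ≤
      ∑ i ∈ Finset.Icc 1 L, (1 : ℝ) / i := by
    calc ∑ y ∈ (I.erase x).filter (fun y => x < y), 1 / |(x : ℝ) - y|
        = ∑ y ∈ (I.erase x).filter (fun y => x < y), (1 : ℝ) / ((y - x : ℕ) : ℝ) := by
          refine Finset.sum_congr rfl fun y hy => ?_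
          have hlt := (Finset.mem_filter.mp hy).2
          rw [Nat.cast_sub hlt.le, abs_sub_comm, abs_of_pos]
          have : (x : ℝ) < y := by exact_mod_cast hlt
          linarith
      _ = ∑ i ∈ ((I.erase x).filter (fun y => x < y)).image (fun y => y - x), (1 : ℝ) / i := by
          rw [Finset.sum_image]
          intro y hy z hz hyz
          have h1 := (Finset.mem_filter.mp hy).2
          have h2 := (Finset.mem_filter.mp hz).2
          simp only at hyz
          omega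
      _ ≤ ∑ i ∈ Finset.Icc 1 L, (1 : ℝ) / i := by
          refine Finset.sum_le_sum_of_subset_of_nonneg ?_ fun i _ _ => by positivity
          intro i hi
          rw [Finset.mem_image] at hi
          obtain ⟨y, hy, rfl⟩ := hi
          have h1 := (Finset.mem_filter.mp hy)
          have h2 := hL y (Finset.mem_of_mem_erase h1.1)
          rw [Finset.mem_Icc]
          have := h1.2
          omega
  linarith

/-- mean square bound from a bound on oscillatory integrals -/
lemma ms_general (μ : Measure ℝ) [IsProbabilityMeasure μ] (I : Finset ℕ) (L : ℕ) (ψ : ℕ → ℝ → ℝ)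
    (hψ : ∀ x, Measurable (ψ x)) (B : ℝ) (hB : 0 ≤ B) (hL : ∀ x ∈ I, x ≤ L)
    (h : ∀ x ∈ I, ∀ y ∈ I, x ≠ y → ‖∫ t, e (ψ x t - ψ y t) ∂μ‖ ≤ B / |(x : ℝ) - y|) :
    ∫ t, ‖∑ x ∈ I, e (ψ x t)‖ ^ 2 ∂μ ≤ I.card * (1 + 2 * B * (1 + Real.log L)) := by
  classical
  have hexp : ∀ t, ((‖∑ x ∈ I, e (ψ x t)‖ ^ 2 : ℝ) : ℂ) =
      ∑ x ∈ I, ∑ y ∈ I, e (ψ x t - ψ y t) := by
    intro t
    rw [Complex.ofReal_pow, ← Complex.conj_mul', map_sum, Finset.sum_mul_sum, Finset.sum_comm]
    refine Finset.sum_congr rfl fun x _ => Finset.sum_congr rfl fun y _ => ?_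
    rw [conj_e, ← e_add]
    congr 1
    ring
  have hint : ∀ x y, Integrable (fun t => e (ψ x t - ψ y t)) μ := by
    intro x y
    refine Integrable.of_bound ?_ 1 (ae_of_all _ fun t => (norm_e _).le)
    exact (continuous_e.measurable.comp ((hψ x).sub (hψ y))).aestronglyMeasurable
  have h1 : ((∫ t, ‖∑ x ∈ I, e (ψ x t)‖ ^ 2 ∂μ : ℝ) : ℂ) =
      ∑ x ∈ I, ∑ y ∈ I, ∫ t, e (ψ x t - ψ y t) ∂μ := by
    rw [← integral_complex_ofReal]
    simp_rw [hexp]
    rw [integral_finsetSum _ fun x _ => integrable_finsetSum _ fun y _ => hint x y]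
    refine Finset.sum_congr rfl fun x _ => ?_
    rw [integral_finsetSum _ fun y _ => hint x y]
  have h0 : 0 ≤ ∫ t, ‖∑ x ∈ I, e (ψ x t)‖ ^ 2 ∂μ := integral_nonneg fun _ => by positivity
  have h2 : ∫ t, ‖∑ x ∈ I, e (ψ x t)‖ ^ 2 ∂μ = ‖((∫ t, ‖∑ x ∈ I, e (ψ x t)‖ ^ 2 ∂μ : ℝ) : ℂ)‖ := by
    rw [Complex.norm_real, Real.norm_of_nonneg h0]
  rw [h2, h1]
  calc ‖∑ x ∈ I, ∑ y ∈ I, ∫ t, e (ψ x t - ψ y t) ∂μ‖
      ≤ ∑ x ∈ I, (1 + B * (2 * (1 + Real.log L))) := by
        refine norm_sum_le_of_le _ fun x hx => ?_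
        rw [← Finset.sum_erase_add _ _ hx, add_comm]
        refine (norm_add_le _ _).trans (add_le_add ?_ ?_)
        · simp [e_zero]
        · calc ‖∑ y ∈ I.erase x, ∫ t, e (ψ x t - ψ y t) ∂μ‖
              ≤ ∑ y ∈ I.erase x, B * (1 / |(x : ℝ) - y|) := by
                refine norm_sum_le_of_le _ fun y hy => ?_
                rw [Finset.mem_erase] at hy
                have := h x hx y hy.2 (Ne.symm hy.1)
                rwa [div_eq_mul_one_div] at this
            _ = B * ∑ y ∈ I.erase x, 1 / |(x : ℝ) - y| := by rw [Finset.mul_sum]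
            _ ≤ B * (2 * (1 + Real.log L)) := by
                gcongr
                exact sum_recip I L hL x hx
    _ = I.card * (1 + 2 * B * (1 + Real.log L)) := by
        rw [Finset.sum_const, nsmul_eq_mul]; ring

/-- the mean square bound in the normalised form -/
lemma ms_final (X p θ c1 c2 c3 c4 Q V Lg a : ℝ) (n : ℕ) (hn : 1 ≤ n) (hX : 1 ≤ X) (hp0 : 0 ≤ p) (hp1 : p ≤ 1)
    (hc1 : 0 < c1) (hc2 : 0 ≤ c2) (hc3 : 0 < c3) (hc4 : 0 ≤ c4) (hQ : 0 < Q) (hθ0 : 0 < θ)
    (hV : c1 * Q / n ≤ V) (hQX : c3 * X ^ p ≤ Q) (hL : Lg ≤ c4 * n) (hL0 : 0 ≤ Lg)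
    (ha : a ≤ V * (1 + 2 * (c2 * Q / (θ * X)) * (1 + Lg))) :
    (X⁻¹ ≤ θ → θ ≤ 1 → Real.sqrt a ≤
      (Real.sqrt (1 / (c1 * c3) + 2 * c2 * (1 + c4) / c1) * n) * V * (θ * X) ^ (-(p / 2))) ∧
    (1 ≤ θ → Real.sqrt a ≤
      (Real.sqrt (1 / (c1 * c3) + 2 * c2 * (1 + c4) / c1) * n) * V * X ^ (-(p / 2))) := by
  have hX0 : 0 < X := by linarith
  have hn0 : (0 : ℝ) < n := by exact_mod_cast hn
  have hn1 : (1 : ℝ) ≤ n := by exact_mod_cast hn
  have hV0 : 0 < V := lt_of_lt_of_le (by positivity) hV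
  have hC0 : 0 ≤ 1 / (c1 * c3) + 2 * c2 * (1 + c4) / c1 := by positivity
  -- V ≥ c1 Q / n
  have hQV : Q ≤ n * V / c1 := by
    rw [le_div_iff₀ hc1]
    rw [div_le_iff₀ hn0] at hV
    linarith
  have h1V : 1 ≤ (n / (c1 * c3)) * V * X ^ (-p) := by
    have : c3 * X ^ p ≤ n * V / c1 := hQX.trans hQV
    have hXp : 0 < X ^ p := Real.rpow_pos_of_pos hX0 _
    rw [Real.rpow_neg hX0.le]
    rw [le_div_iff₀ hc1] at this
    rw [show (n / (c1 * c3)) * V * (X ^ p)⁻¹ = (n * V) / (c3 * X ^ p * c1) by field_simp]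
    rw [le_div_iff₀ (by positivity)]
    linarith
  -- main bound
  have main : ∀ y : ℝ, 0 < y → X ^ (-p) ≤ y → 1 / (θ * X) ≤ y →
      a ≤ ((Real.sqrt (1 / (c1 * c3) + 2 * c2 * (1 + c4) / c1) * n) * V) ^ 2 * y := by
    intro y hy hy1 hy2
    have t1 : V * 1 ≤ V * ((n / (c1 * c3)) * V * y) := by
      refine mul_le_mul_of_nonneg_left (h1V.trans ?_) hV0.le
      gcongr
    have t2 : V * (2 * (c2 * Q / (θ * X)) * (1 + Lg)) ≤
        V * (2 * c2 * (n * V / c1) * y * (n * (1 + c4))) := by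
      refine mul_le_mul_of_nonneg_left ?_ hV0.le
      have s1 : 2 * (c2 * Q / (θ * X)) ≤ 2 * c2 * (n * V / c1) * y := by
        calc 2 * (c2 * Q / (θ * X)) = 2 * c2 * Q * (1 / (θ * X)) := by ring
          _ ≤ 2 * c2 * (n * V / c1) * y := by gcongr
      have s2 : 1 + Lg ≤ n * (1 + c4) := by nlinarith
      have s3 : 0 ≤ 2 * c2 * (n * V / c1) * y := by positivity
      exact mul_le_mul s1 s2 (by linarith) s3
    calc a ≤ V * 1 + V * (2 * (c2 * Q / (θ * X)) * (1 + Lg)) := by linarith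
      _ ≤ V * ((n / (c1 * c3)) * V * y) + V * (2 * c2 * (n * V / c1) * y * (n * (1 + c4))) := by
          linarith
      _ ≤ V * ((n ^ 2 / (c1 * c3)) * V * y) + V * (2 * c2 * (n * V / c1) * y * (n * (1 + c4))) := by
          gcongr
          nlinarith
      _ = (1 / (c1 * c3) + 2 * c2 * (1 + c4) / c1) * n ^ 2 * V ^ 2 * y := by
          field_simp
      _ = _ := by
          rw [mul_pow, mul_pow, Real.sq_sqrt hC0]
  have fin : ∀ z : ℝ, 0 < z → X ^ (-p) ≤ z ^ (-p) → 1 / (θ * X) ≤ z ^ (-p) →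
      Real.sqrt a ≤ (Real.sqrt (1 / (c1 * c3) + 2 * c2 * (1 + c4) / c1) * n) * V * z ^ (-(p / 2)) := by
    intro z hz h1 h2
    apply Real.sqrt_le_iff.mpr
    refine ⟨by positivity, ?_⟩
    have := main (z ^ (-p)) (by positivity) h1 h2
    rw [mul_pow _ (z ^ (-(p / 2)))]
    have e1 : (z ^ (-(p / 2))) ^ 2 = z ^ (-p) := by
      rw [← Real.rpow_natCast, ← Real.rpow_mul hz.le]
      congr 1
      push_cast
      ring
    rw [e1]
    exact this
  constructor
  · intro hθ1 hθ2
    have hz1 : 1 ≤ θ * X := by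
      have := mul_le_mul_of_nonneg_right hθ1 hX0.le
      rwa [inv_mul_cancel₀ hX0.ne'] at this
    have hz : 0 < θ * X := by linarith
    refine fin _ hz ?_ ?_
    · exact Real.rpow_le_rpow_of_nonpos hz (by nlinarith) (by linarith)
    · rw [one_div, ← Real.rpow_neg_one]
      exact Real.rpow_le_rpow_of_exponent_le hz1 (by linarith)
  · intro hθ1
    refine fin _ hX0 le_rfl ?_
    have : 1 / (θ * X) ≤ X ^ (-1 : ℝ) := by
      rw [Real.rpow_neg_one, one_div]
      apply inv_anti₀ hX0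
      nlinarith
    exact this.trans (Real.rpow_le_rpow_of_exponent_le hX (by linarith))

end Pool.Agent.Q83.WG
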