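import Mathlib
import Pool.Agent.Q83.WG.E

/-!
# All scales
-/

set_option autoImplicit false
set_option linter.unusedSectionVars false

open MeasureTheory Filter Topology Set
open scoped ENNReal
open Pool.Agent.H469R2.NK (e norm_e e_add conj_e e_zero)

namespace Pool.Agent.Q83.WG

/-- at least `m` tuples with property `P` whose value is within `r` of `N` -/
def Rep {ι : Type*} (S : (ι → ℕ) → ℝ) (P : (ι → ℕ) → Prop) (N r m : ℝ) : Prop :=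
  ∃ T : Finset (ι → ℕ), m ≤ (T.card : ℝ) ∧ ∀ x ∈ T, P x ∧ |S x - N| ≤ r

lemma rpow_two_pow (n : ℕ) (y : ℝ) : ((2 : ℝ) ^ n) ^ y = ((2 : ℝ) ^ y) ^ n := by
  rw [← Real.rpow_natCast, ← Real.rpow_natCast, ← Real.rpow_mul (by norm_num),
    ← Real.rpow_mul (by norm_num), mul_comm]

/-- summability of the failure probabilities -/
lemma summ (m : ℕ) (K u v w : ℝ) (hu : 0 < u) (hv : 0 < v) (hw : 0 < w) (k1 k2 : ℝ) :
    Summable fun n : ℕ => K * (n : ℝ) ^ m *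
      (k1 * ((2 : ℝ) ^ n) ^ (-u) + k2 * ((2 : ℝ) ^ n) ^ (-v) + ((2 : ℝ) ^ n) ^ (-w)) := by
  have key : ∀ y : ℝ, 0 < y → Summable fun n : ℕ => (n : ℝ) ^ m * ((2 : ℝ) ^ n) ^ (-y) := by
    intro y hy
    have hr : ‖(2 : ℝ) ^ (-y)‖ < 1 := by
      rw [Real.norm_of_nonneg (by positivity)]
      exact Real.rpow_lt_one_of_one_lt_of_neg (by norm_num) (by linarith)
    refine (summable_pow_mul_geometric_of_norm_lt_one m hr).congr fun n => ?_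
    rw [rpow_two_pow]
  have h := (((key u hu).mul_left (K * k1)).add ((key v hv).mul_left (K * k2))).add
    ((key w hw).mul_left K)
  refine h.congr fun n => ?_
  ring

/-- Gaussian tails beat geometric decay. -/
lemma tail_small (b : ℕ) (c y : ℝ) (hc : 0 < c) :
    ∀ᶠ n : ℕ in atTop, Real.exp (-(Real.pi * (n : ℝ) ^ 2)) ≤ c * (n : ℝ)⁻¹ ^ b * ((2 : ℝ) ^ n) ^ (-y) := by
  -- choose m with 2^y e^{-π m} ≤ 1/2
  obtain ⟨m, hm⟩ : ∃ m : ℕ, (2 : ℝ) ^ y * Real.exp (-(Real.pi * m)) ≤ 1 / 2 := by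
    have ht : Tendsto (fun m : ℕ => (2 : ℝ) ^ y * Real.exp (-(Real.pi * m))) atTop (𝓝 ((2 : ℝ) ^ y * 0)) := by
      refine Tendsto.const_mul _ ?_
      refine Real.tendsto_exp_neg_atTop_nhds_zero.comp ?_
      exact Tendsto.const_mul_atTop Real.pi_pos tendsto_natCast_atTop_atTop
    rw [mul_zero] at ht
    have := ht.eventually (ge_mem_nhds (show (0 : ℝ) < 1 / 2 by norm_num))
    exact this.exists
  have hs := (summable_pow_mul_geometric_of_norm_lt_one b (show ‖(1 / 2 : ℝ)‖ < 1 by norm_num)).tendsto_atTop_zero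
  have h1 := hs.eventually (ge_mem_nhds hc)
  filter_upwards [h1, eventually_ge_atTop (max m 1)] with n hn hnm
  have hn1 : 1 ≤ n := le_trans (le_max_right _ _) hnm
  have hnm' : (m : ℝ) ≤ n := by exact_mod_cast le_trans (le_max_left _ _) hnm
  have hn0 : (0 : ℝ) < n := by exact_mod_cast hn1
  have a1 : Real.exp (-(Real.pi * (n : ℝ) ^ 2)) ≤ (Real.exp (-(Real.pi * m))) ^ n := by
    rw [← Real.exp_nat_mul]
    apply Real.exp_le_exp.mpr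
    have : (n : ℝ) * m ≤ (n : ℝ) ^ 2 := by nlinarith
    nlinarith [Real.pi_pos, mul_le_mul_of_nonneg_left this Real.pi_pos.le]
  have a2 : (Real.exp (-(Real.pi * m))) ^ n ≤ (1 / 2) ^ n * ((2 : ℝ) ^ n) ^ (-y) := by
    rw [rpow_two_pow, ← mul_pow]
    apply pow_le_pow_left₀ (Real.exp_pos _).le
    rw [Real.rpow_neg (by norm_num), ← div_eq_mul_inv, le_div_iff₀ (by positivity)]
    linarith
  refine a1.trans (a2.trans ?_)
  refine mul_le_mul_of_nonneg_right ?_ (by positivity)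
  rw [inv_pow, ← div_eq_mul_inv, le_div_iff₀ (by positivity), mul_comm]
  exact hn

section Exp

variable {ι : Type*} [Fintype ι] [DecidableEq ι] (μ : ι → Measure ℝ) [∀ i, IsProbabilityMeasure (μ i)]
  (φ : ι → ℕ → ℝ → ℝ)

/-- failure at scale `n` -/
def Bad (I : ι → Finset ℕ) (X d γ κ : ℝ) : Set (ι → ℝ) :=
  {t | ENNReal.ofReal (κ * (∏ i, ((I i).card : ℝ)) / X) ≤ Err I φ X d γ t}

/-- what holds outside the bad sets -/
theorem good_scale (I : ℕ → ι → Finset ℕ) (d γ c : ℝ) (b n0 : ℕ) (i0 : ι) (hd1 : d ≤ 1) (hγ : 0 ≤ γ)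
    (hc : 0 < c) (t : ι → ℝ)
    (h0 : ∀ n, n0 ≤ n → (I n i0).Nonempty)
    (h3 : ∀ n, n0 ≤ n → ∀ y : ℝ, (2 : ℝ) ^ n / 2 ≤ y → y ≤ 2 * (2 : ℝ) ^ n →
      c * (n : ℝ)⁻¹ ^ b * ((2 : ℝ) ^ n) ^ (-d) * ((I n i0).card : ℝ) ≤
      (((I n i0).filter fun x => |φ i0 x (t i0) - y| ≤ ((2 : ℝ) ^ n) ^ (1 - d)).card : ℝ))
    (h4 : ∀ n, n0 ≤ n → ∀ i, i ≠ i0 → ∀ x ∈ I n i, 0 ≤ φ i x (t i) ∧
      φ i x (t i) * (2 * Fintype.card ι) ≤ (2 : ℝ) ^ n)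
    (h5 : ∀ᶠ n : ℕ in atTop, t ∉ Bad φ (I n) ((2 : ℝ) ^ n) d γ
      (c * (n : ℝ)⁻¹ ^ b / (2 * Real.exp Real.pi))) :
    ∀ᶠ n : ℕ in atTop, ∀ N : ℝ, (2 : ℝ) ^ n ≤ N → N ≤ 2 * (2 : ℝ) ^ n →
      Rep (fun x => ∑ i, φ i (x i) (t i)) (fun x => ∀ i, x i ∈ I n i) N (n * ((2 : ℝ) ^ n) ^ (-γ))
        (c / (4 * Real.exp Real.pi) * (n : ℝ)⁻¹ ^ b * ((2 : ℝ) ^ n) ^ (-(1 + γ)) *
          ∏ i, ((I n i).card : ℝ)) := by
  have hcc : 0 < c / (4 * Real.exp Real.pi) := by positivity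
  filter_upwards [h5, eventually_ge_atTop n0, eventually_ge_atTop 1, tail_small b _ (1 + γ) hcc] with
    n hn hn0 hn1 htail N hN1 hN2
  have hnpos : (0 : ℝ) < n := by exact_mod_cast hn1
  have hX : (1 : ℝ) ≤ 2 ^ n := one_le_pow₀ (by norm_num)
  have hX0 : (0 : ℝ) < 2 ^ n := by positivity
  have hbad : Err (I n) φ ((2 : ℝ) ^ n) d γ t ≤
      ENNReal.ofReal (c * (n : ℝ)⁻¹ ^ b / (2 * Real.exp Real.pi) * (∏ i, ((I n i).card : ℝ)) / 2 ^ n) := by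
    have : ¬ (ENNReal.ofReal (c * (n : ℝ)⁻¹ ^ b / (2 * Real.exp Real.pi) *
      (∏ i, ((I n i).card : ℝ)) / 2 ^ n) ≤ Err (I n) φ ((2 : ℝ) ^ n) d γ t) := hn
    exact (not_le.mp this).le
  have key := count_scale (I n) φ ((2 : ℝ) ^ n) d γ (c * (n : ℝ)⁻¹ ^ b / (2 * Real.exp Real.pi)) i0 hX hd1 hγ
    (by positivity) t N (n * ((2 : ℝ) ^ n) ^ (-γ)) (by positivity) hN1 hN2 (h0 n hn0) (by
      intro y hy1 hy2
      refine le_trans (le_of_eq ?_) (h3 n hn0 y hy1 hy2)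
      have := (Real.exp_pos Real.pi).ne'
      field_simp) (h4 n hn0) hbad
  refine ⟨(Fintype.piFinset (I n)).filter fun x => |∑ i, φ i (x i) (t i) - N| ≤ n * ((2 : ℝ) ^ n) ^ (-γ),
    le_trans ?_ key, ?_⟩
  · have hM : 0 ≤ ∏ i, ((I n i).card : ℝ) := Finset.prod_nonneg fun i _ => Nat.cast_nonneg _
    have e1 : n * ((2 : ℝ) ^ n) ^ (-γ) / ((2 : ℝ) ^ n) ^ (-γ) = n := by
      have : ((2 : ℝ) ^ n) ^ (-γ) ≠ 0 := (Real.rpow_pos_of_pos hX0 _).ne'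
      field_simp
    rw [e1]
    have e2 : ((2 : ℝ) ^ n) ^ (-(1 + γ)) = ((2 : ℝ) ^ n) ^ (-γ) / 2 ^ n := by
      rw [neg_add, add_comm, Real.rpow_add hX0, Real.rpow_neg_one, div_eq_mul_inv]
    rw [e2] at htail ⊢
    have h6 := mul_le_mul_of_nonneg_left htail hM
    have e3 : ((2 : ℝ) ^ n) ^ (-γ) * (c * (n : ℝ)⁻¹ ^ b / (2 * Real.exp Real.pi) *
        (∏ i, ((I n i).card : ℝ)) / 2 ^ n) =
        2 * (c / (4 * Real.exp Real.pi) * (n : ℝ)⁻¹ ^ b * (((2 : ℝ) ^ n) ^ (-γ) / 2 ^ n) *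
          ∏ i, ((I n i).card : ℝ)) := by
      generalize ((2 : ℝ) ^ n) ^ (-γ) = Y
      generalize (∏ i, ((I n i).card : ℝ)) = Q
      generalize Real.exp Real.pi = Z
      ring
    rw [e3]
    linarith
  · intro x hx
    rw [Finset.mem_filter, Fintype.mem_piFinset] at hx
    exact hx

/-- Borel–Cantelli over the scales (fixed index sets). -/
theorem bad_rare (hφ : ∀ i x, Measurable (φ i x)) (I : ℕ → ι → Finset ℕ) (p : ι → ℝ) (η d γ C c : ℝ)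
    (b n0 : ℕ) (hd : 0 < d) (hd1 : d ≤ 1) (hγ : 0 ≤ γ) (hγη : γ < η) (hC : 1 ≤ C) (hc : 0 < c)
    (hp : ∑ i, p i = 2 * (1 + η)) (hn0 : 1 ≤ n0)
    (h0 : ∀ n, n0 ≤ n → ∀ i, (I n i).Nonempty)
    (h1 : ∀ n, n0 ≤ n → ∀ i, ∀ θ : ℝ, ((2 : ℝ) ^ n) ^ (-1 + d / 2) ≤ θ → θ ≤ 1 →
      Real.sqrt (A μ (I n) φ i θ) ≤ (C * n) * (I n i).card * (θ * 2 ^ n) ^ (-(p i / 2)))
    (h2 : ∀ n, n0 ≤ n → ∀ i, ∀ θ : ℝ, 1 ≤ θ →
      Real.sqrt (A μ (I n) φ i θ) ≤ (C * n) * (I n i).card * ((2 : ℝ) ^ n) ^ (-(p i / 2))) :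
    ∀ᵐ t ∂(Measure.pi μ), ∀ᶠ n : ℕ in atTop, t ∉ Bad φ (I n) ((2 : ℝ) ^ n) d γ
      (c * (n : ℝ)⁻¹ ^ b / (2 * Real.exp Real.pi)) := by
  have hη : 0 < η := lt_of_le_of_lt hγ hγη
  set s := Fintype.card ι with hs
  have hsum := summ (b + s) (4 * Real.exp Real.pi / c * C ^ s) (d / 2) (η * d / 2) (η - γ) (by positivity)
    (by positivity) (by linarith) Real.pi η⁻¹
  have hbound : ∀ n, n0 ≤ n → Measure.pi μ (Bad φ (I n) ((2 : ℝ) ^ n) d γ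
      (c * (n : ℝ)⁻¹ ^ b / (2 * Real.exp Real.pi))) ≤
      ENNReal.ofReal (4 * Real.exp Real.pi / c * C ^ s * (n : ℝ) ^ (b + s) *
        (Real.pi * ((2 : ℝ) ^ n) ^ (-(d / 2)) + η⁻¹ * ((2 : ℝ) ^ n) ^ (-(η * d / 2)) +
          ((2 : ℝ) ^ n) ^ (-(η - γ)))) := by
    intro n hn
    have hn1 : 1 ≤ n := hn0.trans hn
    have hnpos : (0 : ℝ) < n := by exact_mod_cast hn1
    have hn1' : (1 : ℝ) ≤ n := by exact_mod_cast hn1
    have := scale μ (I n) φ hφ ((2 : ℝ) ^ n) d γ (C * n) η (c * (n : ℝ)⁻¹ ^ b / (2 * Real.exp Real.pi)) p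
      (one_le_pow₀ (by norm_num)) hd hd1 hγ (by nlinarith) hη (by positivity) hp (h0 n hn)
      (h1 n hn) (h2 n hn)
    refine this.trans (le_of_eq ?_)
    congr 1
    rw [← hs, mul_pow, pow_add]
    generalize Real.pi * ((2 : ℝ) ^ n) ^ (-(d / 2)) + η⁻¹ * ((2 : ℝ) ^ n) ^ (-(η * d / 2)) +
          ((2 : ℝ) ^ n) ^ (-(η - γ)) = W
    have := (Real.exp_pos Real.pi).ne'
    generalize Real.exp Real.pi = Z at *
    rw [inv_pow]
    field_simp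
    ring
  have hBC := measure_limsup_atTop_eq_zero (μ := Measure.pi μ)
    (s := fun n => if n0 ≤ n then Bad φ (I n) ((2 : ℝ) ^ n) d γ
      (c * (n : ℝ)⁻¹ ^ b / (2 * Real.exp Real.pi)) else ∅) (by
    refine ne_top_of_le_ne_top (Summable.tsum_ofReal_ne_top hsum) ?_
    refine ENNReal.tsum_le_tsum fun n => ?_
    by_cases hn : n0 ≤ n
    · simp only [hn, if_true]; exact hbound n hn
    · simp [hn])
  have h7 : ∀ᵐ t ∂(Measure.pi μ), ∀ᶠ n : ℕ in atTop, t ∉ (if n0 ≤ n then Bad φ (I n) ((2 : ℝ) ^ n) d γ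
      (c * (n : ℝ)⁻¹ ^ b / (2 * Real.exp Real.pi)) else ∅) := by
    rw [ae_iff]
    refine measure_mono_null ?_ hBC
    intro t ht
    simp only [mem_ofPred_eq, not_eventually, not_not] at ht
    rw [mem_limsup_iff_frequently_mem]
    exact ht
  filter_upwards [h7] with t ht
  filter_upwards [ht, eventually_ge_atTop n0] with n hn hn2
  simpa [hn2] using hn

end Exp

end Pool.Agent.Q83.WG
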