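import Mathlib
import Pool.Agent.Q83.WG.W

/-!
# Sets with many elements in short intervals; windows
-/

set_option autoImplicit false

open MeasureTheory Filter Topology Set
open scoped ENNReal
open Pool.Agent.H469R2.NK (e norm_e e_add conj_e e_zero)

namespace Pool.Agent.Q83.WG

open Classical in
/-- elements of `P` in `(Q, R]` -/
noncomputable def J (P : Set ℕ) (Q R : ℝ) : Finset ℕ :=
  (Finset.Ioc ⌊Q⌋₊ ⌊R⌋₊).filter (· ∈ P)

lemma mem_J {P : Set ℕ} {Q R : ℝ} (hQ : 0 ≤ Q) (hR : 0 ≤ R) {x : ℕ} :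
    x ∈ J P Q R ↔ Q < x ∧ (x : ℝ) ≤ R ∧ x ∈ P := by
  classical
  unfold J
  rw [Finset.mem_filter, Finset.mem_Ioc, Nat.floor_lt hQ, Nat.le_floor_iff hR, and_assoc]

lemma J_subset {P : Set ℕ} {Q R Q' R' : ℝ} (hQ : 0 ≤ Q) (hR : 0 ≤ R) (hQ' : 0 ≤ Q') (hR' : 0 ≤ R')
    (h1 : Q ≤ Q') (h2 : R' ≤ R) : J P Q' R' ⊆ J P Q R := by
  intro x hx
  rw [mem_J hQ' hR'] at hx
  rw [mem_J hQ hR]
  exact ⟨lt_of_le_of_lt h1 hx.1, hx.2.1.trans h2, hx.2.2⟩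

lemma J_card_le (P : Set ℕ) {Q R : ℝ} (hR : 0 ≤ R) : ((J P Q R).card : ℝ) ≤ R := by
  classical
  have h1 : ((J P Q R).card : ℝ) ≤ ((Finset.Ioc ⌊Q⌋₊ ⌊R⌋₊).card : ℝ) := by
    unfold J
    exact_mod_cast Finset.card_filter_le _ _
  refine h1.trans ?_
  rw [Nat.card_Ioc]
  have h2 : ((⌊R⌋₊ - ⌊Q⌋₊ : ℕ) : ℝ) ≤ (⌊R⌋₊ : ℝ) := by exact_mod_cast Nat.sub_le _ _
  exact h2.trans (Nat.floor_le hR)

/-- at least `c h / log z` elements in `(z, z+h]` for `z^(1-δ) ≤ h ≤ z/2` -/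
def Dense (P : Set ℕ) : Prop := ∃ δ c z0 : ℝ, 0 < δ ∧ δ < 1 ∧ 0 < c ∧ 1 < z0 ∧
  ∀ z h : ℝ, z0 ≤ z → z ^ (1 - δ) ≤ h → h ≤ z / 2 → c * h / Real.log z ≤ ((J P z (z + h)).card : ℝ)

lemma dense_univ : Dense Set.univ := by
  refine ⟨1 / 2, 1 / 2, 4, by norm_num, by norm_num, by norm_num, by norm_num, ?_⟩
  intro z h hz h1 h2
  have hz0 : 0 < z := by linarith
  have hh : 2 ≤ h := by
    refine le_trans ?_ h1
    have : (4 : ℝ) ^ (1 / 2 : ℝ) = 2 := by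
      rw [show (4 : ℝ) = 2 ^ (2 : ℝ) by norm_num, ← Real.rpow_mul (by norm_num)]
      norm_num
    calc (2 : ℝ) = (4 : ℝ) ^ (1 / 2 : ℝ) := this.symm
      _ ≤ z ^ (1 / 2 : ℝ) := Real.rpow_le_rpow (by norm_num) hz (by norm_num)
      _ = z ^ (1 - 1 / 2 : ℝ) := by norm_num
  have hlog : 1 ≤ Real.log z := by
    rw [Real.le_log_iff_exp_le hz0]
    have := Real.exp_one_lt_d9
    linarith
  have h4 : h - 1 ≤ ((J Set.univ z (z + h)).card : ℝ) := by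
    unfold J
    simp only [Set.mem_univ, Finset.filter_true, Nat.card_Ioc]
    have a1 : ⌊z⌋₊ ≤ ⌊z + h⌋₊ := Nat.floor_le_floor (by linarith)
    rw [Nat.cast_sub a1]
    have a2 := Nat.floor_le hz0.le
    have a3 := Nat.lt_floor_add_one (z + h)
    linarith
  refine le_trans ?_ h4
  rw [div_le_iff₀ (by linarith)]
  nlinarith

/-- lower bound for the number of elements in `(Q, RQ]` -/
lemma J_card_ge {P : Set ℕ} (hP : Dense P) : ∃ c z0 : ℝ, 0 < c ∧ 1 < z0 ∧ ∀ Q R : ℝ, z0 ≤ Q →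
    3 / 2 ≤ R → c * Q / Real.log Q ≤ ((J P Q (R * Q)).card : ℝ) := by
  obtain ⟨δ, c, z0, hδ, hδ1, hc, hz0, h⟩ := hP
  -- Q^(1-δ) ≤ Q/2 for large Q
  have hev : ∀ᶠ Q : ℝ in atTop, (2 : ℝ) ≤ Q ^ δ :=
    (tendsto_rpow_atTop hδ).eventually_ge_atTop 2
  obtain ⟨z1, hz1⟩ := eventually_atTop.mp hev
  refine ⟨c / 2, max z0 z1, by positivity, lt_of_lt_of_le hz0 (le_max_left _ _), ?_⟩
  intro Q R hQ hR
  have hQ0 : z0 ≤ Q := (le_max_left _ _).trans hQ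
  have hQ1 := hz1 Q ((le_max_right _ _).trans hQ)
  have hQpos : 0 < Q := by linarith
  have h1 : Q ^ (1 - δ) ≤ Q / 2 := by
    rw [Real.rpow_sub hQpos, Real.rpow_one]
    exact div_le_div_of_nonneg_left hQpos.le (by norm_num) hQ1
  have h2 := h Q (Q / 2) hQ0 h1 le_rfl
  have h3 : c / 2 * Q / Real.log Q = c * (Q / 2) / Real.log Q := by ring
  rw [h3]
  refine h2.trans ?_
  exact_mod_cast Finset.card_le_card (J_subset hQpos.le (by positivity) hQpos.le (by positivity) le_rfl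
    (by nlinarith))

/-- tangent inequalities for powers -/
lemma rpow_diff_ge {κ x y : ℝ} (hκ : 1 ≤ κ) (hy : 0 < y) (hxy : y ≤ x) :
    y ^ (κ - 1) * (x - y) ≤ x ^ κ - y ^ κ := by
  have hx : 0 < x := by linarith
  have e1 : x ^ κ = x ^ (κ - 1) * x := by
    rw [← Real.rpow_add_one hx.ne']; congr 1; ring
  have e2 : y ^ κ = y ^ (κ - 1) * y := by
    rw [← Real.rpow_add_one hy.ne']; congr 1; ring
  have h : y ^ (κ - 1) ≤ x ^ (κ - 1) := Real.rpow_le_rpow hy.le hxy (by linarith)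
  rw [e1, e2]
  nlinarith

lemma rpow_diff_le {κ x z : ℝ} (hκ : 1 ≤ κ) (hz : 0 < z) (hxz : z ≤ x) :
    x ^ κ - z ^ κ ≤ κ * x ^ (κ - 1) * (x - z) := by
  have hx : 0 < x := by linarith
  have h := one_add_mul_self_le_rpow_one_add (s := z / x - 1) (by
    have : 0 ≤ z / x := by positivity
    linarith) hκ
  have e0 : 1 + (z / x - 1) = z / x := by ring
  rw [e0, Real.div_rpow hz.le hx.le, le_div_iff₀ (by positivity)] at h
  have e1 : x ^ κ = x ^ (κ - 1) * x := by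
    rw [← Real.rpow_add_one hx.ne']; congr 1; ring
  have e2 : (1 + κ * (z / x - 1)) * x ^ κ = x ^ κ + κ * (z - x) * x ^ (κ - 1) := by
    rw [e1]; field_simp
  rw [e2] at h
  linarith

end Pool.Agent.Q83.WG
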