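import Mathlib
import Pool.Agent.Q83.WG.H

/-!
# Generic coefficients
-/

set_option autoImplicit false

open MeasureTheory Filter Topology Set
open scoped ENNReal
open Pool.Agent.H469R2.NK (e norm_e e_add conj_e e_zero)

namespace Pool.Agent.Q83.WG

/-- short windows contain many elements -/
theorem win (P : Set ℕ) (hP : Dense P) (p : ℝ) (hp : 0 < p) : ∃ d0 : ℝ, 0 < d0 ∧ ∀ d : ℝ, 0 < d → d < d0 →
    ∀ ζ c5 c6 : ℝ, 0 < ζ → 0 < c5 → c5 ≤ 1 / 2 → 0 < c6 → ∃ c : ℝ, 0 < c ∧ ∃ n0 : ℕ, 1 ≤ n0 ∧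
      ∀ n : ℕ, n0 ≤ n → ∀ z : ℝ, ζ * ((2 : ℝ) ^ n) ^ p ≤ z → z ≤ c6 * 2 ^ n →
        c * z * ((2 : ℝ) ^ n) ^ (-d) / n ≤ ((J P z (z + c5 * z * ((2 : ℝ) ^ n) ^ (-d))).card : ℝ) := by
  obtain ⟨δ, c, z0, hδ, hδ1, hc, hz0, h⟩ := hP
  refine ⟨p * δ, by positivity, ?_⟩
  intro d hd hdd ζ c5 c6 hζ hc5 hc5' hc6
  set c4 : ℝ := Real.log 2 + |Real.log c6| with hc4
  have hlog2 : 0 < Real.log 2 := Real.log_pos (by norm_num)
  have hc40 : 0 < c4 := by positivity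
  have hev1 : ∀ᶠ n : ℕ in atTop, z0 / ζ ≤ ((2 : ℝ) ^ n) ^ p :=
    (((tendsto_rpow_atTop hp).comp two_pow_tendsto)).eventually_ge_atTop _
  have hev2 : ∀ᶠ n : ℕ in atTop, 1 / (c5 * ζ ^ δ) ≤ ((2 : ℝ) ^ n) ^ (p * δ - d) :=
    (((tendsto_rpow_atTop (by linarith)).comp two_pow_tendsto)).eventually_ge_atTop _
  obtain ⟨n1, hn1⟩ := eventually_atTop.mp (hev1.and hev2)
  refine ⟨c * c5 / c4, by positivity, max n1 1, le_max_right _ _, ?_⟩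
  intro n hn z hz1 hz2
  obtain ⟨g1, g2⟩ := hn1 n ((le_max_left _ _).trans hn)
  have hn1' : 1 ≤ n := (le_max_right _ _).trans hn
  have hnpos : (0 : ℝ) < n := by exact_mod_cast hn1'
  have hnone : (1 : ℝ) ≤ n := by exact_mod_cast hn1'
  have hX1 : (1 : ℝ) ≤ 2 ^ n := one_le_pow₀ (by norm_num)
  have hX0 : (0 : ℝ) < 2 ^ n := by positivity
  have hzz : z0 ≤ z := by
    refine le_trans ?_ hz1
    rw [div_le_iff₀ hζ] at g1
    linarith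
  have hz : 0 < z := by linarith
  have hXd : ((2 : ℝ) ^ n) ^ (-d) ≤ 1 := Real.rpow_le_one_of_one_le_of_nonpos hX1 (by linarith)
  have hXd0 : 0 < ((2 : ℝ) ^ n) ^ (-d) := by positivity
  have h1 : z ^ (1 - δ) ≤ c5 * z * ((2 : ℝ) ^ n) ^ (-d) := by
    rw [Real.rpow_sub hz, Real.rpow_one, div_le_iff₀ (by positivity)]
    have s1 : (ζ * ((2 : ℝ) ^ n) ^ p) ^ δ ≤ z ^ δ := Real.rpow_le_rpow (by positivity) hz1 hδ.le
    rw [Real.mul_rpow hζ.le (by positivity), ← Real.rpow_mul hX0.le] at s1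
    rw [div_le_iff₀ (by positivity)] at g2
    have s2 : ((2 : ℝ) ^ n) ^ (p * δ) * ((2 : ℝ) ^ n) ^ (-d) = ((2 : ℝ) ^ n) ^ (p * δ - d) := by
      rw [← Real.rpow_add hX0]; congr 1
    have s3 : 1 ≤ c5 * (((2 : ℝ) ^ n) ^ (-d) * z ^ δ) := by
      calc (1 : ℝ) ≤ ((2 : ℝ) ^ n) ^ (p * δ - d) * (c5 * ζ ^ δ) := g2
        _ = c5 * (((2 : ℝ) ^ n) ^ (-d) * (ζ ^ δ * ((2 : ℝ) ^ n) ^ (p * δ))) := by rw [← s2]; ring
        _ ≤ c5 * (((2 : ℝ) ^ n) ^ (-d) * z ^ δ) := by gcongr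
    calc z = z * 1 := (mul_one z).symm
      _ ≤ z * (c5 * (((2 : ℝ) ^ n) ^ (-d) * z ^ δ)) := by gcongr
      _ = c5 * z * ((2 : ℝ) ^ n) ^ (-d) * z ^ δ := by ring
  have h2 : c5 * z * ((2 : ℝ) ^ n) ^ (-d) ≤ z / 2 := by
    calc c5 * z * ((2 : ℝ) ^ n) ^ (-d) ≤ 1 / 2 * z * 1 := by gcongr
      _ = z / 2 := by ring
  refine le_trans ?_ (h z _ hzz h1 h2)
  have hlogz : Real.log z ≤ c4 * n := by
    calc Real.log z ≤ Real.log (c6 * 2 ^ n) := Real.log_le_log hz hz2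
      _ = Real.log c6 + n * Real.log 2 := by
          rw [Real.log_mul (by positivity) (by positivity), Real.log_pow]
      _ ≤ |Real.log c6| * n + n * Real.log 2 := by
          have := le_abs_self (Real.log c6)
          have h2 := abs_nonneg (Real.log c6)
          nlinarith
      _ = c4 * n := by rw [hc4]; ring
  have hlogz0 : 0 < Real.log z := Real.log_pos (by linarith)
  have e1 : c * c5 / c4 * z * ((2 : ℝ) ^ n) ^ (-d) / n =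
      c * (c5 * z * ((2 : ℝ) ^ n) ^ (-d)) / (c4 * n) := by field_simp
  rw [e1]
  exact div_le_div_of_nonneg_left (by positivity) hlogz0 hlogz

section Coef

variable {ι : Type*} [Fintype ι] [DecidableEq ι]

/-- the probability measure on a unit interval -/
noncomputable def U (a : ℝ) : Measure ℝ := volume.restrict (Icc a (a + 1))

instance (a : ℝ) : IsProbabilityMeasure (U a) := ⟨by
  rw [U, Measure.restrict_apply_univ, Real.volume_Icc]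
  simp⟩

lemma le_rpow_inv {κ x : ℝ} (hκ : 1 ≤ κ) (hx : 1 ≤ x) : x ^ κ⁻¹ ≤ x := by
  calc x ^ κ⁻¹ ≤ x ^ (1 : ℝ) := Real.rpow_le_rpow_of_exponent_le hx (inv_le_one_of_one_le₀ hκ)
    _ = x := Real.rpow_one x

/-- `(l X)^(1/κ) ≤ max 1 l * X` -/
lemma rpow_inv_le {κ l X : ℝ} (hκ : 1 ≤ κ) (hl : 0 < l) (hX : 1 ≤ X) :
    (l * X) ^ κ⁻¹ ≤ max 1 l * X := by
  have h1 : l * X ≤ max 1 l * X := by gcongr; exact le_max_right _ _
  have h2 : (1 : ℝ) ≤ max 1 l * X := by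
    have := le_max_left 1 l
    nlinarith
  have hκ0 : 0 ≤ κ⁻¹ := by positivity
  exact (Real.rpow_le_rpow (by positivity) h1 hκ0).trans (le_rpow_inv hκ h2)

lemma rpow_inv_pow {κ y : ℝ} (hκ : 1 ≤ κ) (hy : 0 ≤ y) : (y ^ κ⁻¹) ^ κ = y := by
  rw [← Real.rpow_mul hy, inv_mul_cancel₀ (by linarith), Real.rpow_one]

/-- the oscillation hypothesis for coefficients -/
lemma osc_hyp (P : Set ℕ) (κ l X R a θ : ℝ) (hκ : 1 ≤ κ) (hl : 0 < l) (hX : 1 ≤ X) (hR : 3 / 2 ≤ R)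
    (hθ : 0 < θ) (x y : ℕ) (hx : x ∈ J P ((l * X) ^ κ⁻¹) (R * (l * X) ^ κ⁻¹))
    (hy : y ∈ J P ((l * X) ^ κ⁻¹) (R * (l * X) ^ κ⁻¹)) (hxy : x ≠ y) :
    ‖∫ t, e (θ * (t * (x : ℝ) ^ κ) - θ * (t * (y : ℝ) ^ κ)) ∂(U a)‖ ≤
      ((1 / (Real.pi * l)) * (l * X) ^ κ⁻¹ / (θ * X)) / |(x : ℝ) - y| := by
  have hX0 : 0 < X := by linarith
  obtain ⟨Q, hQ⟩ : ∃ Q : ℝ, Q = (l * X) ^ κ⁻¹ := ⟨_, rfl⟩
  rw [← hQ] at hx hy ⊢
  have hQ0 : 0 < Q := by rw [hQ]; positivity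
  have hQκ : Q ^ κ = l * X := by rw [hQ]; exact rpow_inv_pow hκ (by positivity)
  have hRQ : 0 ≤ R * Q := by positivity
  rw [mem_J hQ0.le hRQ] at hx hy
  -- lower bound for the difference
  have hdiff : ∀ u v : ℝ, Q < v → v ≤ u → Q ^ (κ - 1) * (u - v) ≤ u ^ κ - v ^ κ := by
    intro u v hv huv
    refine le_trans ?_ (rpow_diff_ge hκ (hQ0.trans hv) huv)
    have : Q ^ (κ - 1) ≤ v ^ (κ - 1) := Real.rpow_le_rpow hQ0.le hv.le (by linarith)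
    exact mul_le_mul_of_nonneg_right this (by linarith)
  have hD : Q ^ (κ - 1) * |(x : ℝ) - y| ≤ |(x : ℝ) ^ κ - (y : ℝ) ^ κ| := by
    rcases le_total (x : ℝ) y with h | h
    · rw [abs_sub_comm, abs_sub_comm ((x : ℝ) ^ κ), abs_of_nonneg (by linarith : (0 : ℝ) ≤ (y : ℝ) - x)]
      exact (hdiff y x hx.1 h).trans (le_abs_self _)
    · rw [abs_of_nonneg (by linarith : (0 : ℝ) ≤ (x : ℝ) - y)]
      exact (hdiff x y hy.1 h).trans (le_abs_self _)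
  have hxy' : 0 < |(x : ℝ) - y| := abs_pos.mpr (sub_ne_zero.mpr (by exact_mod_cast hxy))
  have hQ1 : 0 < Q ^ (κ - 1) := by positivity
  have hpos : 0 < |(x : ℝ) ^ κ - (y : ℝ) ^ κ| := lt_of_lt_of_le (by positivity) hD
  have hv : θ * ((x : ℝ) ^ κ - (y : ℝ) ^ κ) ≠ 0 :=
    mul_ne_zero hθ.ne' (abs_pos.mp hpos)
  have hosc := osc_coef a (θ * ((x : ℝ) ^ κ - (y : ℝ) ^ κ)) hv
  have e1 : ∫ t, e (θ * (t * (x : ℝ) ^ κ) - θ * (t * (y : ℝ) ^ κ)) ∂(U a) =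
      ∫ t in Icc a (a + 1), e (t * (θ * ((x : ℝ) ^ κ - (y : ℝ) ^ κ))) := by
    unfold U
    refine integral_congr_ae (ae_of_all _ fun t => ?_)
    simp only
    congr 1
    ring
  rw [e1]
  refine hosc.trans ?_
  rw [abs_mul, abs_of_pos hθ]
  have hπ := Real.pi_pos
  have e2 : ((1 / (Real.pi * l)) * Q / (θ * X)) / |(x : ℝ) - y| =
      1 / (Real.pi * (θ * (Q ^ (κ - 1) * |(x : ℝ) - y|))) := by
    have : Q ^ κ = Q ^ (κ - 1) * Q := by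
      rw [← Real.rpow_add_one hQ0.ne']; congr 1; ring
    rw [this] at hQκ
    have hX' : X = Q ^ (κ - 1) * Q / l := by rw [hQκ]; field_simp
    rw [hX']
    field_simp
  rw [e2]
  apply one_div_le_one_div_of_le (by positivity)
  gcongr

end Coef

end Pool.Agent.Q83.WG
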