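import Mathlib
import Pool.Agent.Q83.WG.K

/-!
# Generic coefficients: main theorem
-/

set_option autoImplicit false

open MeasureTheory Filter Topology Set
open scoped ENNReal
open Pool.Agent.H469R2.NK (e norm_e e_add conj_e e_zero)

namespace Pool.Agent.Q83.WG

section Coef

variable {ι : Type*} [Fintype ι] [DecidableEq ι]

theorem coef_box (P : ι → Set ℕ) (hP : ∀ i, Dense (P i)) (κ : ι → ℝ) (hκ : ∀ i, 1 ≤ κ i)
    (hsum : 2 < ∑ i, (κ i)⁻¹) (a : ι → ℝ) (ha : ∀ i, 0 < a i) :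
    ∀ᵐ α ∂(Measure.pi fun i => U (a i)),
      ∀ γ : ℝ, 0 ≤ γ → γ < (∑ i, (κ i)⁻¹) / 2 - 1 → ∀ ε : ℝ, 0 < ε → ∀ᶠ N : ℝ in atTop,
        Rep (fun x : ι → ℕ => ∑ i, α i * (x i : ℝ) ^ κ i) (fun x => ∀ i, x i ∈ P i ∧ 0 < x i) N
          (N ^ (-γ)) (N ^ ((∑ i, (κ i)⁻¹) - 1 - γ - ε)) := by
  classical
  set q : ℝ := ∑ i, (κ i)⁻¹ with hq
  set η : ℝ := q / 2 - 1 with hη
  have hη0 : 0 < η := by rw [hη]; linarith
  obtain ⟨i0⟩ : Nonempty ι := by
    by_contra hne
    rw [not_nonempty_iff] at hne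
    rw [hq, Finset.univ_eq_empty, Finset.sum_empty] at hsum
    linarith
  -- pivot data
  obtain ⟨d0, hd0, hwin⟩ := win (P i0) (hP i0) (κ i0)⁻¹ (by have := hκ i0; positivity)
  obtain ⟨d, hd, hdd, hd1⟩ : ∃ d : ℝ, 0 < d ∧ d < d0 ∧ d ≤ 1 :=
    ⟨min (d0 / 2) 1, by positivity, by
      have := min_le_left (d0 / 2) 1
      linarith, min_le_right _ _⟩
  set s : ℝ := (Fintype.card ι : ℝ) with hs
  have hs1 : 1 ≤ s := by
    rw [hs]; exact_mod_cast Fintype.card_pos_iff.mpr ⟨i0⟩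
  set l : ι → ℝ := fun i => if i = i0 then 1 / (2 * (a i + 1)) else
    1 / ((a i + 1) * (2 : ℝ) ^ κ i * (2 * s)) with hl
  set Rr : ι → ℝ := fun i => if i = i0 then 2 * (4 * (a i + 1) / a i) ^ (κ i)⁻¹ else 3 / 2 with hRr
  have hl0 : ∀ i, 0 < l i := by
    intro i
    have := ha i
    simp only [hl]
    split_ifs <;> positivity
  have hR : ∀ i, 3 / 2 ≤ Rr i := by
    intro i
    simp only [hRr]
    split_ifs
    · have h1 : (1 : ℝ) ≤ (4 * (a i + 1) / a i) ^ (κ i)⁻¹ := by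
        apply Real.one_le_rpow
        · rw [le_div_iff₀ (ha i)]
          have := ha i
          linarith
        · have := hκ i; positivity
      linarith
    · exact le_rfl
  set Q : ℕ → ι → ℝ := fun n i => (l i * 2 ^ n) ^ (κ i)⁻¹ with hQ
  set I : ℕ → ι → Finset ℕ := fun n i => J (P i) (Q n i) (Rr i * Q n i) with hI
  set φ : ι → ℕ → ℝ → ℝ := fun i x t => t * (x : ℝ) ^ κ i with hφ
  have hφm : ∀ i x, Measurable (φ i x) := fun i x => measurable_id.mul_const _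
  have hX1 : ∀ n : ℕ, (1 : ℝ) ≤ 2 ^ n := fun n => one_le_pow₀ (by norm_num)
  have hX0 : ∀ n : ℕ, (0 : ℝ) < 2 ^ n := fun n => by positivity
  have hQ0 : ∀ n i, 0 < Q n i := fun n i => by
    simp only [hQ]; have := hl0 i; positivity
  have hπ := Real.pi_pos
  -- mean squares
  have hms : ∀ i, ∃ C c1 : ℝ, 1 ≤ C ∧ 0 < c1 ∧ ∃ n0 : ℕ, 1 ≤ n0 ∧ ∀ n : ℕ, n0 ≤ n →
      (I n i).Nonempty ∧ c1 * Q n i / n ≤ ((I n i).card : ℝ) ∧
      (∀ θ : ℝ, ((2 : ℝ) ^ n)⁻¹ ≤ θ → θ ≤ 1 →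
          Real.sqrt (A (fun i => U (a i)) (I n) φ i θ) ≤
          (C * n) * (I n i).card * (θ * 2 ^ n) ^ (-((κ i)⁻¹ / 2))) ∧
      (∀ θ : ℝ, 1 ≤ θ → Real.sqrt (A (fun i => U (a i)) (I n) φ i θ) ≤
          (C * n) * (I n i).card * ((2 : ℝ) ^ n) ^ (-((κ i)⁻¹ / 2))) := by
    intro i
    have hκi := hκ i
    obtain ⟨C, c1, hC, hc1, n0, hn0, h⟩ := ms_scale (P i) (hP i) (κ i)⁻¹ (1 / (Real.pi * l i))
      (l i ^ (κ i)⁻¹) (max 1 (l i)) (Rr i) (by positivity) (inv_le_one_of_one_le₀ hκi)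
      (by have := hl0 i; positivity) (by have := hl0 i; positivity) (by positivity) (hR i)
    refine ⟨C, c1, hC, hc1, n0, hn0, fun n hn => ?_⟩
    obtain ⟨g1, g2, g3⟩ := h n hn (Q n i)
      (by simp only [hQ]; rw [Real.mul_rpow (hl0 i).le (hX0 n).le])
      (by simp only [hQ]; exact rpow_inv_le hκi (hl0 i) (hX1 n))
    refine ⟨g1, g2, fun θ hθ1 hθ2 => ?_, fun θ hθ1 => ?_⟩
    · have hθ : 0 < θ := lt_of_lt_of_le (by have := hX0 n; positivity) hθ1
      have := (g3 (U (a i)) (φ i) (hφm i) θ hθ (fun x hx y hy hxy =>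
        osc_hyp (P i) (κ i) (l i) (2 ^ n) (Rr i) (a i) θ hκi (hl0 i) (hX1 n) (hR i) hθ x y hx hy hxy)).1
      exact this hθ1 hθ2
    · have hθ : 0 < θ := by linarith
      have := (g3 (U (a i)) (φ i) (hφm i) θ hθ (fun x hx y hy hxy =>
        osc_hyp (P i) (κ i) (l i) (2 ^ n) (Rr i) (a i) θ hκi (hl0 i) (hX1 n) (hR i) hθ x y hx hy hxy)).2
      exact this hθ1
  choose C c1 hC hc1 n0 hn0 hms' using hms
  -- the pivot window
  set c5 : ℝ := 1 / (κ i0 * 2 ^ κ i0 * 2) with hc5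
  have hκ0 := hκ i0
  have h2κ : (1 : ℝ) ≤ 2 ^ κ i0 := Real.one_le_rpow (by norm_num) (by linarith)
  have hc50 : 0 < c5 := by positivity
  have hc5' : c5 ≤ 1 / 2 := by
    rw [hc5]
    apply one_div_le_one_div_of_le (by norm_num)
    nlinarith
  obtain ⟨cw, hcw, nw, hnw, hwin'⟩ := hwin d hd hdd (l i0 ^ (κ i0)⁻¹) c5 (max 1 (2 / a i0))
    (by have := hl0 i0; positivity) hc50 hc5' (by positivity)
  set nn : ℕ := ∑ i, n0 i + nw with hnn
  have hnn0 : ∀ n, nn ≤ n → ∀ i, n0 i ≤ n := by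
    intro n hn i
    have := Finset.single_le_sum (f := n0) (fun j _ => Nat.zero_le _) (Finset.mem_univ i)
    omega
  have hnnw : ∀ n, nn ≤ n → nw ≤ n := fun n hn => by omega
  have hnn1 : 1 ≤ nn := by omega
  set CC : ℝ := ∑ i, C i with hCC
  have hCi : ∀ i, C i ≤ CC := fun i =>
    Finset.single_le_sum (f := C) (fun j _ => by linarith [hC j]) (Finset.mem_univ i)
  have hCC1 : 1 ≤ CC := (hC i0).trans (hCi i0)
  -- almost every coefficient is good at all scales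
  have hbad : ∀ γ : ℚ, 0 ≤ γ → (γ : ℝ) < η → ∀ᵐ t ∂(Measure.pi fun i => U (a i)),
      ∀ᶠ n : ℕ in atTop, t ∉ Bad φ (I n) ((2 : ℝ) ^ n) d γ
        (cw / Rr i0 * (n : ℝ)⁻¹ ^ 1 / (2 * Real.exp Real.pi)) := by
    intro γ hγ0 hγη
    refine bad_rare (fun i => U (a i)) φ hφm I (fun i => (κ i)⁻¹) η d γ CC (cw / Rr i0) 1 nn hd hd1
      (by exact_mod_cast hγ0) hγη hCC1 (div_pos hcw (by linarith [hR i0])) ?_ hnn1 ?_ ?_ ?_
    · rw [← hq, hη]; ring
    · intro n hn i; exact (hms' i n (hnn0 n hn i)).1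
    · intro n hn i θ hθ1 hθ2
      have h1 : ((2 : ℝ) ^ n)⁻¹ ≤ θ := by
        refine le_trans ?_ hθ1
        rw [← Real.rpow_neg_one]
        exact Real.rpow_le_rpow_of_exponent_le (hX1 n) (by linarith)
      refine ((hms' i n (hnn0 n hn i)).2.2.1 θ h1 hθ2).trans ?_
      have hθ0 : 0 < θ := lt_of_lt_of_le (by have := hX0 n; positivity) h1
      have : 0 ≤ (θ * 2 ^ n) ^ (-((κ i)⁻¹ / 2)) := by have := hX0 n; positivity
      have h2 := hCi i
      gcongr
    · intro n hn i θ hθ1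
      refine ((hms' i n (hnn0 n hn i)).2.2.2 θ hθ1).trans ?_
      have : 0 ≤ ((2 : ℝ) ^ n) ^ (-((κ i)⁻¹ / 2)) := by have := hX0 n; positivity
      have h2 := hCi i
      gcongr
  have hbad' : ∀ᵐ t ∂(Measure.pi fun i => U (a i)), ∀ γ : ℚ, 0 ≤ γ → (γ : ℝ) < η →
      ∀ᶠ n : ℕ in atTop, t ∉ Bad φ (I n) ((2 : ℝ) ^ n) d γ
        (cw / Rr i0 * (n : ℝ)⁻¹ ^ 1 / (2 * Real.exp Real.pi)) := by
    rw [ae_all_iff]; intro γ
    by_cases h1 : 0 ≤ γ
    · by_cases h2 : (γ : ℝ) < η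
      · filter_upwards [hbad γ h1 h2] with t ht _ _ using ht
      · exact ae_of_all _ fun t _ h => absurd h h2
    · exact ae_of_all _ fun t h => absurd h h1
  have hbox : ∀ᵐ t ∂(Measure.pi fun i => U (a i)), ∀ i, a i ≤ t i ∧ t i ≤ a i + 1 := by
    have h1 : (Measure.pi fun i => U (a i)) =
        (Measure.pi fun _ : ι => (volume : Measure ℝ)).restrict (Set.pi Set.univ fun i => Icc (a i) (a i + 1)) := by
      rw [Measure.restrict_pi_pi]; rfl
    rw [h1]
    filter_upwards [ae_restrict_mem (MeasurableSet.univ_pi fun i => measurableSet_Icc)] with t ht i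
    exact ht i (Set.mem_univ i)
  filter_upwards [hbad', hbox] with t ht htb γ hγ hγη ε hε
  refine wrap _ _ q η (fun γ' hγ' hγη' => ?_) γ hγ (by rw [hη]; exact hγη) ε hε
  have hgood := good_scale φ I d γ' (cw / Rr i0) 1 nn i0 hd1 (by exact_mod_cast hγ')
    (div_pos hcw (by linarith [hR i0])) t (fun n hn => (hms' i0 n (hnn0 n hn i0)).1) ?_ ?_ (ht γ' hγ' hγη')
  · -- product of the cardinalities
    refine ⟨cw / Rr i0 / (4 * Real.exp Real.pi) * ∏ i, (c1 i * l i ^ (κ i)⁻¹), ?_, 1 + Fintype.card ι, ?_⟩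
    · have h1 : 0 < ∏ i, (c1 i * l i ^ (κ i)⁻¹) := Finset.prod_pos fun i _ => by
        have := hc1 i; have := hl0 i; positivity
      have h2 : 0 < Rr i0 := by linarith [hR i0]
      positivity
    · filter_upwards [hgood, eventually_ge_atTop nn] with n hn hnn' N hN1 hN2
      refine (hn N hN1 hN2).mono ?_ le_rfl ?_
      · intro x hx i
        have h1 := (mem_J (hQ0 n i).le (by have := hQ0 n i; have := hR i; positivity)).mp (hx i)
        refine ⟨h1.2.2, ?_⟩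
        have : (0 : ℝ) < x i := (hQ0 n i).trans h1.1
        exact_mod_cast this
      · have hn1 : 1 ≤ n := hnn1.trans hnn'
        have hnpos : (0 : ℝ) < n := by exact_mod_cast hn1
        have hprod : (∏ i, (c1 i * l i ^ (κ i)⁻¹)) * (n : ℝ)⁻¹ ^ Fintype.card ι * ((2 : ℝ) ^ n) ^ q ≤
            ∏ i, ((I n i).card : ℝ) := by
          calc (∏ i, (c1 i * l i ^ (κ i)⁻¹)) * (n : ℝ)⁻¹ ^ Fintype.card ι * ((2 : ℝ) ^ n) ^ q
              = ∏ i, (c1 i * Q n i / n) := by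
                rw [hq, Real.rpow_sum_of_pos (hX0 n), ← Finset.card_univ, ← Finset.prod_const,
                  ← Finset.prod_mul_distrib, ← Finset.prod_mul_distrib]
                refine Finset.prod_congr rfl fun i _ => ?_
                simp only [hQ]
                rw [Real.mul_rpow (hl0 i).le (hX0 n).le]
                ring
            _ ≤ ∏ i, ((I n i).card : ℝ) :=
                Finset.prod_le_prod (fun i _ => by have := hc1 i; have := hQ0 n i; positivity)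
                  fun i _ => (hms' i n (hnn0 n hnn' i)).2.1
        have e1 : ((2 : ℝ) ^ n) ^ (q - 1 - (γ' : ℝ)) = ((2 : ℝ) ^ n) ^ (-(1 + (γ' : ℝ))) * ((2 : ℝ) ^ n) ^ q := by
          rw [← Real.rpow_add (hX0 n)]; congr 1; ring
        have h3 : 0 < Rr i0 := by linarith [hR i0]
        rw [e1, pow_add, pow_one]
        calc cw / Rr i0 / (4 * Real.exp Real.pi) * (∏ i, (c1 i * l i ^ (κ i)⁻¹)) *
              ((n : ℝ)⁻¹ * (n : ℝ)⁻¹ ^ Fintype.card ι) *
              (((2 : ℝ) ^ n) ^ (-(1 + (γ' : ℝ))) * ((2 : ℝ) ^ n) ^ q)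
            = cw / Rr i0 / (4 * Real.exp Real.pi) * (n : ℝ)⁻¹ * ((2 : ℝ) ^ n) ^ (-(1 + (γ' : ℝ))) *
              ((∏ i, (c1 i * l i ^ (κ i)⁻¹)) * (n : ℝ)⁻¹ ^ Fintype.card ι * ((2 : ℝ) ^ n) ^ q) := by ring
          _ ≤ _ := by gcongr
  · -- pivot
    intro n hn y hy1 hy2
    have hX := hX0 n
    have hn1 : 1 ≤ n := hnn1.trans hn
    have hnpos : (0 : ℝ) < n := by exact_mod_cast hn1
    have ht1 := (htb i0).1
    have ht2 := (htb i0).2
    have ha0 := ha i0
    have ht0 : 0 < t i0 := by linarith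
    have hy0 : 0 < y := by linarith
    set z : ℝ := (y / t i0) ^ (κ i0)⁻¹ with hz
    have hκi : 0 ≤ (κ i0)⁻¹ := by positivity
    have hli0 : l i0 = 1 / (2 * (a i0 + 1)) := by simp only [hl, if_true]
    have hRi0 : Rr i0 = 2 * (4 * (a i0 + 1) / a i0) ^ (κ i0)⁻¹ := by simp only [hRr, if_true]
    have hzQ : Q n i0 ≤ z := by
      simp only [hQ, hz]
      apply Real.rpow_le_rpow (by have := hl0 i0; positivity) _ hκi
      rw [hli0, le_div_iff₀ ht0]
      calc 1 / (2 * (a i0 + 1)) * 2 ^ n * t i0 ≤ 1 / (2 * (a i0 + 1)) * 2 ^ n * (a i0 + 1) := by gcongr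
        _ = 2 ^ n / 2 := by field_simp
        _ ≤ y := hy1
    have hz0 : 0 < z := (hQ0 n i0).trans_le hzQ
    have hz2 : 2 * z ≤ Rr i0 * Q n i0 := by
      rw [hRi0]
      have e1 : (4 * (a i0 + 1) / a i0) ^ (κ i0)⁻¹ * Q n i0 = (2 * 2 ^ n / a i0) ^ (κ i0)⁻¹ := by
        simp only [hQ]
        rw [← Real.mul_rpow (by positivity) (by have := hl0 i0; positivity), hli0]
        congr 1
        field_simp
        ring
      rw [mul_assoc, e1]
      have : z ≤ (2 * 2 ^ n / a i0) ^ (κ i0)⁻¹ := by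
        rw [hz]
        apply Real.rpow_le_rpow (by positivity) _ hκi
        exact div_le_div₀ (by positivity) hy2 ha0 ht1
      linarith
    have hzκ : z ^ κ i0 = y / t i0 := rpow_inv_pow hκ0 (by positivity)
    have hz6 : z ≤ max 1 (2 / a i0) * 2 ^ n := by
      have h1 : z ≤ (2 / a i0 * 2 ^ n) ^ (κ i0)⁻¹ := by
        rw [hz]
        apply Real.rpow_le_rpow (by positivity) _ hκi
        rw [div_mul_eq_mul_div]
        exact div_le_div₀ (by positivity) hy2 ha0 ht1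
      exact h1.trans (rpow_inv_le hκ0 (by positivity) (hX1 n))
    have hζ : l i0 ^ (κ i0)⁻¹ * ((2 : ℝ) ^ n) ^ (κ i0)⁻¹ ≤ z := by
      rw [← Real.mul_rpow (hl0 i0).le hX.le]; exact hzQ
    have hw := hwin' n (hnnw n hn) z hζ hz6
    set h : ℝ := c5 * z * ((2 : ℝ) ^ n) ^ (-d) with hh
    have hXd : ((2 : ℝ) ^ n) ^ (-d) ≤ 1 := Real.rpow_le_one_of_one_le_of_nonpos (hX1 n) (by linarith)
    have hXd0 : 0 < ((2 : ℝ) ^ n) ^ (-d) := by positivity
    have hh0 : 0 < h := by positivity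
    have hhz : h ≤ z := by
      calc h ≤ 1 / 2 * z * 1 := by rw [hh]; gcongr
        _ ≤ z := by linarith
    -- comparison of cardinalities
    have hcard : ((I n i0).card : ℝ) ≤ Rr i0 * z := by
      refine (J_card_le _ (by have := hQ0 n i0; have := hR i0; positivity)).trans ?_
      have := hR i0
      gcongr
    have hRpos : 0 < Rr i0 := by linarith [hR i0]
    calc cw / Rr i0 * (n : ℝ)⁻¹ ^ 1 * ((2 : ℝ) ^ n) ^ (-d) * ((I n i0).card : ℝ)
        ≤ cw / Rr i0 * (n : ℝ)⁻¹ ^ 1 * ((2 : ℝ) ^ n) ^ (-d) * (Rr i0 * z) := by gcongr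
      _ = cw * z * ((2 : ℝ) ^ n) ^ (-d) / n := by
          rw [pow_one]; field_simp
      _ ≤ ((J (P i0) z (z + h)).card : ℝ) := hw
      _ ≤ _ := by
          refine Nat.cast_le.mpr (Finset.card_le_card fun x hx => ?_)
          rw [mem_J hz0.le (by positivity)] at hx
          rw [Finset.mem_filter]
          refine ⟨?_, ?_⟩
          · simp only [hI]
            rw [mem_J (hQ0 n i0).le (by have := hQ0 n i0; positivity)]
            exact ⟨lt_of_le_of_lt hzQ hx.1, by linarith [hx.2.1], hx.2.2⟩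
          · simp only [hφ]
            have hx0 : (0 : ℝ) < x := hz0.trans hx.1
            have u1 : (0 : ℝ) ≤ (x : ℝ) ^ κ i0 - z ^ κ i0 :=
              sub_nonneg.mpr (Real.rpow_le_rpow hz0.le hx.1.le (by linarith))
            have u2 := rpow_diff_le hκ0 hz0 hx.1.le
            have u3 : t i0 * (x : ℝ) ^ κ i0 - y = t i0 * ((x : ℝ) ^ κ i0 - z ^ κ i0) := by
              rw [hzκ]; field_simp
            rw [u3, abs_of_nonneg (by positivity)]
            have u4 : (x : ℝ) ^ (κ i0 - 1) ≤ (2 * z) ^ (κ i0 - 1) :=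
              Real.rpow_le_rpow hx0.le (by linarith [hx.2.1]) (by linarith)
            have u5 : (2 * z) ^ (κ i0 - 1) * z = 2 ^ κ i0 / 2 * z ^ κ i0 := by
              rw [Real.mul_rpow (by norm_num) hz0.le, Real.rpow_sub_one (by norm_num),
                Real.rpow_sub_one hz0.ne']
              field_simp
            have u6 : (x : ℝ) - z ≤ h := by linarith [hx.2.1]
            have u7 : 0 ≤ (x : ℝ) - z := by linarith [hx.1]
            calc t i0 * ((x : ℝ) ^ κ i0 - z ^ κ i0)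
                ≤ t i0 * (κ i0 * (x : ℝ) ^ (κ i0 - 1) * ((x : ℝ) - z)) := by gcongr
              _ ≤ t i0 * (κ i0 * (2 * z) ^ (κ i0 - 1) * h) := by gcongr
              _ = t i0 * (κ i0 * ((2 * z) ^ (κ i0 - 1) * z) * (c5 * ((2 : ℝ) ^ n) ^ (-d))) := by
                  rw [hh]; ring
              _ = y * (κ i0 * (2 ^ κ i0 / 2) * c5) * ((2 : ℝ) ^ n) ^ (-d) := by
                  rw [u5, hzκ]; field_simp
              _ = y * (1 / 4) * ((2 : ℝ) ^ n) ^ (-d) := by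
                  rw [hc5]
                  field_simp
                  norm_num
              _ ≤ 2 * 2 ^ n * (1 / 4) * ((2 : ℝ) ^ n) ^ (-d) := by gcongr
              _ ≤ 2 ^ n * ((2 : ℝ) ^ n) ^ (-d) := by
                  have : 0 < (2 : ℝ) ^ n * ((2 : ℝ) ^ n) ^ (-d) := by positivity
                  linarith
              _ = ((2 : ℝ) ^ n) ^ (1 - d) := by
                  rw [sub_eq_add_neg, Real.rpow_add hX, Real.rpow_one]
  · -- the other variables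
    intro n hn i hi x hx
    have h1 := (mem_J (hQ0 n i).le (by have := hQ0 n i; have := hR i; positivity)).mp hx
    have hRi : Rr i = 3 / 2 := by simp only [hRr, hi, if_false]
    have hli : l i = 1 / ((a i + 1) * (2 : ℝ) ^ κ i * (2 * s)) := by simp only [hl, hi, if_false]
    have hai := ha i
    have ht1 := (htb i).1
    have ht2 := (htb i).2
    have hx0 : (0 : ℝ) < x := (hQ0 n i).trans h1.1
    have hκi := hκ i
    have hQκ : Q n i ^ κ i = l i * 2 ^ n :=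
      rpow_inv_pow hκi (by have := hl0 i; have := hX0 n; positivity)
    have hXn := hX0 n
    have hQn := hQ0 n i
    simp only [hφ]
    refine ⟨by have : 0 < t i := by linarith
               positivity, ?_⟩
    have h2 : (x : ℝ) ^ κ i ≤ (2 * Q n i) ^ κ i := by
      apply Real.rpow_le_rpow hx0.le _ (by linarith)
      rw [hRi] at h1
      linarith [h1.2.1]
    rw [Real.mul_rpow (by norm_num) hQn.le, hQκ, hli] at h2
    have h2κ' : (0 : ℝ) < 2 ^ κ i := by positivity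
    calc t i * (x : ℝ) ^ κ i * (2 * s) ≤ (a i + 1) * (2 ^ κ i * (1 / ((a i + 1) * (2 : ℝ) ^ κ i * (2 * s)) * 2 ^ n)) * (2 * s) := by
          gcongr
      _ = 2 ^ n := by field_simp
      _ ≤ 2 ^ n := le_rfl

theorem coef_main (P : ι → Set ℕ) (hP : ∀ i, Dense (P i)) (κ : ι → ℝ) (hκ : ∀ i, 1 ≤ κ i)
    (hsum : 2 < ∑ i, (κ i)⁻¹) :
    ∀ᵐ α : ι → ℝ, (∀ i, 0 < α i) →
      ∀ γ : ℝ, 0 ≤ γ → γ < (∑ i, (κ i)⁻¹) / 2 - 1 → ∀ ε : ℝ, 0 < ε → ∀ᶠ N : ℝ in atTop,
        Rep (fun x : ι → ℕ => ∑ i, α i * (x i : ℝ) ^ κ i) (fun x => ∀ i, x i ∈ P i ∧ 0 < x i) N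
          (N ^ (-γ)) (N ^ ((∑ i, (κ i)⁻¹) - 1 - γ - ε)) := by
  classical
  have h : ∀ a : ι → ℚ, ∀ᵐ α : ι → ℝ, (∀ i, 0 < a i) → (∀ i, (a i : ℝ) ≤ α i ∧ α i ≤ a i + 1) →
      ∀ γ : ℝ, 0 ≤ γ → γ < (∑ i, (κ i)⁻¹) / 2 - 1 → ∀ ε : ℝ, 0 < ε → ∀ᶠ N : ℝ in atTop,
        Rep (fun x : ι → ℕ => ∑ i, α i * (x i : ℝ) ^ κ i) (fun x => ∀ i, x i ∈ P i ∧ 0 < x i) N
          (N ^ (-γ)) (N ^ ((∑ i, (κ i)⁻¹) - 1 - γ - ε)) := by
    intro a
    by_cases ha : ∀ i, 0 < a i
    · have h1 := coef_box P hP κ hκ hsum (fun i => (a i : ℝ)) (fun i => by exact_mod_cast ha i)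
      have h2 : (Measure.pi fun i => U (a i : ℝ)) =
          (volume : Measure (ι → ℝ)).restrict (Set.pi Set.univ fun i => Icc (a i : ℝ) (a i + 1)) := by
        rw [volume_pi, Measure.restrict_pi_pi]; rfl
      rw [h2, ae_restrict_iff' (MeasurableSet.univ_pi fun i => measurableSet_Icc)] at h1
      filter_upwards [h1] with α hα _ hb
      exact hα fun i _ => hb i
    · exact ae_of_all _ fun α h => absurd h ha
  rw [← ae_all_iff] at h
  filter_upwards [h] with α hα hpos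
  have : ∀ i, ∃ r : ℚ, max 0 (α i - 1) < (r : ℝ) ∧ (r : ℝ) < α i := fun i =>
    exists_rat_btwn (max_lt (hpos i) (by linarith))
  choose r hr1 hr2 using this
  refine hα r (fun i => by exact_mod_cast (le_max_left _ _).trans_lt (hr1 i)) (fun i => ⟨(hr2 i).le, ?_⟩)
  have := (le_max_right 0 (α i - 1)).trans_lt (hr1 i)
  linarith

end Coef

end Pool.Agent.Q83.WG
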