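import Mathlib
import Pool.Agent.Q83.WG.L

/-!
# Generic exponents: mean squares
-/

set_option autoImplicit false

open MeasureTheory Filter Topology Set
open scoped ENNReal
open Pool.Agent.H469R2.NK (e norm_e e_add conj_e e_zero)

namespace Pool.Agent.Q83.WG

/-- mean squares over dense sets, all scales, uniformly in the exponent -/
theorem ms_scale_u (P : Set ℕ) (hP : Dense P) (p0 c2 c3 c6 R : ℝ) (hp0' : 0 < p0)
    (hc2 : 0 ≤ c2) (hc3 : 0 < c3) (hc6 : 0 < c6) (hR : 3 / 2 ≤ R) :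
    ∃ C c1 : ℝ, 1 ≤ C ∧ 0 < c1 ∧ ∃ n0 : ℕ, 1 ≤ n0 ∧ ∀ n : ℕ, n0 ≤ n → ∀ p : ℝ, p0 ≤ p → p ≤ 1 → ∀ Q : ℝ,
      c3 * ((2 : ℝ) ^ n) ^ p ≤ Q → Q ≤ c6 * 2 ^ n →
      (J P Q (R * Q)).Nonempty ∧ c1 * Q / n ≤ ((J P Q (R * Q)).card : ℝ) ∧
      ∀ (μ : Measure ℝ) [IsProbabilityMeasure μ] (ψ : ℕ → ℝ → ℝ), (∀ x, Measurable (ψ x)) →
        ∀ θ : ℝ, 0 < θ →
        (∀ x ∈ J P Q (R * Q), ∀ y ∈ J P Q (R * Q), x ≠ y →
          ‖∫ t, e (θ * ψ x t - θ * ψ y t) ∂μ‖ ≤ (c2 * Q / (θ * 2 ^ n)) / |(x : ℝ) - y|) →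
        (((2 : ℝ) ^ n)⁻¹ ≤ θ → θ ≤ 1 →
          Real.sqrt (∫ t, ‖∑ x ∈ J P Q (R * Q), e (θ * ψ x t)‖ ^ 2 ∂μ) ≤
          (C * n) * (J P Q (R * Q)).card * (θ * 2 ^ n) ^ (-(p / 2))) ∧
        (1 ≤ θ → Real.sqrt (∫ t, ‖∑ x ∈ J P Q (R * Q), e (θ * ψ x t)‖ ^ 2 ∂μ) ≤
          (C * n) * (J P Q (R * Q)).card * ((2 : ℝ) ^ n) ^ (-(p / 2))) := by
  obtain ⟨c, z0, hc, hz0, hJ⟩ := J_card_ge hP
  -- logarithms
  set c4 : ℝ := Real.log 2 + |Real.log (R * c6)| with hc4
  have hlog2 : 0 < Real.log 2 := Real.log_pos (by norm_num)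
  have hc40 : 0 < c4 := by positivity
  set c1 : ℝ := c / c4 with hc1
  have hc10 : 0 < c1 := by positivity
  set C0 : ℝ := Real.sqrt (1 / (c1 * c3) + 2 * c2 * (1 + c4) / c1) with hC0
  have hev : ∀ᶠ n : ℕ in atTop, z0 / c3 ≤ ((2 : ℝ) ^ n) ^ p0 :=
    (((tendsto_rpow_atTop hp0').comp two_pow_tendsto)).eventually_ge_atTop _
  obtain ⟨n1, hn1⟩ := eventually_atTop.mp hev
  refine ⟨max 1 C0, c1, le_max_left _ _, hc10, max n1 1, le_max_right _ _, ?_⟩
  intro n hn p hpp0 hp1 Q hQ1 hQ2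
  have hp0 : 0 < p := hp0'.trans_le hpp0
  have hnn1 : n1 ≤ n := (le_max_left _ _).trans hn
  have hn1' : 1 ≤ n := (le_max_right _ _).trans hn
  have hnpos : (0 : ℝ) < n := by exact_mod_cast hn1'
  have hnone : (1 : ℝ) ≤ n := by exact_mod_cast hn1'
  have hX1 : (1 : ℝ) ≤ 2 ^ n := one_le_pow₀ (by norm_num)
  have hX0 : (0 : ℝ) < 2 ^ n := by positivity
  have hQz : z0 ≤ Q := by
    refine le_trans ?_ hQ1
    have := hn1 n hnn1
    have hmono : ((2 : ℝ) ^ n) ^ p0 ≤ ((2 : ℝ) ^ n) ^ p := Real.rpow_le_rpow_of_exponent_le hX1 hpp0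
    rw [div_le_iff₀ hc3] at this
    nlinarith
  have hQ0 : 0 < Q := by linarith
  have hR0 : 0 < R := by linarith
  have hlogR : Real.log (R * Q) ≤ c4 * n := by
    calc Real.log (R * Q) ≤ Real.log (R * c6 * 2 ^ n) :=
          Real.log_le_log (by positivity) (by nlinarith)
      _ = Real.log (R * c6) + n * Real.log 2 := by
          rw [Real.log_mul (by positivity) (by positivity), Real.log_pow]
      _ ≤ |Real.log (R * c6)| * n + n * Real.log 2 := by
          have := le_abs_self (Real.log (R * c6))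
          have h2 := abs_nonneg (Real.log (R * c6))
          nlinarith
      _ = c4 * n := by rw [hc4]; ring
  have hlogQ0 : 0 < Real.log Q := Real.log_pos (by linarith)
  have hlogQ : Real.log Q ≤ c4 * n :=
    le_trans (Real.log_le_log hQ0 (by nlinarith)) hlogR
  have hcard : c1 * Q / n ≤ ((J P Q (R * Q)).card : ℝ) := by
    refine le_trans ?_ (hJ Q R hQz hR)
    rw [hc1, div_mul_eq_mul_div, div_div]
    exact div_le_div_of_nonneg_left (by positivity) hlogQ0 hlogQ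
  have hne : (J P Q (R * Q)).Nonempty := by
    rw [← Finset.card_pos]
    have : (0 : ℝ) < ((J P Q (R * Q)).card : ℝ) := lt_of_lt_of_le (by positivity) hcard
    exact_mod_cast this
  refine ⟨hne, hcard, ?_⟩
  intro μ _ ψ hψ θ hθ hosc
  have hRQ0 : 0 ≤ R * Q := by positivity
  have hms := ms_general μ (J P Q (R * Q)) ⌊R * Q⌋₊ (fun x t => θ * ψ x t)
    (fun x => (hψ x).const_mul θ) (c2 * Q / (θ * 2 ^ n)) (by positivity)
    (fun x hx => Nat.le_floor ((mem_J hQ0.le hRQ0).mp hx).2.1) hosc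
  have hfl1 : 1 ≤ ⌊R * Q⌋₊ := by
    apply Nat.le_floor
    push_cast
    nlinarith
  have hLg0 : 0 ≤ Real.log (⌊R * Q⌋₊ : ℝ) := Real.log_natCast_nonneg _
  have hLg : Real.log (⌊R * Q⌋₊ : ℝ) ≤ c4 * n := by
    refine le_trans (Real.log_le_log (by exact_mod_cast hfl1) (Nat.floor_le hRQ0)) hlogR
  have hfin := ms_final (2 ^ n) p θ c1 c2 c3 c4 Q (J P Q (R * Q)).card (Real.log (⌊R * Q⌋₊ : ℝ)) _ n
    hn1' hX1 hp0.le hp1 hc10 hc2 hc3 hc40.le hQ0 hθ hcard hQ1 hLg hLg0 hms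
  rw [← hC0] at hfin
  have hCn : C0 * n ≤ max 1 C0 * n := by gcongr; exact le_max_right _ _
  have hcard0 : (0 : ℝ) ≤ ((J P Q (R * Q)).card : ℝ) := Nat.cast_nonneg _
  constructor
  · intro h1 h2
    refine (hfin.1 h1 h2).trans ?_
    have : 0 ≤ (θ * 2 ^ n) ^ (-(p / 2)) := by positivity
    gcongr
  · intro h1
    refine (hfin.2 h1).trans ?_
    have : 0 ≤ ((2 : ℝ) ^ n) ^ (-(p / 2)) := by positivity
    gcongr

/-- first derivative test -/
lemma first_deriv (g g' g'' : ℝ → ℝ) (hg : ∀ u, HasDerivAt g (g' u) u)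
    (hg' : ∀ u, HasDerivAt g' (g'' u) u) (hc : Continuous g'') (h0 : 0 < g' 0)
    (h2 : ∀ u ∈ Icc (0 : ℝ) 1, 0 ≤ g'' u) :
    ‖∫ u in (0 : ℝ)..1, e (g u)‖ ≤ 1 / (Real.pi * g' 0) := by
  have hπ := Real.pi_pos
  have hcg' : Continuous g' := continuous_iff_continuousAt.mpr fun u => (hg' u).continuousAt
  have hcg : Continuous g := continuous_iff_continuousAt.mpr fun u => (hg u).continuousAt
  -- positivity of g' on [0,1]
  have hmono : MonotoneOn g' (Icc 0 1) := by
    refine monotoneOn_of_deriv_nonneg (convex_Icc 0 1) hcg'.continuousOn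
      (fun u _ => (hg' u).differentiableAt.differentiableWithinAt) ?_
    intro u hu
    rw [interior_Icc] at hu
    rw [(hg' u).deriv]
    exact h2 u (Ioo_subset_Icc_self hu)
  have hpos : ∀ u ∈ Icc (0 : ℝ) 1, 0 < g' u := fun u hu =>
    h0.trans_le (hmono (left_mem_Icc.mpr zero_le_one) hu hu.1)
  have huIcc : uIcc (0 : ℝ) 1 = Icc 0 1 := uIcc_of_le zero_le_one
  set w : ℝ → ℂ := fun u => (((2 * Real.pi * g' u)⁻¹ : ℝ) : ℂ) * (-Complex.I) with hw
  set v : ℝ → ℂ := fun u => e (g u) with hv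
  have hvd : ∀ u, HasDerivAt v (((2 * Real.pi * g' u : ℝ) : ℂ) * Complex.I * e (g u)) u := by
    intro u
    have h1 : HasDerivAt (fun u => ((2 * Real.pi * g u : ℝ) : ℂ) * Complex.I)
        (((2 * Real.pi * g' u : ℝ) : ℂ) * Complex.I) u :=
      (((hg u).const_mul (2 * Real.pi)).ofReal_comp).mul_const _
    have h3 := h1.cexp
    have e1 : v = fun u => Complex.exp (((2 * Real.pi * g u : ℝ) : ℂ) * Complex.I) := by
      funext u
      simp only [hv, Pool.Agent.H469R2.NK.e]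
    have e2 : ((2 * Real.pi * g' u : ℝ) : ℂ) * Complex.I * e (g u) =
        Complex.exp (((2 * Real.pi * g u : ℝ) : ℂ) * Complex.I) *
          (((2 * Real.pi * g' u : ℝ) : ℂ) * Complex.I) := by
      have := congrFun e1 u
      simp only [hv] at this
      rw [this]
      ring
    rw [e2, e1]
    exact h3
  have hwd : ∀ u ∈ Icc (0 : ℝ) 1, HasDerivAt w
      (((-(g'' u) / (2 * Real.pi * (g' u) ^ 2) : ℝ) : ℂ) * (-Complex.I)) u := by
    intro u hu
    have hp := hpos u hu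
    have h1 : HasDerivAt (fun u => (2 * Real.pi * g' u)⁻¹) (-(g'' u) / (2 * Real.pi * (g' u) ^ 2)) u := by
      have := ((hg' u).const_mul (2 * Real.pi)).inv (by positivity)
      rw [show -(g'' u) / (2 * Real.pi * (g' u) ^ 2) = -(2 * Real.pi * g'' u) / (2 * Real.pi * g' u) ^ 2 from by
        field_simp]
      exact this
    exact (h1.ofReal_comp).mul_const _
  have key : ∫ u in (0 : ℝ)..1, e (g u) =
      w 1 * v 1 - w 0 * v 0 - ∫ u in (0 : ℝ)..1,
        (((-(g'' u) / (2 * Real.pi * (g' u) ^ 2) : ℝ) : ℂ) * (-Complex.I)) * v u := by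
    rw [← intervalIntegral.integral_mul_deriv_eq_deriv_mul (u := w) (v := v)
      (v' := fun u => ((2 * Real.pi * g' u : ℝ) : ℂ) * Complex.I * e (g u))]
    · refine intervalIntegral.integral_congr fun u hu => ?_
      rw [huIcc] at hu
      have hp := (hpos u hu).ne'
      have hπ' : (Real.pi : ℂ) ≠ 0 := by exact_mod_cast hπ.ne'
      have hp' : (g' u : ℂ) ≠ 0 := by exact_mod_cast hp
      simp only [hw]
      push_cast
      have hI : Complex.I * Complex.I = -1 := Complex.I_mul_I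
      field_simp
      linear_combination (e (g u)) * hI
    · intro u hu
      rw [huIcc] at hu
      exact hwd u hu
    · intro u _
      exact hvd u
    · refine ContinuousOn.intervalIntegrable ?_
      rw [huIcc]
      refine ContinuousOn.mul ?_ continuousOn_const
      refine Complex.continuous_ofReal.comp_continuousOn ?_
      refine ContinuousOn.div hc.neg.continuousOn (by fun_prop) ?_
      intro u hu
      have := hpos u hu
      positivity
    · refine Continuous.intervalIntegrable ?_ _ _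
      exact ((Complex.continuous_ofReal.comp (by fun_prop)).mul continuous_const).mul
        (continuous_e.comp hcg)
  rw [key]
  have n1 : ∀ u ∈ Icc (0 : ℝ) 1, ‖w u * v u‖ = (2 * Real.pi * g' u)⁻¹ := by
    intro u hu
    have := hpos u hu
    simp only [hw, hv, norm_mul, norm_neg, Complex.norm_I, norm_e, mul_one, Complex.norm_real]
    rw [Real.norm_of_nonneg (by positivity)]
  have n2 : ‖∫ u in (0 : ℝ)..1, (((-(g'' u) / (2 * Real.pi * (g' u) ^ 2) : ℝ) : ℂ) * (-Complex.I)) * v u‖ ≤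
      (2 * Real.pi * g' 0)⁻¹ - (2 * Real.pi * g' 1)⁻¹ := by
    have hcont : ContinuousOn (fun u => -(g'' u) / (2 * Real.pi * (g' u) ^ 2)) (Icc 0 1) := by
      refine ContinuousOn.div hc.neg.continuousOn (by fun_prop) ?_
      intro u hu
      have := hpos u hu
      positivity
    have h3 : ∫ u in (0 : ℝ)..1, -(g'' u) / (2 * Real.pi * (g' u) ^ 2) =
        (2 * Real.pi * g' 1)⁻¹ - (2 * Real.pi * g' 0)⁻¹ := by
      refine intervalIntegral.integral_eq_sub_of_hasDerivAt (f := fun u => (2 * Real.pi * g' u)⁻¹) ?_ ?_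
      · intro u hu
        rw [huIcc] at hu
        have hp := hpos u hu
        have := ((hg' u).const_mul (2 * Real.pi)).inv (by positivity)
        rw [show -(g'' u) / (2 * Real.pi * (g' u) ^ 2) = -(2 * Real.pi * g'' u) / (2 * Real.pi * g' u) ^ 2 from by
          field_simp]
        exact this
      · refine ContinuousOn.intervalIntegrable ?_
        rw [huIcc]
        exact hcont
    have h4 : (2 * Real.pi * g' 0)⁻¹ - (2 * Real.pi * g' 1)⁻¹ =
        ∫ u in (0 : ℝ)..1, g'' u / (2 * Real.pi * (g' u) ^ 2) := by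
      have : ∫ u in (0 : ℝ)..1, g'' u / (2 * Real.pi * (g' u) ^ 2) =
          - ∫ u in (0 : ℝ)..1, -(g'' u) / (2 * Real.pi * (g' u) ^ 2) := by
        rw [← intervalIntegral.integral_neg]
        refine intervalIntegral.integral_congr fun u _ => ?_
        show g'' u / (2 * Real.pi * (g' u) ^ 2) = -(-(g'' u) / (2 * Real.pi * (g' u) ^ 2))
        ring
      rw [this, h3]
      ring
    rw [h4]
    refine intervalIntegral.norm_integral_le_of_norm_le zero_le_one ?_ ?_
    · refine (ae_of_all _ fun u hu => ?_)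
      have hu' : u ∈ Icc (0 : ℝ) 1 := ⟨hu.1.le, hu.2⟩
      have hp := hpos u hu'
      have hq := h2 u hu'
      simp only [hv, norm_mul, norm_neg, Complex.norm_I, norm_e, mul_one, Complex.norm_real]
      rw [Real.norm_eq_abs, neg_div, abs_neg, abs_of_nonneg (by positivity)]
    · refine ContinuousOn.intervalIntegrable ?_
      rw [huIcc]
      have := hcont.neg
      refine this.congr fun u _ => ?_
      show g'' u / (2 * Real.pi * (g' u) ^ 2) = -(-(g'' u) / (2 * Real.pi * (g' u) ^ 2))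
      ring
  have m1 := n1 1 (right_mem_Icc.mpr zero_le_one)
  have m0 := n1 0 (left_mem_Icc.mpr zero_le_one)
  have t1 := norm_sub_le (w 1 * v 1 - w 0 * v 0) (∫ u in (0 : ℝ)..1,
        (((-(g'' u) / (2 * Real.pi * (g' u) ^ 2) : ℝ) : ℂ) * (-Complex.I)) * v u)
  have t2 := norm_sub_le (w 1 * v 1) (w 0 * v 0)
  have e2 : 1 / (Real.pi * g' 0) = (2 * Real.pi * g' 0)⁻¹ + (2 * Real.pi * g' 0)⁻¹ := by
    field_simp
    norm_num
  rw [e2]
  linarith

end Pool.Agent.Q83.WG
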