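import Mathlib
import Pool.Agent.Q83.WG.EB

/-!
# Generic exponents: one scale
-/

set_option autoImplicit false
set_option linter.unusedSectionVars false

open MeasureTheory Filter Topology Set
open scoped ENNReal Pointwise
open Pool.Agent.H469R2.NK (e norm_e e_add conj_e e_zero)

namespace Pool.Agent.Q83.WG

variable {ι : Type*} [Fintype ι] [DecidableEq ι]

/-- one scale: from a small error to many solutions -/
theorem good_one (φ : ι → ℕ → ℝ → ℝ) (I : ι → Finset ℕ) (n : ℕ) (d γ c : ℝ) (b : ℕ) (i0 : ι)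
    (hd1 : d ≤ 1) (hγ : 0 ≤ γ) (hc : 0 < c) (t : ι → ℝ) (hn1 : 1 ≤ n)
    (htail : Real.exp (-(Real.pi * (n : ℝ) ^ 2)) ≤
      c / (4 * Real.exp Real.pi) * (n : ℝ)⁻¹ ^ b * ((2 : ℝ) ^ n) ^ (-(1 + γ)))
    (h0 : (I i0).Nonempty)
    (h3 : ∀ y : ℝ, (2 : ℝ) ^ n / 2 ≤ y → y ≤ 2 * (2 : ℝ) ^ n →
      c * (n : ℝ)⁻¹ ^ b * ((2 : ℝ) ^ n) ^ (-d) * ((I i0).card : ℝ) ≤
      (((I i0).filter fun x => |φ i0 x (t i0) - y| ≤ ((2 : ℝ) ^ n) ^ (1 - d)).card : ℝ))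
    (h4 : ∀ i, i ≠ i0 → ∀ x ∈ I i, 0 ≤ φ i x (t i) ∧
      φ i x (t i) * (2 * Fintype.card ι) ≤ (2 : ℝ) ^ n)
    (h5 : t ∉ Bad φ I ((2 : ℝ) ^ n) d γ (c * (n : ℝ)⁻¹ ^ b / (2 * Real.exp Real.pi)))
    (N : ℝ) (hN1 : (2 : ℝ) ^ n ≤ N) (hN2 : N ≤ 2 * (2 : ℝ) ^ n) :
    Rep (fun x => ∑ i, φ i (x i) (t i)) (fun x => ∀ i, x i ∈ I i) N (n * ((2 : ℝ) ^ n) ^ (-γ))
      (c / (4 * Real.exp Real.pi) * (n : ℝ)⁻¹ ^ b * ((2 : ℝ) ^ n) ^ (-(1 + γ)) *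
        ∏ i, ((I i).card : ℝ)) := by
  have hcc : 0 < c / (4 * Real.exp Real.pi) := by positivity
  have hnpos : (0 : ℝ) < n := by exact_mod_cast hn1
  have hX : (1 : ℝ) ≤ 2 ^ n := one_le_pow₀ (by norm_num)
  have hX0 : (0 : ℝ) < 2 ^ n := by positivity
  have hbad : Err I φ ((2 : ℝ) ^ n) d γ t ≤
      ENNReal.ofReal (c * (n : ℝ)⁻¹ ^ b / (2 * Real.exp Real.pi) * (∏ i, ((I i).card : ℝ)) / 2 ^ n) := by
    have : ¬ (ENNReal.ofReal (c * (n : ℝ)⁻¹ ^ b / (2 * Real.exp Real.pi) *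
      (∏ i, ((I i).card : ℝ)) / 2 ^ n) ≤ Err I φ ((2 : ℝ) ^ n) d γ t) := h5
    exact (not_le.mp this).le
  have key := count_scale I φ ((2 : ℝ) ^ n) d γ (c * (n : ℝ)⁻¹ ^ b / (2 * Real.exp Real.pi)) i0 hX hd1 hγ
    (by positivity) t N (n * ((2 : ℝ) ^ n) ^ (-γ)) (by positivity) hN1 hN2 h0 (by
      intro y hy1 hy2
      refine le_trans (le_of_eq ?_) (h3 y hy1 hy2)
      have := (Real.exp_pos Real.pi).ne'
      field_simp) h4 hbad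
  refine ⟨(Fintype.piFinset I).filter fun x => |∑ i, φ i (x i) (t i) - N| ≤ n * ((2 : ℝ) ^ n) ^ (-γ),
    le_trans ?_ key, ?_⟩
  · have hM : 0 ≤ ∏ i, ((I i).card : ℝ) := Finset.prod_nonneg fun i _ => Nat.cast_nonneg _
    have e1 : n * ((2 : ℝ) ^ n) ^ (-γ) / ((2 : ℝ) ^ n) ^ (-γ) = n := by
      have : ((2 : ℝ) ^ n) ^ (-γ) ≠ 0 := (Real.rpow_pos_of_pos hX0 _).ne'
      field_simp
    rw [e1]
    have e2 : ((2 : ℝ) ^ n) ^ (-(1 + γ)) = ((2 : ℝ) ^ n) ^ (-γ) / 2 ^ n := by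
      rw [neg_add, add_comm, Real.rpow_add hX0, Real.rpow_neg_one, div_eq_mul_inv]
    rw [e2] at htail ⊢
    have h6 := mul_le_mul_of_nonneg_left htail hM
    have e3 : ((2 : ℝ) ^ n) ^ (-γ) * (c * (n : ℝ)⁻¹ ^ b / (2 * Real.exp Real.pi) *
        (∏ i, ((I i).card : ℝ)) / 2 ^ n) =
        2 * (c / (4 * Real.exp Real.pi) * (n : ℝ)⁻¹ ^ b * (((2 : ℝ) ^ n) ^ (-γ) / 2 ^ n) *
          ∏ i, ((I i).card : ℝ)) := by
      generalize ((2 : ℝ) ^ n) ^ (-γ) = Y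
      generalize (∏ i, ((I i).card : ℝ)) = Q
      generalize Real.exp Real.pi = Z
      ring
    rw [e3]
    linarith
  · intro x hx
    rw [Finset.mem_filter, Fintype.mem_piFinset] at hx
    exact hx

/-- volume of a small affine copy -/
lemma vol_affine (c : ι → ℝ) (h : ℝ) (hh : 0 < h) (E : Set (ι → ℝ)) :
    volume {t : ι → ℝ | ∃ u : ι → ℝ, (∀ i, u i ∈ Icc (0 : ℝ) 1) ∧ u ∈ E ∧ t = fun i => c i + u i * h} ≤
      ENNReal.ofReal (h ^ Fintype.card ι) * (Measure.pi fun _ : ι => U 0) E := by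
  have hbox : (Measure.pi fun _ : ι => U 0) =
      (volume : Measure (ι → ℝ)).restrict (Set.pi Set.univ fun _ => Icc (0 : ℝ) (0 + 1)) := by
    rw [volume_pi, Measure.restrict_pi_pi]; rfl
  rw [hbox, Measure.restrict_apply' (MeasurableSet.univ_pi fun _ => measurableSet_Icc)]
  have hsub : {t : ι → ℝ | ∃ u : ι → ℝ, (∀ i, u i ∈ Icc (0 : ℝ) 1) ∧ u ∈ E ∧ t = fun i => c i + u i * h} ⊆
      (fun x => c + x) '' (h • (E ∩ Set.pi Set.univ fun _ => Icc (0 : ℝ) (0 + 1))) := by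
    rintro t ⟨u, hu, huE, rfl⟩
    refine ⟨h • u, ⟨u, ⟨huE, fun i _ => ?_⟩, rfl⟩, ?_⟩
    · have := hu i
      show u i ∈ Icc (0 : ℝ) (0 + 1)
      rwa [zero_add]
    · funext i
      simp [mul_comm]
  refine (measure_mono hsub).trans (le_of_eq ?_)
  rw [Set.image_add_left, measure_preimage_add, Measure.addHaar_smul, Module.finrank_fintype_fun_eq_card,
    abs_of_nonneg (by positivity)]

end Pool.Agent.Q83.WG
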