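import Mathlib
import Pool.Agent.Q83.WG.F
import Pool.Agent.Helper76.HPlanch

/-!
# Almost all targets: square mean over the targets
-/

set_option autoImplicit false
set_option linter.unusedSectionVars false

open MeasureTheory Filter Topology Set FourierTransform
open scoped ENNReal
open Pool.Agent.H469R2.NK (e norm_e e_add conj_e e_zero)

namespace Pool.Agent.Q83.WG

/-- the weight, cut off at low frequencies -/
noncomputable def wlo (δ H T θ : ℝ) : ℝ := if |θ| ≤ T then gw δ θ - gw H θ else 0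

/-- the weight, cut off at high frequencies -/
noncomputable def whi (δ H T θ : ℝ) : ℝ := if |θ| ≤ T then 0 else gw δ θ - gw H θ

lemma wlo_add_whi (δ H T θ : ℝ) : wlo δ H T θ + whi δ H T θ = gw δ θ - gw H θ := by
  unfold wlo whi; split_ifs <;> ring

lemma meas_le_set (T : ℝ) : MeasurableSet {θ : ℝ | |θ| ≤ T} :=
  measurableSet_le (continuous_abs.measurable) measurable_const

lemma wlo_meas (δ H T : ℝ) : Measurable (wlo δ H T) :=
  Measurable.ite (meas_le_set T) ((gw_cont δ).measurable.sub (gw_cont H).measurable) measurable_const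

lemma whi_meas (δ H T : ℝ) : Measurable (whi δ H T) :=
  Measurable.ite (meas_le_set T) measurable_const ((gw_cont δ).measurable.sub (gw_cont H).measurable)

lemma gw_sub_nonneg {δ H : ℝ} (hδ : 0 < δ) (hH : δ ≤ H) (θ : ℝ) : 0 ≤ gw δ θ - gw H θ := by
  rw [sub_nonneg]
  unfold gw
  apply Real.exp_le_exp.mpr
  have : (δ * θ) ^ 2 ≤ (H * θ) ^ 2 := by
    rw [mul_pow, mul_pow]
    gcongr
  nlinarith [Real.pi_pos]

lemma wlo_nonneg {δ H : ℝ} (hδ : 0 < δ) (hH : δ ≤ H) (T θ : ℝ) : 0 ≤ wlo δ H T θ := by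
  unfold wlo; split_ifs
  · exact gw_sub_nonneg hδ hH θ
  · exact le_rfl

lemma whi_nonneg {δ H : ℝ} (hδ : 0 < δ) (hH : δ ≤ H) (T θ : ℝ) : 0 ≤ whi δ H T θ := by
  unfold whi; split_ifs
  · exact le_rfl
  · exact gw_sub_nonneg hδ hH θ

lemma whi_le (δ H T θ : ℝ) : whi δ H T θ ≤ gw δ θ := by
  unfold whi; split_ifs
  · exact (gw_pos δ θ).le
  · have := gw_pos H θ; linarith

lemma wlo_le {δ H : ℝ} (T θ : ℝ) : wlo δ H T θ ≤ gw δ θ := by
  unfold wlo; split_ifs
  · have := gw_pos H θ; linarith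
  · exact (gw_pos δ θ).le

section Sums

variable {ι : Type*} (T : Finset ι) (S : ι → ℝ)

/-- the high frequency part, in frequency space -/
noncomputable def hh (δ H Tc : ℝ) (θ : ℝ) : ℂ := (∑ x ∈ T, e (θ * S x)) * ((whi δ H Tc θ : ℝ) : ℂ)

lemma sum_e_cont : Continuous fun θ : ℝ => ∑ x ∈ T, e (θ * S x) :=
  continuous_finsetSum _ fun x _ => continuous_e.comp (by fun_prop)

lemma sum_e_le (θ : ℝ) : ‖∑ x ∈ T, e (θ * S x)‖ ≤ T.card := by
  refine (norm_sum_le _ _).trans ?_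
  simp [norm_e]

lemma hh_norm_le {δ H : ℝ} (hδ : 0 < δ) (hH : δ ≤ H) (Tc θ : ℝ) :
    ‖hh T S δ H Tc θ‖ ≤ T.card * gw δ θ := by
  unfold hh
  rw [norm_mul, Complex.norm_real, Real.norm_of_nonneg (whi_nonneg hδ hH Tc θ)]
  exact mul_le_mul (sum_e_le T S θ) (whi_le δ H Tc θ) (whi_nonneg hδ hH Tc θ) (Nat.cast_nonneg _)

lemma hh_meas (δ H Tc : ℝ) : Measurable (hh T S δ H Tc) := by
  unfold hh
  exact (sum_e_cont T S).measurable.mul (Complex.measurable_ofReal.comp (whi_meas δ H Tc))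

lemma hh_integrable {δ H : ℝ} (hδ : 0 < δ) (hH : δ ≤ H) (Tc : ℝ) : Integrable (hh T S δ H Tc) := by
  refine ((gw_integrable hδ).const_mul (T.card : ℝ)).mono' (hh_meas T S δ H Tc).aestronglyMeasurable ?_
  exact ae_of_all _ fun θ => hh_norm_le T S hδ hH Tc θ

lemma hh_memLp {δ H : ℝ} (hδ : 0 < δ) (hH : δ ≤ H) (Tc : ℝ) : MemLp (hh T S δ H Tc) 2 := by
  refine (memLp_two_iff_integrable_sq_norm (hh_meas T S δ H Tc).aestronglyMeasurable).mpr ?_
  refine ((gw_integrable hδ).const_mul ((T.card : ℝ) ^ 2)).mono'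
    ((hh_meas T S δ H Tc).norm.pow_const 2).aestronglyMeasurable (ae_of_all _ fun θ => ?_)
  rw [norm_pow, norm_norm]
  calc ‖hh T S δ H Tc θ‖ ^ 2 ≤ (T.card * gw δ θ) ^ 2 :=
        pow_le_pow_left₀ (norm_nonneg _) (hh_norm_le T S hδ hH Tc θ) 2
    _ = (T.card : ℝ) ^ 2 * (gw δ θ * gw δ θ) := by ring
    _ ≤ (T.card : ℝ) ^ 2 * (gw δ θ * 1) := by
        have := gw_pos δ θ
        have := gw_le_one δ θ
        gcongr
    _ = _ := by ring

/-- Comparison of the two smoothings, split at frequency `Tc`. -/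
lemma sum_G_sub_le_split {δ H : ℝ} (hδ : 0 < δ) (hH : δ ≤ H) (Tc N : ℝ) :
    ENNReal.ofReal |∑ x ∈ T, G δ (S x - N) - ∑ x ∈ T, G H (S x - N)| ≤
      (∫⁻ θ : ℝ, ‖∑ x ∈ T, e (θ * S x)‖ₑ * ENNReal.ofReal (wlo δ H Tc θ)) +
      ‖𝓕 (hh T S δ H Tc) N‖ₑ := by
  have hH0 : 0 < H := hδ.trans_le hH
  have hint : ∀ r : ℝ, 0 < r → Integrable fun θ : ℝ =>
      (∑ x ∈ T, e (θ * S x)) * e (-(θ * N)) * ((gw r θ : ℝ) : ℂ) := by
    intro r hr
    refine (gw_integrable hr).ofReal.bdd_mul (c := T.card) ?_ (ae_of_all _ fun θ => ?_)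
    · refine Continuous.aestronglyMeasurable ?_
      exact (sum_e_cont T S).mul (continuous_e.comp (by fun_prop))
    · rw [norm_mul, norm_e, mul_one]
      exact sum_e_le T S θ
  have hintlo : Integrable fun θ : ℝ =>
      (∑ x ∈ T, e (θ * S x)) * e (-(θ * N)) * ((wlo δ H Tc θ : ℝ) : ℂ) := by
    refine ((gw_integrable hδ).const_mul (T.card : ℝ)).mono' ?_ (ae_of_all _ fun θ => ?_)
    · refine Measurable.aestronglyMeasurable ?_
      exact (((sum_e_cont T S).mul (continuous_e.comp (by fun_prop))).measurable).mul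
        (Complex.measurable_ofReal.comp (wlo_meas δ H Tc))
    · rw [norm_mul, norm_mul, norm_e, mul_one, Complex.norm_real,
        Real.norm_of_nonneg (wlo_nonneg hδ hH Tc θ)]
      exact mul_le_mul (sum_e_le T S θ) (wlo_le Tc θ) (wlo_nonneg hδ hH Tc θ) (Nat.cast_nonneg _)
  have hinthi : Integrable fun θ : ℝ => e (-(θ * N)) * hh T S δ H Tc θ := by
    refine (hh_integrable T S hδ hH Tc).bdd_mul (c := 1) ?_ (ae_of_all _ fun θ => (norm_e _).le)
    exact (continuous_e.comp (by fun_prop)).aestronglyMeasurable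
  have h1 : ((∑ x ∈ T, G δ (S x - N) - ∑ x ∈ T, G H (S x - N) : ℝ) : ℂ) =
      (∫ θ : ℝ, (∑ x ∈ T, e (θ * S x)) * e (-(θ * N)) * ((wlo δ H Tc θ : ℝ) : ℂ)) +
      𝓕 (hh T S δ H Tc) N := by
    rw [Complex.ofReal_sub, sum_G_eq T S hδ, sum_G_eq T S hH0, ← integral_sub (hint δ hδ) (hint H hH0)]
    have h2 : 𝓕 (hh T S δ H Tc) N = ∫ θ : ℝ, e (-(θ * N)) * hh T S δ H Tc θ := by
      rw [Real.fourier_real_eq_integral_exp_smul]
      refine integral_congr_ae (ae_of_all _ fun θ => ?_)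
      simp only [smul_eq_mul, Pool.Agent.H469R2.NK.e]
      congr 2
      push_cast
      ring
    rw [h2, ← integral_add hintlo hinthi]
    refine integral_congr_ae (ae_of_all _ fun θ => ?_)
    simp only
    have h3 : ((gw δ θ : ℝ) : ℂ) - ((gw H θ : ℝ) : ℂ) = ((wlo δ H Tc θ : ℝ) : ℂ) + ((whi δ H Tc θ : ℝ) : ℂ) := by
      rw [← Complex.ofReal_sub, ← Complex.ofReal_add, wlo_add_whi]
    unfold hh
    linear_combination (∑ x ∈ T, e (θ * S x)) * e (-(θ * N)) * h3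
  rw [← Real.norm_eq_abs, ← Complex.norm_real, h1, ofReal_norm]
  refine (enorm_add_le _ _).trans (add_le_add ?_ le_rfl)
  refine (enorm_integral_le_lintegral_enorm _).trans ?_
  refine lintegral_mono fun θ => ?_
  rw [enorm_mul, enorm_mul]
  have h2 : ‖e (-(θ * N))‖ₑ = 1 := by rw [← ofReal_norm, norm_e]; simp
  rw [h2, mul_one]
  gcongr
  rw [← ofReal_norm, Complex.norm_real, Real.norm_of_nonneg (wlo_nonneg hδ hH Tc θ)]

/-- few targets have a large high frequency part -/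
lemma few_large {δ H : ℝ} (hδ : 0 < δ) (hH : δ ≤ H) (Tc D : ℝ) (hD : 0 < D) :
    volume {N : ℝ | ENNReal.ofReal D ≤ ‖𝓕 (hh T S δ H Tc) N‖ₑ} ≤
      (∫⁻ θ : ℝ, (‖∑ x ∈ T, e (θ * S x)‖ₑ * ENNReal.ofReal (whi δ H Tc θ)) ^ 2) /
        ENNReal.ofReal (D ^ 2) := by
  have hint := hh_integrable T S hδ hH Tc
  have h1 := Pool.Agent.Helper76.NormalHP.plancherel_lintegral (hh T S δ H Tc) hint
    (hh_memLp T S hδ hH Tc)
  have hcont : Continuous (𝓕 (hh T S δ H Tc)) :=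
    VectorFourier.fourierIntegral_continuous Real.continuous_fourierChar
      (innerSL ℝ).continuous₂ hint
  have h2 : {N : ℝ | ENNReal.ofReal D ≤ ‖𝓕 (hh T S δ H Tc) N‖ₑ} ⊆
      {N : ℝ | ENNReal.ofReal (D ^ 2) ≤ ‖𝓕 (hh T S δ H Tc) N‖ₑ ^ 2} := by
    intro N hN
    simp only [mem_ofPred_eq] at hN ⊢
    rw [ENNReal.ofReal_pow hD.le]
    exact pow_le_pow_left' hN 2
  refine (measure_mono h2).trans ?_
  refine (meas_ge_le_lintegral_div (hcont.measurable.enorm.pow_const 2).aemeasurable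
    (by simpa using hD.ne') ENNReal.ofReal_ne_top).trans ?_
  rw [h1]
  refine ENNReal.div_le_div_right (le_of_eq ?_) _
  refine lintegral_congr fun θ => ?_
  congr 1
  unfold hh
  rw [enorm_mul]
  congr 1
  rw [← ofReal_norm, Complex.norm_real, Real.norm_of_nonneg (whi_nonneg hδ hH Tc θ)]

end Sums

end Pool.Agent.Q83.WG
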