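import Mathlib
import Pool.Agent.Q83.WG.M
import Pool.Agent.Q83.WG.K

/-!
# Expectations of the two parts
-/

set_option autoImplicit false
set_option linter.unusedSectionVars false

open MeasureTheory Filter Topology Set
open scoped ENNReal
open Pool.Agent.H469R2.NK (e norm_e e_add conj_e e_zero)

namespace Pool.Agent.Q83.WG

section Exp

variable {ι : Type*} [Fintype ι] [DecidableEq ι] (μ : ι → Measure ℝ) [∀ i, IsProbabilityMeasure (μ i)]
  (I : ι → Finset ℕ) (φ : ι → ℕ → ℝ → ℝ)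

variable {φ} in
/-- Tonelli for the square. -/
theorem expect_sq_le (hφ : ∀ i x, Measurable (φ i x)) (w : ℝ → ℝ) (hw : Measurable w) :
    ∫⁻ t, (∫⁻ θ, (‖F I φ θ t‖ₑ * ENNReal.ofReal (w θ)) ^ 2) ∂(Measure.pi μ) ≤
      ∫⁻ θ, ENNReal.ofReal (∏ i, A μ I φ i θ) * ENNReal.ofReal (w θ) ^ 2 := by
  rw [lintegral_lintegral_swap]
  · refine lintegral_mono fun θ => ?_
    have hm : Measurable fun t => ‖F I φ θ t‖ₑ ^ 2 :=
      ((F_meas I hφ).comp (measurable_id.prodMk measurable_const)).enorm.pow_const 2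
    simp_rw [mul_pow]
    rw [lintegral_mul_const _ hm]
    gcongr
    have hmeas : Measurable fun t => F I φ θ t :=
      (F_meas I hφ).comp (measurable_id.prodMk measurable_const)
    have h2 : ∫⁻ t, ‖F I φ θ t‖ₑ ^ 2 ∂(Measure.pi μ) =
        ENNReal.ofReal (∫ t, ‖F I φ θ t‖ ^ 2 ∂(Measure.pi μ)) := by
      rw [ofReal_integral_eq_lintegral_ofReal]
      · refine lintegral_congr fun t => ?_
        rw [ENNReal.ofReal_pow (norm_nonneg _), ofReal_norm]
      · refine Integrable.of_bound (hmeas.norm.pow_const 2).aestronglyMeasurable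
          (C := ((Fintype.piFinset I).card : ℝ) ^ 2) (ae_of_all _ fun t => ?_)
        rw [norm_pow, norm_norm]
        refine pow_le_pow_left₀ (norm_nonneg _) ?_ 2
        unfold F
        refine (norm_sum_le _ _).trans ?_
        simp [norm_e]
      · exact ae_of_all _ fun t => by positivity
    rw [h2]
    apply ENNReal.ofReal_le_ofReal
    have h1 : ∀ t, ‖F I φ θ t‖ ^ 2 = ∏ i, ‖f I φ i θ (t i)‖ ^ 2 := by
      intro t; rw [F_eq, norm_prod, Finset.prod_pow]
    simp_rw [h1]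
    rw [integral_fintype_prod_eq_prod (μ := μ) (fun i t => ‖f I φ i θ t‖ ^ 2)]
    exact le_rfl
  · refine Measurable.aemeasurable ?_
    exact (((F_meas I hφ).enorm).mul (hw.comp measurable_snd).ennreal_ofReal).pow_const 2

/-- the low frequency integral -/
theorem low_bound (hφ : ∀ i x, Measurable (φ i x)) (X U T H δ K η : ℝ) (p : ι → ℝ)
    (hX : 1 ≤ X) (hU : 0 < U) (hδ : 0 < δ) (hH : δ ≤ H) (hK : 0 ≤ K)
    (hη : 0 < η) (hp : ∑ i, p i = 2 * (1 + η))
    (h1 : ∀ i, ∀ θ : ℝ, U ≤ θ → θ ≤ T → Real.sqrt (A μ I φ i θ) ≤ K * (I i).card * (θ * X) ^ (-(p i / 2))) :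
    ∫⁻ θ, ENNReal.ofReal (∏ i, Real.sqrt (A μ I φ i θ)) * ENNReal.ofReal (wlo δ H T θ) ≤
      ENNReal.ofReal (2 * ((∏ i, ((I i).card : ℝ)) * (Real.pi * H ^ 2 * U ^ 3 +
        K ^ Fintype.card ι * X ^ (-(1 + η)) * (U ^ (-η) / η)))) := by
  classical
  have hX0 : 0 < X := lt_of_lt_of_le one_pos hX
  obtain ⟨M, hM⟩ : ∃ M : ℝ, M = ∏ i, ((I i).card : ℝ) := ⟨_, rfl⟩
  have hM0 : 0 ≤ M := by rw [hM]; exact Finset.prod_nonneg fun i _ => Nat.cast_nonneg _
  obtain ⟨Ks, hKs⟩ : ∃ Ks : ℝ, Ks = K ^ Fintype.card ι := ⟨_, rfl⟩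
  have hKs0 : 0 ≤ Ks := by rw [hKs]; exact pow_nonneg hK _
  rw [← hM, ← hKs]
  set P : ℝ → ℝ := fun θ => ∏ i, Real.sqrt (A μ I φ i θ) with hP
  have hP0 : ∀ θ, 0 ≤ P θ := fun θ => Finset.prod_nonneg fun i _ => Real.sqrt_nonneg _
  have hPM : ∀ θ, P θ ≤ M := fun θ => by
    rw [hM]
    exact Finset.prod_le_prod (fun i _ => Real.sqrt_nonneg _) fun i _ => A_le μ I φ hφ i θ
  have hprod : ∀ y : ℝ, 0 < y → ∏ i, (K * ((I i).card : ℝ) * y ^ (-(p i / 2))) =
      Ks * M * y ^ (-(1 + η)) := by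
    intro y hy
    rw [Finset.prod_mul_distrib, Finset.prod_mul_distrib, Finset.prod_const, Finset.card_univ,
      ← Real.rpow_sum_of_pos hy, ← hM, ← hKs]
    congr 2
    rw [Finset.sum_neg_distrib, ← Finset.sum_div, hp]
    ring
  have hP1 : ∀ θ, U ≤ θ → θ ≤ T → P θ ≤ Ks * M * (θ * X) ^ (-(1 + η)) := by
    intro θ ha hb
    rw [← hprod _ (by have := hU.trans_le ha; positivity)]
    exact Finset.prod_le_prod (fun i _ => Real.sqrt_nonneg _) fun i _ => h1 i θ ha hb
  have hw1 : ∀ θ, gw δ θ - gw H θ ≤ Real.pi * (H * θ) ^ 2 := by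
    intro θ
    have a1 := gw_le_one δ θ
    have a2 : 1 - Real.pi * (H * θ) ^ 2 ≤ gw H θ := by
      unfold gw
      have := Real.add_one_le_exp (-(Real.pi * (H * θ) ^ 2))
      linarith
    linarith
  rw [lint_even _ (fun θ => by
    have e1 : gw δ (-θ) = gw δ θ := by simp [gw]
    have e2 : gw H (-θ) = gw H θ := by simp [gw]
    simp only [A_even, wlo, e1, e2, abs_neg])]
  set c1 : ℝ := M * (Real.pi * H ^ 2 * U ^ 2) with hc1
  set c2 : ℝ := Ks * M * X ^ (-(1 + η)) with hc2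
  have hc20 : 0 ≤ c2 := by positivity
  have key : ∫⁻ θ in Ioi (0 : ℝ), ENNReal.ofReal (P θ) * ENNReal.ofReal (wlo δ H T θ) ≤
      ENNReal.ofReal (c1 * U + c2 * (U ^ (-η) / η)) := by
    have hpt : ∀ θ ∈ Ioi (0 : ℝ), ENNReal.ofReal (P θ) * ENNReal.ofReal (wlo δ H T θ) ≤
        (Ioc 0 U).indicator (fun _ => ENNReal.ofReal c1) θ +
        (Ioi U).indicator (fun θ => ENNReal.ofReal (c2 * θ ^ (-(1 + η)))) θ := by
      intro θ hθ
      have hθ0 : (0 : ℝ) < θ := hθ
      rw [← ENNReal.ofReal_mul (hP0 θ)]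
      have hwlo0 := wlo_nonneg hδ hH T θ
      rcases le_or_gt θ U with h | h
      · rw [indicator_of_mem (show θ ∈ Ioc 0 U from ⟨hθ0, h⟩)]
        refine le_trans ?_ (le_add_right le_rfl)
        apply ENNReal.ofReal_le_ofReal
        have hwlo : wlo δ H T θ ≤ Real.pi * (H * θ) ^ 2 := by
          unfold wlo
          split_ifs
          · exact hw1 θ
          · have := Real.pi_pos; positivity
        calc P θ * wlo δ H T θ ≤ M * (Real.pi * (H * θ) ^ 2) :=
              mul_le_mul (hPM θ) hwlo hwlo0 hM0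
          _ ≤ M * (Real.pi * (H * U) ^ 2) := by
              have hH0 : 0 ≤ H := hδ.le.trans hH
              have := Real.pi_pos
              gcongr
          _ = c1 := by rw [hc1]; ring
      · rw [indicator_of_mem (show θ ∈ Ioi U from h)]
        refine le_trans ?_ (le_add_left le_rfl)
        apply ENNReal.ofReal_le_ofReal
        rcases le_or_gt θ T with h' | h'
        · calc P θ * wlo δ H T θ ≤ P θ * 1 :=
                mul_le_mul_of_nonneg_left ((wlo_le T θ).trans (gw_le_one δ θ)) (hP0 θ)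
            _ ≤ Ks * M * (θ * X) ^ (-(1 + η)) := by
                rw [mul_one]; exact hP1 θ h.le h'
            _ = c2 * θ ^ (-(1 + η)) := by
                rw [Real.mul_rpow hθ0.le hX0.le, hc2]; ring
        · have : wlo δ H T θ = 0 := by
            unfold wlo
            rw [if_neg]
            rw [abs_of_pos hθ0]; linarith
          rw [this, mul_zero]
          positivity
    refine (setLIntegral_mono' measurableSet_Ioi hpt).trans ?_
    rw [lintegral_add_right _ (by
        refine Measurable.indicator ?_ measurableSet_Ioi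
        exact ((measurable_id.pow_const (-(1 + η))).const_mul c2).ennreal_ofReal)]
    have hπ := Real.pi_pos
    have i1 : ∫⁻ θ in Ioi (0 : ℝ), (Ioc 0 U).indicator (fun _ => ENNReal.ofReal c1) θ ≤
        ENNReal.ofReal (c1 * U) := by
      rw [lintegral_indicator measurableSet_Ioc, setLIntegral_const,
        Measure.restrict_apply measurableSet_Ioc]
      have : volume (Ioc 0 U ∩ Ioi (0 : ℝ)) ≤ ENNReal.ofReal U := by
        refine (measure_mono inter_subset_left).trans ?_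
        rw [Real.volume_Ioc, sub_zero]
      calc ENNReal.ofReal c1 * volume (Ioc 0 U ∩ Ioi (0 : ℝ)) ≤ ENNReal.ofReal c1 * ENNReal.ofReal U := by
            gcongr
        _ = ENNReal.ofReal (c1 * U) := (ENNReal.ofReal_mul (by positivity)).symm
    have i2 : ∫⁻ θ in Ioi (0 : ℝ), (Ioi U).indicator (fun θ => ENNReal.ofReal (c2 * θ ^ (-(1 + η)))) θ ≤
        ENNReal.ofReal (c2 * (U ^ (-η) / η)) := by
      rw [lintegral_indicator measurableSet_Ioi, Measure.restrict_restrict measurableSet_Ioi]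
      have hs : Ioi U ∩ Ioi (0 : ℝ) = Ioi U := inter_eq_left.mpr (Ioi_subset_Ioi hU.le)
      rw [hs]
      have hint : IntegrableOn (fun θ : ℝ => c2 * θ ^ (-(1 + η))) (Ioi U) :=
        (integrableOn_Ioi_rpow_of_lt (by linarith) hU).const_mul c2
      rw [← ofReal_integral_eq_lintegral_ofReal hint (by
        refine (ae_restrict_iff' measurableSet_Ioi).mpr (ae_of_all _ fun θ hθ => ?_)
        have : (0 : ℝ) < θ := hU.trans hθ
        positivity)]
      apply ENNReal.ofReal_le_ofReal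
      rw [integral_const_mul, integral_Ioi_rpow_of_lt (by linarith) hU]
      have e1 : -(1 + η) + 1 = -η := by ring
      rw [e1, neg_div_neg_eq]
    refine (add_le_add i1 i2).trans ?_
    rw [← ENNReal.ofReal_add (by positivity) (by positivity)]
  calc 2 * ∫⁻ θ in Ioi (0 : ℝ), ENNReal.ofReal (∏ i, Real.sqrt (A μ I φ i θ)) *
          ENNReal.ofReal (wlo δ H T θ)
      ≤ 2 * ENNReal.ofReal (c1 * U + c2 * (U ^ (-η) / η)) := by gcongr
    _ = ENNReal.ofReal (2 * (c1 * U + c2 * (U ^ (-η) / η))) := by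
        rw [ENNReal.ofReal_mul (by norm_num)]; norm_num
    _ = _ := by
        congr 1
        rw [hc1, hc2]; ring

/-- the high frequency square integral -/
theorem hi_bound (X T H δ K q : ℝ) (p : ι → ℝ)
    (hX : 1 ≤ X) (hδ : 0 < δ) (hH : δ ≤ H) (hp : ∑ i, p i = q)
    (h1 : ∀ i, ∀ θ : ℝ, T ≤ θ → Real.sqrt (A μ I φ i θ) ≤ K * (I i).card * X ^ (-(p i / 2))) :
    ∫⁻ θ, ENNReal.ofReal (∏ i, A μ I φ i θ) * ENNReal.ofReal (whi δ H T θ) ^ 2 ≤
      ENNReal.ofReal ((K ^ Fintype.card ι * (∏ i, ((I i).card : ℝ))) ^ 2 * X ^ (-q) * δ⁻¹) := by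
  have hX0 : 0 < X := lt_of_lt_of_le one_pos hX
  have hprod : ∏ i, (K * ((I i).card : ℝ) * X ^ (-(p i / 2))) ^ 2 =
      (K ^ Fintype.card ι * (∏ i, ((I i).card : ℝ))) ^ 2 * X ^ (-q) := by
    rw [Finset.prod_pow, Finset.prod_mul_distrib, Finset.prod_mul_distrib, Finset.prod_const,
      Finset.card_univ, ← Real.rpow_sum_of_pos hX0, mul_pow]
    congr 1
    rw [Finset.sum_neg_distrib, ← Finset.sum_div, hp, ← Real.rpow_natCast, ← Real.rpow_mul hX0.le]
    congr 1
    push_cast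
    ring
  have hpt : ∀ θ : ℝ, ENNReal.ofReal (∏ i, A μ I φ i θ) * ENNReal.ofReal (whi δ H T θ) ^ 2 ≤
      ENNReal.ofReal ((K ^ Fintype.card ι * (∏ i, ((I i).card : ℝ))) ^ 2 * X ^ (-q) * gw δ θ) := by
    intro θ
    have hA0 : 0 ≤ ∏ i, A μ I φ i θ := Finset.prod_nonneg fun i _ => A_nonneg μ I φ i θ
    have hw0 := whi_nonneg hδ hH T θ
    rw [← ENNReal.ofReal_pow hw0, ← ENNReal.ofReal_mul hA0]
    apply ENNReal.ofReal_le_ofReal
    by_cases hθ : |θ| ≤ T
    · have : whi δ H T θ = 0 := by unfold whi; rw [if_pos hθ]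
      rw [this]
      have := gw_pos δ θ
      have h2 : 0 ≤ X ^ (-q) := by positivity
      have : 0 ≤ (K ^ Fintype.card ι * (∏ i, ((I i).card : ℝ))) ^ 2 := sq_nonneg _
      simp only [ne_eq, OfNat.ofNat_ne_zero, not_false_eq_true, zero_pow, mul_zero]
      positivity
    · push Not at hθ
      have hA : ∏ i, A μ I φ i θ ≤ (K ^ Fintype.card ι * (∏ i, ((I i).card : ℝ))) ^ 2 * X ^ (-q) := by
        rw [← hprod]
        refine Finset.prod_le_prod (fun i _ => A_nonneg μ I φ i θ) fun i _ => ?_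
        have h2 : A μ I φ i θ = A μ I φ i |θ| := by
          rcases abs_choice θ with h | h
          · rw [h]
          · rw [h, A_even]
        rw [h2, ← Real.sq_sqrt (A_nonneg μ I φ i |θ|)]
        exact pow_le_pow_left₀ (Real.sqrt_nonneg _) (h1 i |θ| hθ.le) 2
      have hw1 : whi δ H T θ ^ 2 ≤ gw δ θ := by
        have a1 := whi_le δ H T θ
        have a2 := gw_le_one δ θ
        nlinarith
      exact mul_le_mul hA hw1 (by positivity) (by positivity)
  refine (lintegral_mono hpt).trans ?_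
  rw [← ofReal_integral_eq_lintegral_ofReal ((gw_integrable hδ).const_mul _)
    (ae_of_all _ fun θ => by
      have := gw_pos δ θ
      have h2 : 0 ≤ X ^ (-q) := by positivity
      have : 0 ≤ (K ^ Fintype.card ι * (∏ i, ((I i).card : ℝ))) ^ 2 := sq_nonneg _
      positivity), integral_const_mul, gw_integral hδ]

end Exp

end Pool.Agent.Q83.WG
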