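import Mathlib
import Pool.Agent.Q83.WG.N
import Pool.Agent.Q83.WG.W

/-!
# Almost all targets, one scale
-/

set_option autoImplicit false
set_option linter.unusedSectionVars false

open MeasureTheory Filter Topology Set FourierTransform
open scoped ENNReal
open Pool.Agent.H469R2.NK (e norm_e e_add conj_e e_zero)

namespace Pool.Agent.Q83.WG

/-- deterministic step: from smoothed counts to counts -/
lemma count_of_abs {ι : Type*} (T : Finset ι) (S : ι → ℝ) {δ H r D N : ℝ} (hδ : 0 < δ) (hH : δ ≤ H)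
    (hr : 0 ≤ r) (a1 : |∑ x ∈ T, G δ (S x - N) - ∑ x ∈ T, G H (S x - N)| ≤ D)
    (h2 : 2 * D * H * Real.exp Real.pi ≤ ((T.filter fun x => |S x - N| ≤ H).card : ℝ)) :
    δ * D - T.card * Real.exp (-(Real.pi * (r / δ) ^ 2)) ≤
      ((T.filter fun x => |S x - N| ≤ r).card : ℝ) := by
  have hH0 : 0 < H := hδ.trans_le hH
  have a2 : 2 * D ≤ ∑ x ∈ T, G H (S x - N) := by
    have b1 : ∀ x ∈ T.filter (fun x => |S x - N| ≤ H), H⁻¹ * Real.exp (-Real.pi) ≤ G H (S x - N) := by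
      intro x hx
      have hx2 := (Finset.mem_filter.mp hx).2
      unfold G
      gcongr
      have : ((S x - N) / H) ^ 2 ≤ 1 := by
        rw [div_pow, div_le_one (by positivity), ← sq_abs]
        exact pow_le_pow_left₀ (abs_nonneg _) hx2 2
      nlinarith [Real.pi_pos]
    calc 2 * D = (2 * D * H * Real.exp Real.pi) * (H⁻¹ * Real.exp (-Real.pi)) := by
          rw [Real.exp_neg]
          have := (Real.exp_pos Real.pi).ne'
          field_simp
      _ ≤ ((T.filter fun x => |S x - N| ≤ H).card : ℝ) * (H⁻¹ * Real.exp (-Real.pi)) := by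
          gcongr
      _ = ∑ x ∈ T.filter (fun x => |S x - N| ≤ H), H⁻¹ * Real.exp (-Real.pi) := by
          rw [Finset.sum_const, nsmul_eq_mul]
      _ ≤ ∑ x ∈ T.filter (fun x => |S x - N| ≤ H), G H (S x - N) := Finset.sum_le_sum b1
      _ ≤ ∑ x ∈ T, G H (S x - N) :=
          Finset.sum_le_sum_of_subset_of_nonneg (Finset.filter_subset _ _)
            fun x _ _ => G_nonneg hH0 _
  have a3 : D ≤ ∑ x ∈ T, G δ (S x - N) := by
    have := (abs_le.mp a1).1
    linarith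
  have a4 : ∑ x ∈ T, G δ (S x - N) ≤
      δ⁻¹ * ((T.filter fun x => |S x - N| ≤ r).card : ℝ) +
      δ⁻¹ * (T.card * Real.exp (-(Real.pi * (r / δ) ^ 2))) := by
    rw [← Finset.sum_filter_add_sum_filter_not T (fun x => |S x - N| ≤ r)]
    refine add_le_add ?_ ?_
    · calc ∑ x ∈ T.filter (fun x => |S x - N| ≤ r), G δ (S x - N)
          ≤ ∑ x ∈ T.filter (fun x => |S x - N| ≤ r), δ⁻¹ := Finset.sum_le_sum fun x _ => G_le hδ _
        _ = _ := by rw [Finset.sum_const, nsmul_eq_mul, mul_comm]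
    · calc ∑ x ∈ T.filter (fun x => ¬ |S x - N| ≤ r), G δ (S x - N)
          ≤ ∑ x ∈ T.filter (fun x => ¬ |S x - N| ≤ r), δ⁻¹ * Real.exp (-(Real.pi * (r / δ) ^ 2)) := by
            refine Finset.sum_le_sum fun x hx => ?_
            have hx2 := (Finset.mem_filter.mp hx).2
            have hsq : (r / δ) ^ 2 ≤ ((S x - N) / δ) ^ 2 := by
              rw [← sq_abs ((S x - N) / δ), abs_div, abs_of_pos hδ]
              exact pow_le_pow_left₀ (by positivity) (by gcongr; exact (not_le.mp hx2).le) 2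
            unfold G
            refine mul_le_mul_of_nonneg_left (Real.exp_le_exp.mpr ?_) (by positivity)
            nlinarith [Real.pi_pos]
        _ = ((T.filter (fun x => ¬ |S x - N| ≤ r)).card : ℝ) *
              (δ⁻¹ * Real.exp (-(Real.pi * (r / δ) ^ 2))) := by
            rw [Finset.sum_const, nsmul_eq_mul]
        _ ≤ (T.card : ℝ) * (δ⁻¹ * Real.exp (-(Real.pi * (r / δ) ^ 2))) := by
            refine mul_le_mul_of_nonneg_right ?_ (by positivity)
            exact_mod_cast Finset.card_filter_le _ _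
        _ = _ := by ring
  have a5 := mul_le_mul_of_nonneg_left (a3.trans a4) hδ.le
  have a6 : δ * (δ⁻¹ * ((T.filter fun x => |S x - N| ≤ r).card : ℝ) +
      δ⁻¹ * (T.card * Real.exp (-(Real.pi * (r / δ) ^ 2)))) =
      ((T.filter fun x => |S x - N| ≤ r).card : ℝ) + T.card * Real.exp (-(Real.pi * (r / δ) ^ 2)) := by
    field_simp
  rw [a6] at a5
  linarith

section Exp

variable {ι : Type*} [Fintype ι] [DecidableEq ι] (μ : ι → Measure ℝ) [∀ i, IsProbabilityMeasure (μ i)]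
  (I : ι → Finset ℕ) (φ : ι → ℕ → ℝ → ℝ)

/-- low frequencies -/
noncomputable def Lo (X d γ pm : ℝ) (t : ι → ℝ) : ℝ≥0∞ :=
  ∫⁻ θ : ℝ, ‖F I φ θ t‖ₑ * ENNReal.ofReal (wlo (X ^ (-γ)) (X ^ (1 - d)) (X ^ (-1 + pm)) θ)

/-- high frequencies -/
noncomputable def Hi (X d γ pm : ℝ) (t : ι → ℝ) : ℝ≥0∞ :=
  ∫⁻ θ : ℝ, (‖F I φ θ t‖ₑ * ENNReal.ofReal (whi (X ^ (-γ)) (X ^ (1 - d)) (X ^ (-1 + pm)) θ)) ^ 2

variable {φ} in
lemma Lo_meas (hφ : ∀ i x, Measurable (φ i x)) (X d γ pm : ℝ) : Measurable (Lo I φ X d γ pm) := by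
  unfold Lo
  refine Measurable.lintegral_prod_right' (f := fun z : (ι → ℝ) × ℝ =>
    ‖F I φ z.2 z.1‖ₑ * ENNReal.ofReal (wlo (X ^ (-γ)) (X ^ (1 - d)) (X ^ (-1 + pm)) z.2)) ?_
  exact ((F_meas I hφ).enorm).mul ((wlo_meas _ _ _).comp measurable_snd).ennreal_ofReal

variable {φ} in
lemma Hi_meas (hφ : ∀ i x, Measurable (φ i x)) (X d γ pm : ℝ) : Measurable (Hi I φ X d γ pm) := by
  unfold Hi
  refine Measurable.lintegral_prod_right' (f := fun z : (ι → ℝ) × ℝ =>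
    (‖F I φ z.2 z.1‖ₑ * ENNReal.ofReal (whi (X ^ (-γ)) (X ^ (1 - d)) (X ^ (-1 + pm)) z.2)) ^ 2) ?_
  exact (((F_meas I hφ).enorm).mul ((whi_meas _ _ _).comp measurable_snd).ennreal_ofReal).pow_const 2

/-- Probability of a large low frequency part. -/
theorem lo_scale (hφ : ∀ i x, Measurable (φ i x)) (X d γ pm K η κ : ℝ) (p : ι → ℝ)
    (hX : 1 ≤ X) (hd1 : d ≤ 1) (hγ : 0 ≤ γ) (hK : 1 ≤ K) (hη : 0 < η) (hκ : 0 < κ)
    (hp : ∑ i, p i = 2 * (1 + η))
    (hM : ∀ i, (I i).Nonempty)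
    (h1 : ∀ i, ∀ θ : ℝ, X ^ (-1 + d / 2) ≤ θ → θ ≤ X ^ (-1 + pm) →
      Real.sqrt (A μ I φ i θ) ≤ K * (I i).card * (θ * X) ^ (-(p i / 2))) :
    Measure.pi μ {t | ENNReal.ofReal (κ * (∏ i, ((I i).card : ℝ)) / X) ≤ Lo I φ X d γ pm t} ≤
      ENNReal.ofReal (2 / κ * K ^ Fintype.card ι *
        (Real.pi * X ^ (-(d / 2)) + η⁻¹ * X ^ (-(η * d / 2)))) := by
  have hX0 : 0 < X := lt_of_lt_of_le one_pos hX
  obtain ⟨M, hMd⟩ : ∃ M : ℝ, M = ∏ i, ((I i).card : ℝ) := ⟨_, rfl⟩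
  have hM0 : 0 < M := by
    rw [hMd]
    exact Finset.prod_pos fun i _ => by exact_mod_cast Finset.card_pos.mpr (hM i)
  obtain ⟨Ks, hKs⟩ : ∃ Ks : ℝ, Ks = K ^ Fintype.card ι := ⟨_, rfl⟩
  have hKs1 : 1 ≤ Ks := by rw [hKs]; exact one_le_pow₀ hK
  have hb := low_bound μ I φ hφ X (X ^ (-1 + d / 2)) (X ^ (-1 + pm)) (X ^ (1 - d)) (X ^ (-γ)) K η p hX
    (by positivity)
    (by positivity) (Real.rpow_le_rpow_of_exponent_le hX (by linarith)) (by linarith) hη hp h1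
  have he := expect_le μ I hφ (fun θ => wlo (X ^ (-γ)) (X ^ (1 - d)) (X ^ (-1 + pm)) θ)
    (wlo_meas _ _ _)
  have hE := he.trans hb
  rw [← hMd, ← hKs] at hE
  rw [← hMd, ← hKs]
  have hmeas := Lo_meas I hφ X d γ pm
  have hD : 0 < κ * M / X := by positivity
  have hmk := meas_ge_le_lintegral_div hmeas.aemeasurable (μ := Measure.pi μ)
    (ε := ENNReal.ofReal (κ * M / X)) (by simpa using hD) ENNReal.ofReal_ne_top
  refine hmk.trans ?_
  refine (ENNReal.div_le_div_right hE _).trans ?_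
  rw [← ENNReal.ofReal_div_of_pos hD]
  apply ENNReal.ofReal_le_ofReal
  have e1 : (X ^ (1 - d)) ^ 2 * (X ^ (-1 + d / 2)) ^ 3 * X = X ^ (-(d / 2)) := by
    rw [← Real.rpow_natCast, ← Real.rpow_natCast, ← Real.rpow_mul hX0.le, ← Real.rpow_mul hX0.le,
      ← Real.rpow_add hX0]
    nth_rewrite 2 [← Real.rpow_one X]
    rw [← Real.rpow_add hX0]
    congr 1
    push_cast
    ring
  have e2 : X ^ (-(1 + η)) * (X ^ (-1 + d / 2)) ^ (-η) * X = X ^ (-(η * d / 2)) := by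
    rw [← Real.rpow_mul hX0.le, ← Real.rpow_add hX0]
    nth_rewrite 2 [← Real.rpow_one X]
    rw [← Real.rpow_add hX0]
    congr 1
    ring
  have e4 : 2 * (M * (Real.pi * (X ^ (1 - d)) ^ 2 * (X ^ (-1 + d / 2)) ^ 3 +
      Ks * X ^ (-(1 + η)) * ((X ^ (-1 + d / 2)) ^ (-η) / η))) / (κ * M / X) =
      2 / κ * (Real.pi * ((X ^ (1 - d)) ^ 2 * (X ^ (-1 + d / 2)) ^ 3 * X) +
        Ks * (η⁻¹ * (X ^ (-(1 + η)) * (X ^ (-1 + d / 2)) ^ (-η) * X))) := by
    field_simp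
  rw [e4, e1, e2]
  calc 2 / κ * (Real.pi * X ^ (-(d / 2)) + Ks * (η⁻¹ * X ^ (-(η * d / 2))))
      ≤ 2 / κ * (Ks * (Real.pi * X ^ (-(d / 2))) + Ks * (η⁻¹ * X ^ (-(η * d / 2)))) := by
        refine mul_le_mul_of_nonneg_left ?_ (by positivity)
        have : 0 ≤ Real.pi * X ^ (-(d / 2)) := by positivity
        nlinarith
    _ = _ := by ring

/-- Probability of a large high frequency part. -/
theorem hi_scale (hφ : ∀ i x, Measurable (φ i x)) (X d γ pm K q L : ℝ) (p : ι → ℝ)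
    (hX : 1 ≤ X) (hd1 : d ≤ 1) (hγ : 0 ≤ γ) (hK : 1 ≤ K) (hL : 0 < L)
    (hp : ∑ i, p i = q) (hM : ∀ i, (I i).Nonempty)
    (h1 : ∀ i, ∀ θ : ℝ, X ^ (-1 + pm) ≤ θ →
      Real.sqrt (A μ I φ i θ) ≤ K * (I i).card * X ^ (-(p i / 2))) :
    Measure.pi μ {t | ENNReal.ofReal (L * (K ^ Fintype.card ι * (∏ i, ((I i).card : ℝ))) ^ 2 *
      X ^ (γ - q)) ≤ Hi I φ X d γ pm t} ≤ ENNReal.ofReal (1 / L) := by
  have hX0 : 0 < X := lt_of_lt_of_le one_pos hX
  have hM0 : 0 < ∏ i, ((I i).card : ℝ) :=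
    Finset.prod_pos fun i _ => by exact_mod_cast Finset.card_pos.mpr (hM i)
  have hKs1 : 1 ≤ K ^ Fintype.card ι := one_le_pow₀ hK
  obtain ⟨W, hW⟩ : ∃ W : ℝ, W = (K ^ Fintype.card ι * (∏ i, ((I i).card : ℝ))) ^ 2 := ⟨_, rfl⟩
  have hW0 : 0 < W := by
    rw [hW]
    have : 0 < K ^ Fintype.card ι := by linarith
    exact pow_pos (mul_pos this hM0) 2
  have hb := hi_bound μ I φ X (X ^ (-1 + pm)) (X ^ (1 - d)) (X ^ (-γ)) K q p hX
    (by positivity) (Real.rpow_le_rpow_of_exponent_le hX (by linarith)) hp h1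
  have he := expect_sq_le μ I hφ (fun θ => whi (X ^ (-γ)) (X ^ (1 - d)) (X ^ (-1 + pm)) θ)
    (whi_meas _ _ _)
  have hE := he.trans hb
  rw [← hW] at hE ⊢
  have hmeas := Hi_meas I hφ X d γ pm
  have hD : 0 < L * W * X ^ (γ - q) := by positivity
  have hmk := meas_ge_le_lintegral_div hmeas.aemeasurable (μ := Measure.pi μ)
    (ε := ENNReal.ofReal (L * W * X ^ (γ - q))) (by simpa using hD) ENNReal.ofReal_ne_top
  refine hmk.trans ?_
  refine (ENNReal.div_le_div_right hE _).trans ?_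
  rw [← ENNReal.ofReal_div_of_pos hD]
  apply ENNReal.ofReal_le_ofReal
  have e1 : X ^ (-q) * (X ^ (-γ))⁻¹ = X ^ (γ - q) := by
    rw [← Real.rpow_neg hX0.le, ← Real.rpow_add hX0]; congr 1; ring
  rw [mul_assoc W, e1]
  have := (Real.rpow_pos_of_pos hX0 (γ - q)).ne'
  rw [div_le_div_iff₀ hD hL]
  apply le_of_eq
  ring

/-- Counting outside a small set of targets. -/
theorem count_scale_aa (X d γ pm κ L : ℝ) (i0 : ι) (hX : 1 ≤ X) (hd1 : d ≤ 1) (hγ : 0 ≤ γ)
    (hκ : 0 < κ) (t : ι → ℝ) (r : ℝ) (hr : 0 ≤ r)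
    (h0 : ∀ i, (I i).Nonempty)
    (h3 : ∀ y : ℝ, X / 2 ≤ y → y ≤ 2 * X → 4 * κ * X ^ (-d) * Real.exp Real.pi * ((I i0).card : ℝ) ≤
      (((I i0).filter fun x => |φ i0 x (t i0) - y| ≤ X ^ (1 - d)).card : ℝ))
    (h4 : ∀ i, i ≠ i0 → ∀ x ∈ I i, 0 ≤ φ i x (t i) ∧ φ i x (t i) * (2 * Fintype.card ι) ≤ X)
    (h5 : Lo I φ X d γ pm t ≤ ENNReal.ofReal (κ * (∏ i, ((I i).card : ℝ)) / X))
    (h6 : Hi I φ X d γ pm t ≤ ENNReal.ofReal L) :
    volume {N : ℝ | (X ≤ N ∧ N ≤ 2 * X) ∧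
      ¬ (X ^ (-γ) * (2 * κ * (∏ i, ((I i).card : ℝ)) / X) -
        (∏ i, ((I i).card : ℝ)) * Real.exp (-(Real.pi * (r / X ^ (-γ)) ^ 2)) ≤
      (((Fintype.piFinset I).filter fun x => |∑ i, φ i (x i) (t i) - N| ≤ r).card : ℝ))} ≤
    ENNReal.ofReal (L / (κ * (∏ i, ((I i).card : ℝ)) / X) ^ 2) := by
  have hX0 : 0 < X := lt_of_lt_of_le one_pos hX
  have hcard : ((Fintype.piFinset I).card : ℝ) = ∏ i, ((I i).card : ℝ) := by
    rw [Fintype.card_piFinset, Nat.cast_prod]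
  obtain ⟨M, hMd⟩ : ∃ M : ℝ, M = ∏ i, ((I i).card : ℝ) := ⟨_, rfl⟩
  have hM0 : 0 < M := by
    rw [hMd]
    exact Finset.prod_pos fun i _ => by exact_mod_cast Finset.card_pos.mpr (h0 i)
  rw [← hMd] at hcard h5 ⊢
  have hm : 0 < κ * M / X := by positivity
  have hδ : 0 < X ^ (-γ) := Real.rpow_pos_of_pos hX0 _
  have hHH : X ^ (-γ) ≤ X ^ (1 - d) := Real.rpow_le_rpow_of_exponent_le hX (by linarith)
  have hfew := few_large (Fintype.piFinset I) (fun x => ∑ i, φ i (x i) (t i)) hδ hHH (X ^ (-1 + pm))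
    (κ * M / X) hm
  refine le_trans (measure_mono ?_) (hfew.trans ?_)
  · rintro N ⟨⟨hN1, hN2⟩, hN3⟩
    rw [mem_ofPred_eq]
    by_contra hcon
    push Not at hcon
    apply hN3
    have hfib := pivot_count I (fun i x => φ i x (t i)) i0 N (X ^ (1 - d))
      (4 * κ * X ^ (-d) * Real.exp Real.pi * ((I i0).card : ℝ)) (h0 i0).choose (h0 i0).choose_spec (by
        intro z hz
        rw [Fintype.mem_piFinset] at hz
        have hc : (0 : ℝ) < Fintype.card ι := by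
          exact_mod_cast Fintype.card_pos_iff.mpr ⟨i0⟩
        have g1 : 0 ≤ ∑ i ∈ Finset.univ.erase i0, φ i (z i) (t i) :=
          Finset.sum_nonneg fun i hi => (h4 i (Finset.ne_of_mem_erase hi) _ (hz i)).1
        have g2 : ∑ i ∈ Finset.univ.erase i0, φ i (z i) (t i) ≤ X / 2 := by
          calc ∑ i ∈ Finset.univ.erase i0, φ i (z i) (t i)
              ≤ ∑ i ∈ Finset.univ.erase i0, X / (2 * Fintype.card ι) := by
                refine Finset.sum_le_sum fun i hi => ?_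
                rw [le_div_iff₀ (by linarith)]
                exact (h4 i (Finset.ne_of_mem_erase hi) _ (hz i)).2
            _ ≤ ∑ i : ι, X / (2 * Fintype.card ι) :=
                Finset.sum_le_sum_of_subset_of_nonneg (Finset.erase_subset _ _)
                  fun i _ _ => div_nonneg hX0.le (by linarith)
            _ = X / 2 := by
                rw [Finset.sum_const, Finset.card_univ, nsmul_eq_mul]
                field_simp
        exact h3 _ (by linarith) (by linarith))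
    have habs : |∑ x ∈ Fintype.piFinset I, G (X ^ (-γ)) ((∑ i, φ i (x i) (t i)) - N) -
        ∑ x ∈ Fintype.piFinset I, G (X ^ (1 - d)) ((∑ i, φ i (x i) (t i)) - N)| ≤ 2 * κ * M / X := by
      have h7 := sum_G_sub_le_split (Fintype.piFinset I) (fun x => ∑ i, φ i (x i) (t i)) hδ hHH
        (X ^ (-1 + pm)) N
      have h8 : ENNReal.ofReal (κ * M / X) + ENNReal.ofReal (κ * M / X) = ENNReal.ofReal (2 * κ * M / X) := by
        rw [← ENNReal.ofReal_add hm.le hm.le]; congr 1; ring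
      have h9 := h7.trans ((add_le_add h5 hcon.le).trans (le_of_eq h8))
      rwa [ENNReal.ofReal_le_ofReal_iff (by positivity)] at h9
    have key := count_of_abs (Fintype.piFinset I) (fun x => ∑ i, φ i (x i) (t i))
      (δ := X ^ (-γ)) (H := X ^ (1 - d)) (r := r) (D := 2 * κ * M / X) (N := N)
      hδ hHH hr habs (by
        refine le_trans (le_of_eq ?_) hfib
        rw [hMd, ← Finset.prod_erase_mul _ _ (Finset.mem_univ i0)]
        have e1 : X ^ (1 - d) = X * X ^ (-d) := by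
          rw [sub_eq_add_neg, Real.rpow_add hX0, Real.rpow_one]
        rw [e1]
        generalize (∏ i ∈ Finset.univ.erase i0, ((I i).card : ℝ)) = P
        generalize X ^ (-d) = Y
        generalize Real.exp Real.pi = Z
        generalize ((I i0).card : ℝ) = Q
        field_simp
        ring)
    rw [hcard] at key
    exact key
  · rw [ENNReal.ofReal_div_of_pos (by positivity)]
    exact ENNReal.div_le_div_right h6 _

end Exp

end Pool.Agent.Q83.WG
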