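import Mathlib
import Pool.Agent.Q83.WG.O

/-!
# Almost all targets, all scales
-/

set_option autoImplicit false
set_option linter.unusedSectionVars false

open MeasureTheory Filter Topology Set
open scoped ENNReal
open Pool.Agent.H469R2.NK (e norm_e e_add conj_e e_zero)

namespace Pool.Agent.Q83.WG

/-- the mean square bound, general form -/
lemma ms_gen (X p θ c1 c2 c3 c4 Q V Lg a : ℝ) (n : ℕ) (hn : 1 ≤ n) (hX : 1 ≤ X)
    (hc1 : 0 < c1) (hc2 : 0 ≤ c2) (hc3 : 0 < c3) (hc4 : 0 ≤ c4) (hQ : 0 < Q) (hθ0 : 0 < θ)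
    (hV : c1 * Q / n ≤ V) (hQX : c3 * X ^ p ≤ Q) (hL : Lg ≤ c4 * n) (hL0 : 0 ≤ Lg)
    (ha : a ≤ V * (1 + 2 * (c2 * Q / (θ * X)) * (1 + Lg))) (y : ℝ) (hy : 0 < y)
    (hy1 : X ^ (-p) ≤ y) (hy2 : 1 / (θ * X) ≤ y) :
    Real.sqrt a ≤ (Real.sqrt (1 / (c1 * c3) + 2 * c2 * (1 + c4) / c1) * n) * V * Real.sqrt y := by
  have hX0 : 0 < X := by linarith
  have hn0 : (0 : ℝ) < n := by exact_mod_cast hn
  have hn1 : (1 : ℝ) ≤ n := by exact_mod_cast hn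
  have hV0 : 0 < V := lt_of_lt_of_le (by positivity) hV
  have hC0 : 0 ≤ 1 / (c1 * c3) + 2 * c2 * (1 + c4) / c1 := by positivity
  have hQV : Q ≤ n * V / c1 := by
    rw [le_div_iff₀ hc1]
    rw [div_le_iff₀ hn0] at hV
    linarith
  have h1V : 1 ≤ (n / (c1 * c3)) * V * X ^ (-p) := by
    have : c3 * X ^ p ≤ n * V / c1 := hQX.trans hQV
    have hXp : 0 < X ^ p := Real.rpow_pos_of_pos hX0 _
    rw [Real.rpow_neg hX0.le]
    rw [le_div_iff₀ hc1] at this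
    rw [show (n / (c1 * c3)) * V * (X ^ p)⁻¹ = (n * V) / (c3 * X ^ p * c1) by field_simp]
    rw [le_div_iff₀ (by positivity)]
    linarith
  have main : a ≤ ((Real.sqrt (1 / (c1 * c3) + 2 * c2 * (1 + c4) / c1) * n) * V) ^ 2 * y := by
    have t1 : V * 1 ≤ V * ((n / (c1 * c3)) * V * y) := by
      refine mul_le_mul_of_nonneg_left (h1V.trans ?_) hV0.le
      gcongr
    have t2 : V * (2 * (c2 * Q / (θ * X)) * (1 + Lg)) ≤
        V * (2 * c2 * (n * V / c1) * y * (n * (1 + c4))) := by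
      refine mul_le_mul_of_nonneg_left ?_ hV0.le
      have s1 : 2 * (c2 * Q / (θ * X)) ≤ 2 * c2 * (n * V / c1) * y := by
        calc 2 * (c2 * Q / (θ * X)) = 2 * c2 * Q * (1 / (θ * X)) := by ring
          _ ≤ 2 * c2 * (n * V / c1) * y := by gcongr
      have s2 : 1 + Lg ≤ n * (1 + c4) := by nlinarith
      have s3 : 0 ≤ 2 * c2 * (n * V / c1) * y := by positivity
      exact mul_le_mul s1 s2 (by linarith) s3
    calc a ≤ V * 1 + V * (2 * (c2 * Q / (θ * X)) * (1 + Lg)) := by linarith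
      _ ≤ V * ((n / (c1 * c3)) * V * y) + V * (2 * c2 * (n * V / c1) * y * (n * (1 + c4))) := by
          linarith
      _ ≤ V * ((n ^ 2 / (c1 * c3)) * V * y) + V * (2 * c2 * (n * V / c1) * y * (n * (1 + c4))) := by
          gcongr
          nlinarith
      _ = (1 / (c1 * c3) + 2 * c2 * (1 + c4) / c1) * n ^ 2 * V ^ 2 * y := by
          field_simp
      _ = _ := by
          rw [mul_pow, mul_pow, Real.sq_sqrt hC0]
  calc Real.sqrt a ≤ Real.sqrt (((Real.sqrt (1 / (c1 * c3) + 2 * c2 * (1 + c4) / c1) * n) * V) ^ 2 * y) :=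
        Real.sqrt_le_sqrt main
    _ = _ := by
        rw [Real.sqrt_mul (by positivity), Real.sqrt_sq (by positivity)]

/-- mean squares over dense sets, all scales, general form -/
theorem ms_scale2 (P : Set ℕ) (hP : Dense P) (p c2 c3 c6 R : ℝ) (hp0 : 0 < p)
    (hc2 : 0 ≤ c2) (hc3 : 0 < c3) (hc6 : 0 < c6) (hR : 3 / 2 ≤ R) :
    ∃ C c1 : ℝ, 1 ≤ C ∧ 0 < c1 ∧ ∃ n0 : ℕ, 1 ≤ n0 ∧ ∀ n : ℕ, n0 ≤ n → ∀ Q : ℝ,
      c3 * ((2 : ℝ) ^ n) ^ p ≤ Q → Q ≤ c6 * 2 ^ n →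
      (J P Q (R * Q)).Nonempty ∧ c1 * Q / n ≤ ((J P Q (R * Q)).card : ℝ) ∧
      ∀ (μ : Measure ℝ) [IsProbabilityMeasure μ] (ψ : ℕ → ℝ → ℝ), (∀ x, Measurable (ψ x)) →
        ∀ θ : ℝ, 0 < θ →
        (∀ x ∈ J P Q (R * Q), ∀ y ∈ J P Q (R * Q), x ≠ y →
          ‖∫ t, e (θ * ψ x t - θ * ψ y t) ∂μ‖ ≤ (c2 * Q / (θ * 2 ^ n)) / |(x : ℝ) - y|) →
        ∀ y : ℝ, 0 < y → ((2 : ℝ) ^ n) ^ (-p) ≤ y → 1 / (θ * 2 ^ n) ≤ y →
          Real.sqrt (∫ t, ‖∑ x ∈ J P Q (R * Q), e (θ * ψ x t)‖ ^ 2 ∂μ) ≤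
          (C * n) * (J P Q (R * Q)).card * Real.sqrt y := by
  obtain ⟨c, z0, hc, hz0, hJ⟩ := J_card_ge hP
  set c4 : ℝ := Real.log 2 + |Real.log (R * c6)| with hc4
  have hlog2 : 0 < Real.log 2 := Real.log_pos (by norm_num)
  have hc40 : 0 < c4 := by positivity
  set c1 : ℝ := c / c4 with hc1
  have hc10 : 0 < c1 := by positivity
  set C0 : ℝ := Real.sqrt (1 / (c1 * c3) + 2 * c2 * (1 + c4) / c1) with hC0
  have hev : ∀ᶠ n : ℕ in atTop, z0 / c3 ≤ ((2 : ℝ) ^ n) ^ p :=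
    (((tendsto_rpow_atTop hp0).comp two_pow_tendsto)).eventually_ge_atTop _
  obtain ⟨n1, hn1⟩ := eventually_atTop.mp hev
  refine ⟨max 1 C0, c1, le_max_left _ _, hc10, max n1 1, le_max_right _ _, ?_⟩
  intro n hn Q hQ1 hQ2
  have hnn1 : n1 ≤ n := (le_max_left _ _).trans hn
  have hn1' : 1 ≤ n := (le_max_right _ _).trans hn
  have hnpos : (0 : ℝ) < n := by exact_mod_cast hn1'
  have hnone : (1 : ℝ) ≤ n := by exact_mod_cast hn1'
  have hX1 : (1 : ℝ) ≤ 2 ^ n := one_le_pow₀ (by norm_num)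
  have hX0 : (0 : ℝ) < 2 ^ n := by positivity
  have hQz : z0 ≤ Q := by
    refine le_trans ?_ hQ1
    have := hn1 n hnn1
    rw [div_le_iff₀ hc3] at this
    linarith
  have hQ0 : 0 < Q := by linarith
  have hR0 : 0 < R := by linarith
  have hlogR : Real.log (R * Q) ≤ c4 * n := by
    calc Real.log (R * Q) ≤ Real.log (R * c6 * 2 ^ n) :=
          Real.log_le_log (by positivity) (by nlinarith)
      _ = Real.log (R * c6) + n * Real.log 2 := by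
          rw [Real.log_mul (by positivity) (by positivity), Real.log_pow]
      _ ≤ |Real.log (R * c6)| * n + n * Real.log 2 := by
          have := le_abs_self (Real.log (R * c6))
          have h2 := abs_nonneg (Real.log (R * c6))
          nlinarith
      _ = c4 * n := by rw [hc4]; ring
  have hlogQ0 : 0 < Real.log Q := Real.log_pos (by linarith)
  have hlogQ : Real.log Q ≤ c4 * n :=
    le_trans (Real.log_le_log hQ0 (by nlinarith)) hlogR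
  have hcard : c1 * Q / n ≤ ((J P Q (R * Q)).card : ℝ) := by
    refine le_trans ?_ (hJ Q R hQz hR)
    rw [hc1, div_mul_eq_mul_div, div_div]
    exact div_le_div_of_nonneg_left (by positivity) hlogQ0 hlogQ
  have hne : (J P Q (R * Q)).Nonempty := by
    rw [← Finset.card_pos]
    have : (0 : ℝ) < ((J P Q (R * Q)).card : ℝ) := lt_of_lt_of_le (by positivity) hcard
    exact_mod_cast this
  refine ⟨hne, hcard, ?_⟩
  intro μ _ ψ hψ θ hθ hosc y hy hy1 hy2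
  have hRQ0 : 0 ≤ R * Q := by positivity
  have hms := ms_general μ (J P Q (R * Q)) ⌊R * Q⌋₊ (fun x t => θ * ψ x t)
    (fun x => (hψ x).const_mul θ) (c2 * Q / (θ * 2 ^ n)) (by positivity)
    (fun x hx => Nat.le_floor ((mem_J hQ0.le hRQ0).mp hx).2.1) hosc
  have hfl1 : 1 ≤ ⌊R * Q⌋₊ := by
    apply Nat.le_floor
    push_cast
    nlinarith
  have hLg0 : 0 ≤ Real.log (⌊R * Q⌋₊ : ℝ) := Real.log_natCast_nonneg _
  have hLg : Real.log (⌊R * Q⌋₊ : ℝ) ≤ c4 * n := by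
    refine le_trans (Real.log_le_log (by exact_mod_cast hfl1) (Nat.floor_le hRQ0)) hlogR
  have hfin := ms_gen (2 ^ n) p θ c1 c2 c3 c4 Q (J P Q (R * Q)).card (Real.log (⌊R * Q⌋₊ : ℝ)) _ n
    hn1' hX1 hc10 hc2 hc3 hc40.le hQ0 hθ hcard hQ1 hLg hLg0 hms y hy hy1 hy2
  rw [← hC0] at hfin
  have hCn : C0 * n ≤ max 1 C0 * n := by gcongr; exact le_max_right _ _
  have hcard0 : (0 : ℝ) ≤ ((J P Q (R * Q)).card : ℝ) := Nat.cast_nonneg _
  refine hfin.trans ?_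
  gcongr

section Exp

variable {ι : Type*} [Fintype ι] [DecidableEq ι] (μ : ι → Measure ℝ) [∀ i, IsProbabilityMeasure (μ i)]
  (φ : ι → ℕ → ℝ → ℝ)

/-- Borel–Cantelli for both parts. -/
theorem bad_rare_aa (hφ : ∀ i x, Measurable (φ i x)) (I : ℕ → ι → Finset ℕ) (p p' : ι → ℝ)
    (q η d γ pm C c : ℝ) (n0 : ℕ) (hd : 0 < d) (hd1 : d ≤ 1) (hγ : 0 ≤ γ) (hη : 0 < η)
    (hC : 1 ≤ C) (hc : 0 < c)
    (hp : ∑ i, p i = q) (hp' : ∑ i, p' i = 2 * (1 + η)) (hn0 : 1 ≤ n0)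
    (h0 : ∀ n, n0 ≤ n → ∀ i, (I n i).Nonempty)
    (h1 : ∀ n, n0 ≤ n → ∀ i, ∀ θ : ℝ, ((2 : ℝ) ^ n) ^ (-1 + d / 2) ≤ θ → θ ≤ ((2 : ℝ) ^ n) ^ (-1 + pm) →
      Real.sqrt (A μ (I n) φ i θ) ≤ (C * n) * (I n i).card * (θ * 2 ^ n) ^ (-(p' i / 2)))
    (h2 : ∀ n, n0 ≤ n → ∀ i, ∀ θ : ℝ, ((2 : ℝ) ^ n) ^ (-1 + pm) ≤ θ →
      Real.sqrt (A μ (I n) φ i θ) ≤ (C * n) * (I n i).card * ((2 : ℝ) ^ n) ^ (-(p i / 2))) :
    ∀ᵐ t ∂(Measure.pi μ), ∀ᶠ n : ℕ in atTop,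
      Lo (I n) φ ((2 : ℝ) ^ n) d γ pm t ≤
        ENNReal.ofReal (c * (n : ℝ)⁻¹ * (∏ i, ((I n i).card : ℝ)) / 2 ^ n) ∧
      Hi (I n) φ ((2 : ℝ) ^ n) d γ pm t ≤
        ENNReal.ofReal ((n : ℝ) ^ 2 * ((C * n) ^ Fintype.card ι * (∏ i, ((I n i).card : ℝ))) ^ 2 *
          ((2 : ℝ) ^ n) ^ (γ - q)) := by
  set s := Fintype.card ι with hs
  have hsum := summ (1 + s) (2 / c * C ^ s) (d / 2) (η * d / 2) 1 (by positivity)
    (by positivity) one_pos Real.pi η⁻¹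
  have hsum2 : Summable fun n : ℕ => 1 / (n : ℝ) ^ 2 := Real.summable_one_div_nat_pow.mpr (by norm_num)
  have hboundLo : ∀ n, n0 ≤ n → Measure.pi μ {t | ENNReal.ofReal (c * (n : ℝ)⁻¹ *
      (∏ i, ((I n i).card : ℝ)) / 2 ^ n) ≤ Lo (I n) φ ((2 : ℝ) ^ n) d γ pm t} ≤
      ENNReal.ofReal (2 / c * C ^ s * (n : ℝ) ^ (1 + s) *
        (Real.pi * ((2 : ℝ) ^ n) ^ (-(d / 2)) + η⁻¹ * ((2 : ℝ) ^ n) ^ (-(η * d / 2)) +
          ((2 : ℝ) ^ n) ^ (-(1 : ℝ)))) := by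
    intro n hn
    have hn1 : 1 ≤ n := hn0.trans hn
    have hnpos : (0 : ℝ) < n := by exact_mod_cast hn1
    have hn1' : (1 : ℝ) ≤ n := by exact_mod_cast hn1
    have := lo_scale μ (I n) φ hφ ((2 : ℝ) ^ n) d γ pm (C * n) η (c * (n : ℝ)⁻¹) p'
      (one_le_pow₀ (by norm_num)) hd1 hγ (by nlinarith) hη (by positivity) hp' (h0 n hn)
      (h1 n hn)
    refine this.trans (ENNReal.ofReal_le_ofReal ?_)
    rw [← hs, mul_pow, pow_add, pow_one]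
    have e1 : 2 / (c * (n : ℝ)⁻¹) * (C ^ s * (n : ℝ) ^ s) = 2 / c * C ^ s * ((n : ℝ) * (n : ℝ) ^ s) := by
      field_simp
    rw [e1]
    refine mul_le_mul_of_nonneg_left ?_ (by positivity)
    have : 0 ≤ ((2 : ℝ) ^ n) ^ (-(1 : ℝ)) := by positivity
    linarith
  have hboundHi : ∀ n, n0 ≤ n → Measure.pi μ {t | ENNReal.ofReal ((n : ℝ) ^ 2 *
      ((C * n) ^ s * (∏ i, ((I n i).card : ℝ))) ^ 2 * ((2 : ℝ) ^ n) ^ (γ - q)) ≤
        Hi (I n) φ ((2 : ℝ) ^ n) d γ pm t} ≤ ENNReal.ofReal (1 / (n : ℝ) ^ 2) := by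
    intro n hn
    have hn1 : 1 ≤ n := hn0.trans hn
    have hnpos : (0 : ℝ) < n := by exact_mod_cast hn1
    have hn1' : (1 : ℝ) ≤ n := by exact_mod_cast hn1
    exact hi_scale μ (I n) φ hφ ((2 : ℝ) ^ n) d γ pm (C * n) q ((n : ℝ) ^ 2) p
      (one_le_pow₀ (by norm_num)) hd1 hγ (by nlinarith) (by positivity) hp (h0 n hn) (h2 n hn)
  have hB : ∀ (B : ℕ → Set (ι → ℝ)) (u : ℕ → ℝ), Summable u →
      (∀ n, n0 ≤ n → Measure.pi μ (B n) ≤ ENNReal.ofReal (u n)) →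
      ∀ᵐ t ∂(Measure.pi μ), ∀ᶠ n : ℕ in atTop, t ∉ B n := by
    intro B u hu hb
    have h7 := ae_eventually_notMem (μ := Measure.pi μ)
      (s := fun n => if n0 ≤ n then B n else ∅) (by
      refine ne_top_of_le_ne_top (Summable.tsum_ofReal_ne_top hu) ?_
      refine ENNReal.tsum_le_tsum fun n => ?_
      by_cases hn : n0 ≤ n
      · simp only [hn, if_true]; exact hb n hn
      · simp [hn])
    filter_upwards [h7] with t ht
    filter_upwards [ht, eventually_ge_atTop n0] with n hn hn2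
    simpa [hn2] using hn
  filter_upwards [hB _ _ hsum hboundLo, hB _ _ hsum2 hboundHi] with t ht1 ht2
  filter_upwards [ht1, ht2] with n g1 g2
  exact ⟨(not_le.mp g1).le, (not_le.mp g2).le⟩

/-- few exceptional targets at every scale -/
theorem good_scale_aa (I : ℕ → ι → Finset ℕ) (q d γ pm C c : ℝ) (n0 : ℕ) (i0 : ι) (hd1 : d ≤ 1)
    (hγ : 0 ≤ γ) (hc : 0 < c) (hC : 0 < C) (t : ι → ℝ) (hn0 : 1 ≤ n0)
    (h0 : ∀ n, n0 ≤ n → ∀ i, (I n i).Nonempty)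
    (h3 : ∀ n, n0 ≤ n → ∀ y : ℝ, (2 : ℝ) ^ n / 2 ≤ y → y ≤ 2 * (2 : ℝ) ^ n →
      c * (n : ℝ)⁻¹ * ((2 : ℝ) ^ n) ^ (-d) * ((I n i0).card : ℝ) ≤
      (((I n i0).filter fun x => |φ i0 x (t i0) - y| ≤ ((2 : ℝ) ^ n) ^ (1 - d)).card : ℝ))
    (h4 : ∀ n, n0 ≤ n → ∀ i, i ≠ i0 → ∀ x ∈ I n i, 0 ≤ φ i x (t i) ∧
      φ i x (t i) * (2 * Fintype.card ι) ≤ (2 : ℝ) ^ n)
    (h5 : ∀ᶠ n : ℕ in atTop,
      Lo (I n) φ ((2 : ℝ) ^ n) d γ pm t ≤
        ENNReal.ofReal (c / (4 * Real.exp Real.pi) * (n : ℝ)⁻¹ * (∏ i, ((I n i).card : ℝ)) / 2 ^ n) ∧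
      Hi (I n) φ ((2 : ℝ) ^ n) d γ pm t ≤
        ENNReal.ofReal ((n : ℝ) ^ 2 * ((C * n) ^ Fintype.card ι * (∏ i, ((I n i).card : ℝ))) ^ 2 *
          ((2 : ℝ) ^ n) ^ (γ - q))) :
    ∀ᶠ n : ℕ in atTop, volume {N : ℝ | ((2 : ℝ) ^ n ≤ N ∧ N ≤ 2 * (2 : ℝ) ^ n) ∧
      ¬ Rep (fun x => ∑ i, φ i (x i) (t i)) (fun x => ∀ i, x i ∈ I n i) N (n * ((2 : ℝ) ^ n) ^ (-γ))
        (c / (4 * Real.exp Real.pi) * (n : ℝ)⁻¹ ^ 1 * ((2 : ℝ) ^ n) ^ (-(1 + γ)) *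
          ∏ i, ((I n i).card : ℝ))} ≤
      ENNReal.ofReal ((C ^ Fintype.card ι * (4 * Real.exp Real.pi) / c) ^ 2 *
        (n : ℝ) ^ (4 + 2 * Fintype.card ι) * ((2 : ℝ) ^ n) ^ (2 + γ - q)) := by
  have hcc : 0 < c / (4 * Real.exp Real.pi) := by positivity
  filter_upwards [h5, eventually_ge_atTop n0, tail_small 1 _ (1 + γ) hcc] with
    n hn hn0' htail
  have hn1 : 1 ≤ n := hn0.trans hn0'
  have hnpos : (0 : ℝ) < n := by exact_mod_cast hn1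
  have hX : (1 : ℝ) ≤ 2 ^ n := one_le_pow₀ (by norm_num)
  have hX0 : (0 : ℝ) < 2 ^ n := by positivity
  have hM : 0 < ∏ i, ((I n i).card : ℝ) :=
    Finset.prod_pos fun i _ => by exact_mod_cast Finset.card_pos.mpr (h0 n hn0' i)
  have key := count_scale_aa (I n) φ ((2 : ℝ) ^ n) d γ pm (c / (4 * Real.exp Real.pi) * (n : ℝ)⁻¹)
    ((n : ℝ) ^ 2 * ((C * n) ^ Fintype.card ι * (∏ i, ((I n i).card : ℝ))) ^ 2 * ((2 : ℝ) ^ n) ^ (γ - q))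
    i0 hX hd1 hγ (by positivity) t (n * ((2 : ℝ) ^ n) ^ (-γ)) (by positivity) (h0 n hn0') (by
      intro y hy1 hy2
      refine le_trans (le_of_eq ?_) (h3 n hn0' y hy1 hy2)
      have := (Real.exp_pos Real.pi).ne'
      field_simp) (h4 n hn0') hn.1 hn.2
  obtain ⟨M, hMd⟩ : ∃ M : ℝ, M = ∏ i, ((I n i).card : ℝ) := ⟨_, rfl⟩
  rw [← hMd] at key hM ⊢
  refine le_trans (measure_mono ?_) (key.trans (ENNReal.ofReal_le_ofReal ?_))
  · rintro N ⟨hN, hrep⟩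
    refine ⟨hN, fun hcount => hrep ?_⟩
    refine ⟨(Fintype.piFinset (I n)).filter fun x => |∑ i, φ i (x i) (t i) - N| ≤ n * ((2 : ℝ) ^ n) ^ (-γ),
      le_trans ?_ hcount, ?_⟩
    · have e1 : n * ((2 : ℝ) ^ n) ^ (-γ) / ((2 : ℝ) ^ n) ^ (-γ) = n := by
        have : ((2 : ℝ) ^ n) ^ (-γ) ≠ 0 := (Real.rpow_pos_of_pos hX0 _).ne'
        field_simp
      rw [e1]
      have e2 : ((2 : ℝ) ^ n) ^ (-(1 + γ)) = ((2 : ℝ) ^ n) ^ (-γ) / 2 ^ n := by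
        rw [neg_add, add_comm, Real.rpow_add hX0, Real.rpow_neg_one, div_eq_mul_inv]
      rw [e2, pow_one] at htail ⊢
      have h6 := mul_le_mul_of_nonneg_left htail hM.le
      have e3 : ((2 : ℝ) ^ n) ^ (-γ) * (2 * (c / (4 * Real.exp Real.pi) * (n : ℝ)⁻¹) * M / 2 ^ n) =
          2 * (c / (4 * Real.exp Real.pi) * (n : ℝ)⁻¹ * (((2 : ℝ) ^ n) ^ (-γ) / 2 ^ n) * M) := by
        generalize ((2 : ℝ) ^ n) ^ (-γ) = Y
        generalize Real.exp Real.pi = Z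
        ring
      rw [e3]
      linarith
    · intro x hx
      rw [Finset.mem_filter, Fintype.mem_piFinset] at hx
      exact hx
  · have e1 : ((2 : ℝ) ^ n) ^ (2 + γ - q) = ((2 : ℝ) ^ n) ^ (γ - q) * ((2 : ℝ) ^ n) ^ 2 := by
      rw [show 2 + γ - q = (γ - q) + 2 by ring, Real.rpow_add hX0]
      norm_num
    rw [e1]
    have hY : 0 < ((2 : ℝ) ^ n) ^ (γ - q) := by positivity
    have hZ := Real.exp_pos Real.pi
    generalize ((2 : ℝ) ^ n) ^ (γ - q) = Y at *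
    generalize Real.exp Real.pi = Z at *
    apply le_of_eq
    rw [mul_pow C]
    have : (n : ℝ) ^ (4 + 2 * Fintype.card ι) = (n : ℝ) ^ 4 * ((n : ℝ) ^ Fintype.card ι) ^ 2 := by
      rw [pow_add, pow_mul']
    rw [this]
    field_simp

end Exp

end Pool.Agent.Q83.WG
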