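import Mathlib
import Pool.Agent.Q83.WG.AA

/-!
# Generic coefficients: almost all targets
-/

set_option autoImplicit false
set_option linter.unusedSectionVars false

open MeasureTheory Filter Topology Set
open scoped ENNReal
open Pool.Agent.H469R2.NK (e norm_e e_add conj_e e_zero)

namespace Pool.Agent.Q83.WG

/-- pointwise passage from the scale `2^n` to the target -/
lemma wrap_pt {ι : Type*} (S : (ι → ℕ) → ℝ) (P : (ι → ℕ) → Prop) (q γ γ' ε c : ℝ) (b : ℕ)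
    (hγ : 0 ≤ γ) (h1 : γ < γ') (hε : γ' < γ + ε) (hc : 0 < c) :
    ∀ᶠ n : ℕ in atTop, ∀ N : ℝ, (2 : ℝ) ^ n ≤ N → N ≤ 2 * (2 : ℝ) ^ n →
      Rep S P N (n * ((2 : ℝ) ^ n) ^ (-(γ' : ℝ))) (c * (n : ℝ)⁻¹ ^ b * ((2 : ℝ) ^ n) ^ (q - 1 - γ')) →
      Rep S P N (N ^ (-γ)) (N ^ (q - 1 - γ - ε)) := by
  have e1 := poly_le_geom 1 (2 ^ γ) (γ' - γ) (by linarith)
  have e2 := poly_le_geom b (2 ^ |q - 1 - γ - ε| / c) (ε + γ - γ') (by linarith)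
  filter_upwards [e1, e2, eventually_ge_atTop 1] with n g2 g3 g4 N ha hb' hrep
  have hX0 : (0 : ℝ) < 2 ^ n := by positivity
  have hN0 : 0 < N := by linarith
  have hnpos : (0 : ℝ) < n := by exact_mod_cast g4
  refine hrep.mono (fun _ h => h) ?_ ?_
  · have s1 : (2 * (2 : ℝ) ^ n) ^ (-γ) ≤ N ^ (-γ) :=
      Real.rpow_le_rpow_of_nonpos hN0 hb' (by linarith)
    refine le_trans ?_ s1
    rw [pow_one] at g2
    rw [Real.mul_rpow (by norm_num) hX0.le, Real.rpow_neg (by norm_num : (0:ℝ) ≤ 2) γ]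
    have s2 : ((2 : ℝ) ^ n) ^ (γ' - γ) * ((2 : ℝ) ^ n) ^ (-(γ' : ℝ)) = ((2 : ℝ) ^ n) ^ (-γ) := by
      rw [← Real.rpow_add hX0]; congr 1; ring
    rw [← s2]
    have h2g : (0 : ℝ) < 2 ^ γ := by positivity
    have hp : (0 : ℝ) < ((2 : ℝ) ^ n) ^ (-(γ' : ℝ)) := by positivity
    calc (n : ℝ) * ((2 : ℝ) ^ n) ^ (-(γ' : ℝ)) = (2 ^ γ)⁻¹ * ((2 ^ γ * n) * ((2 : ℝ) ^ n) ^ (-(γ' : ℝ))) := by
          field_simp
      _ ≤ (2 ^ γ)⁻¹ * (((2 : ℝ) ^ n) ^ ((γ' : ℝ) - γ) * ((2 : ℝ) ^ n) ^ (-(γ' : ℝ))) := by gcongr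
  · set y := q - 1 - γ - ε with hy
    have s1 : N ^ y ≤ 2 ^ |y| * ((2 : ℝ) ^ n) ^ y := by
      rcases le_or_gt 0 y with h | h
      · rw [abs_of_nonneg h, ← Real.mul_rpow (by norm_num) hX0.le]
        exact Real.rpow_le_rpow hN0.le hb' h
      · calc N ^ y ≤ ((2 : ℝ) ^ n) ^ y := Real.rpow_le_rpow_of_nonpos hX0 ha h.le
          _ ≤ 2 ^ |y| * ((2 : ℝ) ^ n) ^ y := by
            have : (1 : ℝ) ≤ 2 ^ |y| := Real.one_le_rpow (by norm_num) (abs_nonneg _)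
            have h' : 0 < ((2 : ℝ) ^ n) ^ y := by positivity
            nlinarith
    refine s1.trans ?_
    have s2 : ((2 : ℝ) ^ n) ^ (q - 1 - (γ' : ℝ)) = ((2 : ℝ) ^ n) ^ (ε + γ - γ') * ((2 : ℝ) ^ n) ^ y := by
      rw [← Real.rpow_add hX0]; congr 1; rw [hy]; ring
    rw [s2, ← mul_assoc]
    refine mul_le_mul_of_nonneg_right ?_ (by positivity)
    rw [div_mul_eq_mul_div, div_le_iff₀ hc] at g3
    rw [inv_pow]
    rw [mul_assoc, mul_comm _ (((2 : ℝ) ^ n) ^ (ε + γ - γ')), ← mul_assoc, ← div_eq_mul_inv,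
      le_div_iff₀ (by positivity)]
    linarith

/-- from dyadic scales to all large real `Y`, almost all version -/
theorem wrap_aa {ι : Type*} (S : (ι → ℕ) → ℝ) (P : (ι → ℕ) → Prop) (q g0 : ℝ)
    (h : ∀ γ : ℚ, 0 ≤ γ → (γ : ℝ) < g0 → ∃ c : ℝ, 0 < c ∧ ∃ b : ℕ, ∃ C : ℝ, 0 < C ∧ ∃ b' : ℕ,
      ∀ᶠ n : ℕ in atTop, volume {N : ℝ | ((2 : ℝ) ^ n ≤ N ∧ N ≤ 2 * (2 : ℝ) ^ n) ∧
        ¬ Rep S P N (n * ((2 : ℝ) ^ n) ^ (-(γ : ℝ))) (c * (n : ℝ)⁻¹ ^ b * ((2 : ℝ) ^ n) ^ (q - 1 - γ))} ≤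
        ENNReal.ofReal (C * (n : ℝ) ^ b' * ((2 : ℝ) ^ n) ^ (2 + γ - q)))
    (γ : ℝ) (hγ : 0 ≤ γ) (hγη : γ < g0) (ε : ℝ) (hε : 0 < ε) :
    ∀ᶠ Y : ℝ in atTop, volume {N : ℝ | (Y ≤ N ∧ N ≤ 2 * Y) ∧
      ¬ Rep S P N (N ^ (-γ)) (N ^ (q - 1 - γ - ε))} ≤ ENNReal.ofReal (Y ^ (2 + γ - q + ε)) := by
  obtain ⟨γ', h1, h2⟩ := exists_rat_btwn (lt_min hγη (by linarith : γ < γ + ε / 2))
  have h2a : (γ' : ℝ) < g0 := h2.trans_le (min_le_left _ _)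
  have h2b : (γ' : ℝ) < γ + ε / 2 := h2.trans_le (min_le_right _ _)
  obtain ⟨c, hc, b, C, hC, b', hn⟩ := h γ' (by exact_mod_cast (hγ.trans h1.le)) h2a
  have hpt := wrap_pt S P q γ γ' ε c b hγ h1 (by linarith) hc
  set z : ℝ := 2 + γ - q + ε with hz
  -- bound for the measure at scale n
  have e3 := poly_le_geom b' (C * 2 * 2 ^ |z|) (ε + γ - γ') (by linarith)
  obtain ⟨n1, hn1⟩ := eventually_atTop.mp (hn.and (hpt.and e3))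
  filter_upwards [eventually_ge_atTop ((2 : ℝ) ^ (n1 + 1))] with Y hY
  have hY1 : 1 ≤ Y := le_trans (one_le_pow₀ (by norm_num)) hY
  have hY0 : 0 < Y := by linarith
  obtain ⟨n, ha, hb⟩ := exists_nat_pow_near hY1 (show (1 : ℝ) < 2 by norm_num)
  have hnn1 : n1 ≤ n := by
    by_contra hcon
    have : n + 1 ≤ n1 + 1 := by omega
    have := pow_le_pow_right₀ (show (1 : ℝ) ≤ 2 by norm_num) this
    linarith
  -- one block
  have block : ∀ m, n1 ≤ m → (2 : ℝ) ^ m ≤ 2 * Y → Y ≤ 2 * (2 : ℝ) ^ m →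
      volume {N : ℝ | ((2 : ℝ) ^ m ≤ N ∧ N ≤ 2 * (2 : ℝ) ^ m) ∧
        ¬ Rep S P N (N ^ (-γ)) (N ^ (q - 1 - γ - ε))} ≤ ENNReal.ofReal (Y ^ z / 2) := by
    intro m hm hm1 hm2
    obtain ⟨g1, g2, g3⟩ := hn1 m hm
    have hX0 : (0 : ℝ) < 2 ^ m := by positivity
    refine le_trans (measure_mono ?_) (g1.trans (ENNReal.ofReal_le_ofReal ?_))
    · rintro N ⟨hN, hrep⟩
      exact ⟨hN, fun hr => hrep (g2 N hN.1 hN.2 hr)⟩
    · have s1 : ((2 : ℝ) ^ m) ^ z ≤ 2 ^ |z| * Y ^ z := by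
        rcases le_or_gt 0 z with hz0 | hz0
        · rw [abs_of_nonneg hz0, ← Real.mul_rpow (by norm_num) hY0.le]
          exact Real.rpow_le_rpow hX0.le hm1 hz0
        · rw [abs_of_neg hz0, Real.rpow_neg (by norm_num : (0:ℝ) ≤ 2), ← Real.inv_rpow (by norm_num),
            ← Real.mul_rpow (by norm_num) hY0.le]
          exact Real.rpow_le_rpow_of_nonpos (by positivity) (by linarith) hz0.le
      have s2 : ((2 : ℝ) ^ m) ^ (2 + (γ' : ℝ) - q) * ((2 : ℝ) ^ m) ^ (ε + γ - γ') = ((2 : ℝ) ^ m) ^ z := by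
        rw [← Real.rpow_add hX0]; congr 1; rw [hz]; ring
      have hw : 0 < ((2 : ℝ) ^ m) ^ (2 + (γ' : ℝ) - q) := by positivity
      have h2z : (0 : ℝ) < 2 ^ |z| := by positivity
      have s3 : C * (m : ℝ) ^ b' * 2 * 2 ^ |z| ≤ ((2 : ℝ) ^ m) ^ (ε + γ - γ') := by linarith
      have s4 : (C * (m : ℝ) ^ b' * ((2 : ℝ) ^ m) ^ (2 + (γ' : ℝ) - q)) * (2 * 2 ^ |z|) ≤ 2 ^ |z| * Y ^ z := by
        calc (C * (m : ℝ) ^ b' * ((2 : ℝ) ^ m) ^ (2 + (γ' : ℝ) - q)) * (2 * 2 ^ |z|)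
            = ((2 : ℝ) ^ m) ^ (2 + (γ' : ℝ) - q) * (C * (m : ℝ) ^ b' * 2 * 2 ^ |z|) := by ring
          _ ≤ ((2 : ℝ) ^ m) ^ (2 + (γ' : ℝ) - q) * ((2 : ℝ) ^ m) ^ (ε + γ - γ') := by gcongr
          _ = ((2 : ℝ) ^ m) ^ z := s2
          _ ≤ _ := s1
      rw [le_div_iff₀ (by norm_num)]
      have s5 : (C * (m : ℝ) ^ b' * ((2 : ℝ) ^ m) ^ (2 + (γ' : ℝ) - q) * 2) * 2 ^ |z| ≤ Y ^ z * 2 ^ |z| := by
        linarith
      exact le_of_mul_le_mul_right s5 h2z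
  have hsub : {N : ℝ | (Y ≤ N ∧ N ≤ 2 * Y) ∧ ¬ Rep S P N (N ^ (-γ)) (N ^ (q - 1 - γ - ε))} ⊆
      {N : ℝ | ((2 : ℝ) ^ n ≤ N ∧ N ≤ 2 * (2 : ℝ) ^ n) ∧ ¬ Rep S P N (N ^ (-γ)) (N ^ (q - 1 - γ - ε))} ∪
      {N : ℝ | ((2 : ℝ) ^ (n + 1) ≤ N ∧ N ≤ 2 * (2 : ℝ) ^ (n + 1)) ∧
        ¬ Rep S P N (N ^ (-γ)) (N ^ (q - 1 - γ - ε))} := by
    rintro N ⟨⟨hN1, hN2⟩, hN3⟩
    rw [pow_succ] at hb
    rcases le_or_gt N (2 * 2 ^ n) with h' | h'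
    · exact Or.inl ⟨⟨ha.trans hN1, h'⟩, hN3⟩
    · refine Or.inr ⟨⟨?_, ?_⟩, hN3⟩
      · rw [pow_succ]; linarith
      · rw [pow_succ]; linarith
  refine (measure_mono hsub).trans ((measure_union_le _ _).trans ?_)
  have b1 := block n hnn1 (by linarith) (by rw [pow_succ] at hb; linarith)
  have b2 := block (n + 1) (by omega) (by rw [pow_succ]; linarith) (by linarith)
  refine (add_le_add b1 b2).trans (le_of_eq ?_)
  rw [← ENNReal.ofReal_add (by positivity) (by positivity)]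
  congr 1
  ring

/-- the pivot window for coefficients -/
lemma pivot_coef (P : Set ℕ) (hP : Dense P) (κ a : ℝ) (hκ : 1 ≤ κ) (ha : 0 < a) :
    ∃ d0 : ℝ, 0 < d0 ∧ ∀ d : ℝ, 0 < d → d < d0 → ∃ c : ℝ, 0 < c ∧ ∃ n0 : ℕ, 1 ≤ n0 ∧
      ∀ n : ℕ, n0 ≤ n → ∀ t : ℝ, a ≤ t → t ≤ a + 1 → ∀ y : ℝ, (2 : ℝ) ^ n / 2 ≤ y → y ≤ 2 * (2 : ℝ) ^ n →
        c * (n : ℝ)⁻¹ * ((2 : ℝ) ^ n) ^ (-d) *
          ((J P ((1 / (2 * (a + 1)) * 2 ^ n) ^ κ⁻¹) ((2 * (4 * (a + 1) / a) ^ κ⁻¹) *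
            (1 / (2 * (a + 1)) * 2 ^ n) ^ κ⁻¹)).card : ℝ) ≤
        (((J P ((1 / (2 * (a + 1)) * 2 ^ n) ^ κ⁻¹) ((2 * (4 * (a + 1) / a) ^ κ⁻¹) *
            (1 / (2 * (a + 1)) * 2 ^ n) ^ κ⁻¹)).filter
          fun x : ℕ => |t * (x : ℝ) ^ κ - y| ≤ ((2 : ℝ) ^ n) ^ (1 - d)).card : ℝ) := by
  have hκ0 : 0 < κ := by linarith
  obtain ⟨d0, hd0, hwin⟩ := win P hP κ⁻¹ (by positivity)
  refine ⟨d0, hd0, fun d hd hdd => ?_⟩
  obtain ⟨l, hl⟩ : ∃ l : ℝ, l = 1 / (2 * (a + 1)) := ⟨_, rfl⟩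
  obtain ⟨R, hR⟩ : ∃ R : ℝ, R = 2 * (4 * (a + 1) / a) ^ κ⁻¹ := ⟨_, rfl⟩
  rw [← hl, ← hR]
  have hl0 : 0 < l := by rw [hl]; positivity
  have hR2 : 2 ≤ R := by
    have h1 : (1 : ℝ) ≤ (4 * (a + 1) / a) ^ κ⁻¹ := by
      apply Real.one_le_rpow
      · rw [le_div_iff₀ ha]; linarith
      · positivity
    rw [hR]; linarith
  have hR0 : 0 < R := by linarith
  have h2κ : (1 : ℝ) ≤ 2 ^ κ := Real.one_le_rpow (by norm_num) (by linarith)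
  obtain ⟨c5, hc5⟩ : ∃ c5 : ℝ, c5 = 1 / (κ * 2 ^ κ * 2) := ⟨_, rfl⟩
  have hc50 : 0 < c5 := by rw [hc5]; positivity
  have hc5' : c5 ≤ 1 / 2 := by
    rw [hc5]
    apply one_div_le_one_div_of_le (by norm_num)
    nlinarith
  obtain ⟨cw, hcw, nw, hnw, hwin'⟩ := hwin d hd hdd (l ^ κ⁻¹) c5 (max 1 (2 / a))
    (by positivity) hc50 hc5' (by positivity)
  refine ⟨cw / R, by positivity, nw, hnw, ?_⟩
  intro n hn t ht1 ht2 y hy1 hy2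
  have hX : (0 : ℝ) < 2 ^ n := by positivity
  have hX1 : (1 : ℝ) ≤ 2 ^ n := one_le_pow₀ (by norm_num)
  have hn1 : 1 ≤ n := hnw.trans hn
  have hnpos : (0 : ℝ) < n := by exact_mod_cast hn1
  have ht0 : 0 < t := by linarith
  have hy0 : 0 < y := by linarith
  obtain ⟨Q, hQ⟩ : ∃ Q : ℝ, Q = (l * 2 ^ n) ^ κ⁻¹ := ⟨_, rfl⟩
  rw [← hQ]
  have hQ0 : 0 < Q := by rw [hQ]; positivity
  obtain ⟨z, hz⟩ : ∃ z : ℝ, z = (y / t) ^ κ⁻¹ := ⟨_, rfl⟩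
  have hκi : 0 ≤ κ⁻¹ := by positivity
  have hzQ : Q ≤ z := by
    rw [hQ, hz]
    apply Real.rpow_le_rpow (by positivity) _ hκi
    rw [hl, le_div_iff₀ ht0]
    calc 1 / (2 * (a + 1)) * 2 ^ n * t ≤ 1 / (2 * (a + 1)) * 2 ^ n * (a + 1) := by gcongr
      _ = 2 ^ n / 2 := by field_simp
      _ ≤ y := hy1
  have hz0 : 0 < z := hQ0.trans_le hzQ
  have hz2 : 2 * z ≤ R * Q := by
    have e1 : (4 * (a + 1) / a) ^ κ⁻¹ * Q = (2 * 2 ^ n / a) ^ κ⁻¹ := by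
      rw [hQ, ← Real.mul_rpow (by positivity) (by positivity), hl]
      congr 1
      field_simp
      ring
    rw [hR, mul_assoc, e1]
    have : z ≤ (2 * 2 ^ n / a) ^ κ⁻¹ := by
      rw [hz]
      apply Real.rpow_le_rpow (by positivity) _ hκi
      exact div_le_div₀ (by positivity) hy2 ha ht1
    linarith
  have hzκ : z ^ κ = y / t := by rw [hz]; exact rpow_inv_pow hκ (by positivity)
  have hz6 : z ≤ max 1 (2 / a) * 2 ^ n := by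
    have h1 : z ≤ (2 / a * 2 ^ n) ^ κ⁻¹ := by
      rw [hz]
      apply Real.rpow_le_rpow (by positivity) _ hκi
      rw [div_mul_eq_mul_div]
      exact div_le_div₀ (by positivity) hy2 ha ht1
    exact h1.trans (rpow_inv_le hκ (by positivity) hX1)
  have hζ : l ^ κ⁻¹ * ((2 : ℝ) ^ n) ^ κ⁻¹ ≤ z := by
    rw [← Real.mul_rpow hl0.le hX.le, ← hQ]; exact hzQ
  have hw := hwin' n hn z hζ hz6
  obtain ⟨h, hh⟩ : ∃ h : ℝ, h = c5 * z * ((2 : ℝ) ^ n) ^ (-d) := ⟨_, rfl⟩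
  rw [← hh] at hw
  have hXd : ((2 : ℝ) ^ n) ^ (-d) ≤ 1 := Real.rpow_le_one_of_one_le_of_nonpos hX1 (by linarith)
  have hXd0 : 0 < ((2 : ℝ) ^ n) ^ (-d) := by positivity
  have hh0 : 0 < h := by rw [hh]; positivity
  have hhz : h ≤ z := by
    calc h ≤ 1 / 2 * z * 1 := by rw [hh]; gcongr
      _ ≤ z := by linarith
  have hcard : ((J P Q (R * Q)).card : ℝ) ≤ R * z := by
    refine (J_card_le _ (by positivity)).trans ?_
    gcongr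
  calc cw / R * (n : ℝ)⁻¹ * ((2 : ℝ) ^ n) ^ (-d) * ((J P Q (R * Q)).card : ℝ)
      ≤ cw / R * (n : ℝ)⁻¹ * ((2 : ℝ) ^ n) ^ (-d) * (R * z) := by gcongr
    _ = cw * z * ((2 : ℝ) ^ n) ^ (-d) / n := by field_simp
    _ ≤ ((J P z (z + h)).card : ℝ) := hw
    _ ≤ _ := by
        refine Nat.cast_le.mpr (Finset.card_le_card fun x hx => ?_)
        rw [mem_J hz0.le (by positivity)] at hx
        rw [Finset.mem_filter]
        refine ⟨?_, ?_⟩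
        · rw [mem_J hQ0.le (by positivity)]
          exact ⟨lt_of_le_of_lt hzQ hx.1, by linarith [hx.2.1], hx.2.2⟩
        · have hx0 : (0 : ℝ) < x := hz0.trans hx.1
          have u1 : (0 : ℝ) ≤ (x : ℝ) ^ κ - z ^ κ :=
            sub_nonneg.mpr (Real.rpow_le_rpow hz0.le hx.1.le (by linarith))
          have u2 := rpow_diff_le hκ hz0 hx.1.le
          have u3 : t * (x : ℝ) ^ κ - y = t * ((x : ℝ) ^ κ - z ^ κ) := by
            rw [hzκ]; field_simp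
          rw [u3, abs_of_nonneg (by positivity)]
          have u4 : (x : ℝ) ^ (κ - 1) ≤ (2 * z) ^ (κ - 1) :=
            Real.rpow_le_rpow hx0.le (by linarith [hx.2.1]) (by linarith)
          have u5 : (2 * z) ^ (κ - 1) * z = 2 ^ κ / 2 * z ^ κ := by
            rw [Real.mul_rpow (by norm_num) hz0.le, Real.rpow_sub_one (by norm_num),
              Real.rpow_sub_one hz0.ne']
            field_simp
          have u6 : (x : ℝ) - z ≤ h := by linarith [hx.2.1]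
          have u7 : 0 ≤ (x : ℝ) - z := by linarith [hx.1]
          calc t * ((x : ℝ) ^ κ - z ^ κ)
              ≤ t * (κ * (x : ℝ) ^ (κ - 1) * ((x : ℝ) - z)) := by gcongr
            _ ≤ t * (κ * (2 * z) ^ (κ - 1) * h) := by gcongr
            _ = t * (κ * ((2 * z) ^ (κ - 1) * z) * (c5 * ((2 : ℝ) ^ n) ^ (-d))) := by
                rw [hh]; ring
            _ = y * (κ * (2 ^ κ / 2) * c5) * ((2 : ℝ) ^ n) ^ (-d) := by
                rw [u5, hzκ]; field_simp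
            _ = y * (1 / 4) * ((2 : ℝ) ^ n) ^ (-d) := by
                rw [hc5]
                field_simp
                norm_num
            _ ≤ 2 * 2 ^ n * (1 / 4) * ((2 : ℝ) ^ n) ^ (-d) := by gcongr
            _ ≤ 2 ^ n * ((2 : ℝ) ^ n) ^ (-d) := by
                have : 0 < (2 : ℝ) ^ n * ((2 : ℝ) ^ n) ^ (-d) := by positivity
                linarith
            _ = ((2 : ℝ) ^ n) ^ (1 - d) := by
                rw [sub_eq_add_neg, Real.rpow_add hX, Real.rpow_one]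

/-- a variable which is not the pivot -/
lemma other_coef (P : Set ℕ) (κ a s : ℝ) (hκ : 1 ≤ κ) (ha : 0 < a) (hs : 1 ≤ s) (n : ℕ) (t : ℝ)
    (ht1 : a ≤ t) (ht2 : t ≤ a + 1) (x : ℕ)
    (hx : x ∈ J P ((1 / ((a + 1) * (2 : ℝ) ^ κ * (2 * s)) * 2 ^ n) ^ κ⁻¹)
      (3 / 2 * (1 / ((a + 1) * (2 : ℝ) ^ κ * (2 * s)) * 2 ^ n) ^ κ⁻¹)) :
    0 ≤ t * (x : ℝ) ^ κ ∧ t * (x : ℝ) ^ κ * (2 * s) ≤ (2 : ℝ) ^ n := by
  obtain ⟨l, hl⟩ : ∃ l : ℝ, l = 1 / ((a + 1) * (2 : ℝ) ^ κ * (2 * s)) := ⟨_, rfl⟩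
  have hl0 : 0 < l := by rw [hl]; positivity
  obtain ⟨Q, hQ⟩ : ∃ Q : ℝ, Q = (l * 2 ^ n) ^ κ⁻¹ := ⟨_, rfl⟩
  have hQ0 : 0 < Q := by rw [hQ]; positivity
  rw [← hl, ← hQ, mem_J hQ0.le (by positivity)] at hx
  have hx0 : (0 : ℝ) < x := hQ0.trans hx.1
  have hQκ : Q ^ κ = l * 2 ^ n := by rw [hQ]; exact rpow_inv_pow hκ (by positivity)
  refine ⟨by have : 0 < t := by linarith
             positivity, ?_⟩
  have h2 : (x : ℝ) ^ κ ≤ (2 * Q) ^ κ := by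
    apply Real.rpow_le_rpow hx0.le _ (by linarith)
    linarith [hx.2.1]
  rw [Real.mul_rpow (by norm_num) hQ0.le, hQκ, hl] at h2
  have h2κ' : (0 : ℝ) < 2 ^ κ := by positivity
  calc t * (x : ℝ) ^ κ * (2 * s) ≤ (a + 1) * (2 ^ κ * (1 / ((a + 1) * (2 : ℝ) ^ κ * (2 * s)) * 2 ^ n)) * (2 * s) := by
        gcongr
    _ = 2 ^ n := by field_simp
    _ ≤ 2 ^ n := le_rfl

end Pool.Agent.Q83.WG
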