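import Mathlib
import Pool.Agent.Q83.WG.AB

/-!
# Generic coefficients: almost all targets, main theorem
-/

set_option autoImplicit false
set_option linter.unusedSectionVars false

open MeasureTheory Filter Topology Set
open scoped ENNReal
open Pool.Agent.H469R2.NK (e norm_e e_add conj_e e_zero)

namespace Pool.Agent.Q83.WG

variable {ι : Type*} [Fintype ι] [DecidableEq ι]

lemma sqrt_rpow {y z : ℝ} (hy : 0 < y) : Real.sqrt (y ^ (-z)) = y ^ (-(z / 2)) := by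
  rw [Real.sqrt_eq_rpow, ← Real.rpow_mul hy.le]
  congr 1
  ring

theorem coef_aa_box (P : ι → Set ℕ) (hP : ∀ i, Dense (P i)) (κ : ι → ℝ) (hκ : ∀ i, 1 ≤ κ i)
    (hsum : 1 < ∑ i, (κ i)⁻¹) (hmax : ∀ i, 2 * (κ i)⁻¹ < ∑ i, (κ i)⁻¹) (a : ι → ℝ) (ha : ∀ i, 0 < a i) :
    ∀ᵐ α ∂(Measure.pi fun i => U (a i)),
      ∀ γ : ℝ, 0 ≤ γ → ∀ ε : ℝ, 0 < ε → ∀ᶠ Y : ℝ in atTop,
        volume {N : ℝ | (Y ≤ N ∧ N ≤ 2 * Y) ∧
          ¬ Rep (fun x : ι → ℕ => ∑ i, α i * (x i : ℝ) ^ κ i) (fun x => ∀ i, x i ∈ P i ∧ 0 < x i) N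
          (N ^ (-γ)) (N ^ ((∑ i, (κ i)⁻¹) - 1 - γ - ε))} ≤
        ENNReal.ofReal (Y ^ (2 + γ - (∑ i, (κ i)⁻¹) + ε)) := by
  classical
  set q : ℝ := ∑ i, (κ i)⁻¹ with hq
  have hnonempty : Nonempty ι := by
    by_contra hne
    rw [not_nonempty_iff] at hne
    rw [hq, Finset.univ_eq_empty, Finset.sum_empty] at hsum
    linarith
  obtain ⟨i0, hi0⟩ := Finite.exists_max (fun i => (κ i)⁻¹)
  set pm : ℝ := (κ i0)⁻¹ with hpm
  have hpm0 : 0 < pm := by have := hκ i0; rw [hpm]; positivity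
  have hpm1 : pm ≤ 1 := inv_le_one_of_one_le₀ (hκ i0)
  set η : ℝ := q / (2 * pm) - 1 with hη
  have hη0 : 0 < η := by
    have : 1 < q / (2 * pm) := by
      rw [lt_div_iff₀ (by positivity)]
      have := hmax i0
      linarith
    rw [hη]; linarith
  -- pivot data
  obtain ⟨d0, hd0, hpiv⟩ := pivot_coef (P i0) (hP i0) (κ i0) (a i0) (hκ i0) (ha i0)
  obtain ⟨d, hd, hdd, hd1⟩ : ∃ d : ℝ, 0 < d ∧ d < d0 ∧ d ≤ 1 :=
    ⟨min (d0 / 2) 1, by positivity, by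
      have := min_le_left (d0 / 2) 1
      linarith, min_le_right _ _⟩
  obtain ⟨cw, hcw, nw, hnw, hpiv'⟩ := hpiv d hd hdd
  set s : ℝ := (Fintype.card ι : ℝ) with hs
  have hs1 : 1 ≤ s := by
    rw [hs]; exact_mod_cast Fintype.card_pos_iff.mpr ⟨i0⟩
  set l : ι → ℝ := fun i => if i = i0 then 1 / (2 * (a i + 1)) else
    1 / ((a i + 1) * (2 : ℝ) ^ κ i * (2 * s)) with hl
  set Rr : ι → ℝ := fun i => if i = i0 then 2 * (4 * (a i + 1) / a i) ^ (κ i)⁻¹ else 3 / 2 with hRr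
  have hl0 : ∀ i, 0 < l i := by
    intro i
    have := ha i
    simp only [hl]
    split_ifs <;> positivity
  have hR : ∀ i, 3 / 2 ≤ Rr i := by
    intro i
    simp only [hRr]
    split_ifs
    · have h1 : (1 : ℝ) ≤ (4 * (a i + 1) / a i) ^ (κ i)⁻¹ := by
        apply Real.one_le_rpow
        · rw [le_div_iff₀ (ha i)]
          have := ha i
          linarith
        · have := hκ i; positivity
      linarith
    · exact le_rfl
  set Q : ℕ → ι → ℝ := fun n i => (l i * 2 ^ n) ^ (κ i)⁻¹ with hQ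
  set I : ℕ → ι → Finset ℕ := fun n i => J (P i) (Q n i) (Rr i * Q n i) with hI
  set φ : ι → ℕ → ℝ → ℝ := fun i x t => t * (x : ℝ) ^ κ i with hφ
  have hφm : ∀ i x, Measurable (φ i x) := fun i x => measurable_id.mul_const _
  have hX1 : ∀ n : ℕ, (1 : ℝ) ≤ 2 ^ n := fun n => one_le_pow₀ (by norm_num)
  have hX0 : ∀ n : ℕ, (0 : ℝ) < 2 ^ n := fun n => by positivity
  have hQ0 : ∀ n i, 0 < Q n i := fun n i => by
    simp only [hQ]; have := hl0 i; positivity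
  have hπ := Real.pi_pos
  -- mean squares
  have hms : ∀ i, ∃ C c1 : ℝ, 1 ≤ C ∧ 0 < c1 ∧ ∃ n0 : ℕ, 1 ≤ n0 ∧ ∀ n : ℕ, n0 ≤ n →
      (I n i).Nonempty ∧ c1 * Q n i / n ≤ ((I n i).card : ℝ) ∧
      (∀ θ : ℝ, 0 < θ → ∀ y : ℝ, 0 < y → ((2 : ℝ) ^ n) ^ (-(κ i)⁻¹) ≤ y → 1 / (θ * 2 ^ n) ≤ y →
          Real.sqrt (A (fun i => U (a i)) (I n) φ i θ) ≤
          (C * n) * (I n i).card * Real.sqrt y) := by
    intro i
    have hκi := hκ i
    obtain ⟨C, c1, hC, hc1, n0, hn0, h⟩ := ms_scale2 (P i) (hP i) (κ i)⁻¹ (1 / (Real.pi * l i))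
      (l i ^ (κ i)⁻¹) (max 1 (l i)) (Rr i) (by positivity)
      (by have := hl0 i; positivity) (by have := hl0 i; positivity) (by positivity) (hR i)
    refine ⟨C, c1, hC, hc1, n0, hn0, fun n hn => ?_⟩
    obtain ⟨g1, g2, g3⟩ := h n hn (Q n i)
      (by simp only [hQ]; rw [Real.mul_rpow (hl0 i).le (hX0 n).le])
      (by simp only [hQ]; exact rpow_inv_le hκi (hl0 i) (hX1 n))
    refine ⟨g1, g2, fun θ hθ y hy hy1 hy2 => ?_⟩
    exact g3 (U (a i)) (φ i) (hφm i) θ hθ (fun x hx y hy hxy =>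
        osc_hyp (P i) (κ i) (l i) (2 ^ n) (Rr i) (a i) θ hκi (hl0 i) (hX1 n) (hR i) hθ x y hx hy hxy)
        y hy hy1 hy2
  choose C c1 hC hc1 n0 hn0 hms' using hms
  set nn : ℕ := ∑ i, n0 i + nw with hnn
  have hnn0 : ∀ n, nn ≤ n → ∀ i, n0 i ≤ n := by
    intro n hn i
    have := Finset.single_le_sum (f := n0) (fun j _ => Nat.zero_le _) (Finset.mem_univ i)
    omega
  have hnnw : ∀ n, nn ≤ n → nw ≤ n := fun n hn => by omega
  have hnn1 : 1 ≤ nn := by omega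
  set CC : ℝ := ∑ i, C i with hCC
  have hCi : ∀ i, C i ≤ CC := fun i =>
    Finset.single_le_sum (f := C) (fun j _ => by linarith [hC j]) (Finset.mem_univ i)
  have hCC1 : 1 ≤ CC := (hC i0).trans (hCi i0)
  have hbad : ∀ γ : ℚ, 0 ≤ γ → ∀ᵐ t ∂(Measure.pi fun i => U (a i)),
      ∀ᶠ n : ℕ in atTop,
      Lo (I n) φ ((2 : ℝ) ^ n) d γ pm t ≤
        ENNReal.ofReal (cw / (4 * Real.exp Real.pi) * (n : ℝ)⁻¹ * (∏ i, ((I n i).card : ℝ)) / 2 ^ n) ∧
      Hi (I n) φ ((2 : ℝ) ^ n) d γ pm t ≤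
        ENNReal.ofReal ((n : ℝ) ^ 2 * ((CC * n) ^ Fintype.card ι * (∏ i, ((I n i).card : ℝ))) ^ 2 *
          ((2 : ℝ) ^ n) ^ (γ - q)) := by
    intro γ hγ0
    refine bad_rare_aa (fun i => U (a i)) φ hφm I (fun i => (κ i)⁻¹) (fun i => (κ i)⁻¹ / pm) q η d γ pm
      CC (cw / (4 * Real.exp Real.pi)) nn hd hd1
      (by exact_mod_cast hγ0) hη0 hCC1 (by positivity) rfl ?_ hnn1 ?_ ?_ ?_
    · rw [← Finset.sum_div, ← hq, hη]; field_simp; ring
    · intro n hn i; exact (hms' i n (hnn0 n hn i)).1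
    · intro n hn i θ hθ1 hθ2
      have hX := hX0 n
      have hθ0 : 0 < θ := lt_of_lt_of_le (by positivity) hθ1
      have hpi0 : 0 < (κ i)⁻¹ := by have := hκ i; positivity
      have hpi1 : (κ i)⁻¹ / pm ≤ 1 := by rw [div_le_one hpm0]; exact hi0 i
      have hθX1 : 1 ≤ θ * 2 ^ n := by
        have h1 : ((2 : ℝ) ^ n)⁻¹ ≤ θ := by
          refine le_trans ?_ hθ1
          rw [← Real.rpow_neg_one]
          exact Real.rpow_le_rpow_of_exponent_le (hX1 n) (by linarith)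
        have := mul_le_mul_of_nonneg_right h1 hX.le
        rwa [inv_mul_cancel₀ hX.ne'] at this
      have hθX0 : 0 < θ * 2 ^ n := by linarith
      have hθX2 : θ * 2 ^ n ≤ ((2 : ℝ) ^ n) ^ pm := by
        calc θ * 2 ^ n ≤ ((2 : ℝ) ^ n) ^ (-1 + pm) * 2 ^ n := by gcongr
          _ = ((2 : ℝ) ^ n) ^ pm := by
              nth_rewrite 2 [← Real.rpow_one ((2 : ℝ) ^ n)]
              rw [← Real.rpow_add hX]; congr 1; ring
      have h2 := (hms' i n (hnn0 n hn i)).2.2 θ hθ0 ((θ * 2 ^ n) ^ (-((κ i)⁻¹ / pm))) (by positivity) (by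
        calc ((2 : ℝ) ^ n) ^ (-(κ i)⁻¹) = (((2 : ℝ) ^ n) ^ pm) ^ (-((κ i)⁻¹ / pm)) := by
              rw [← Real.rpow_mul hX.le]; congr 1; field_simp
          _ ≤ (θ * 2 ^ n) ^ (-((κ i)⁻¹ / pm)) :=
              Real.rpow_le_rpow_of_nonpos hθX0 hθX2 (by
                have : 0 ≤ (κ i)⁻¹ / pm := by positivity
                linarith)) (by
        rw [one_div, ← Real.rpow_neg_one]
        exact Real.rpow_le_rpow_of_exponent_le hθX1 (by linarith))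
      rw [sqrt_rpow hθX0] at h2
      refine h2.trans ?_
      have : 0 ≤ (θ * 2 ^ n) ^ (-((κ i)⁻¹ / pm / 2)) := by positivity
      have h2 := hCi i
      gcongr
    · intro n hn i θ hθ1
      have hX := hX0 n
      have hθ0 : 0 < θ := lt_of_lt_of_le (by positivity) hθ1
      have h2 := (hms' i n (hnn0 n hn i)).2.2 θ hθ0 (((2 : ℝ) ^ n) ^ (-(κ i)⁻¹)) (by positivity) le_rfl (by
        have h3 : ((2 : ℝ) ^ n) ^ pm ≤ θ * 2 ^ n := by
          calc ((2 : ℝ) ^ n) ^ pm = ((2 : ℝ) ^ n) ^ (-1 + pm) * 2 ^ n := by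
                nth_rewrite 3 [← Real.rpow_one ((2 : ℝ) ^ n)]
                rw [← Real.rpow_add hX]; congr 1; ring
            _ ≤ θ * 2 ^ n := by gcongr
        calc 1 / (θ * 2 ^ n) ≤ 1 / ((2 : ℝ) ^ n) ^ pm := one_div_le_one_div_of_le (by positivity) h3
          _ = ((2 : ℝ) ^ n) ^ (-pm) := by rw [Real.rpow_neg hX.le, one_div]
          _ ≤ ((2 : ℝ) ^ n) ^ (-(κ i)⁻¹) :=
              Real.rpow_le_rpow_of_exponent_le (hX1 n) (neg_le_neg (hi0 i)))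
      rw [sqrt_rpow hX] at h2
      refine h2.trans ?_
      have : 0 ≤ ((2 : ℝ) ^ n) ^ (-((κ i)⁻¹ / 2)) := by positivity
      have h2 := hCi i
      gcongr
  have hbad' : ∀ᵐ t ∂(Measure.pi fun i => U (a i)), ∀ γ : ℚ, 0 ≤ γ →
      ∀ᶠ n : ℕ in atTop,
      Lo (I n) φ ((2 : ℝ) ^ n) d γ pm t ≤
        ENNReal.ofReal (cw / (4 * Real.exp Real.pi) * (n : ℝ)⁻¹ * (∏ i, ((I n i).card : ℝ)) / 2 ^ n) ∧
      Hi (I n) φ ((2 : ℝ) ^ n) d γ pm t ≤
        ENNReal.ofReal ((n : ℝ) ^ 2 * ((CC * n) ^ Fintype.card ι * (∏ i, ((I n i).card : ℝ))) ^ 2 *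
          ((2 : ℝ) ^ n) ^ (γ - q)) := by
    rw [ae_all_iff]; intro γ
    by_cases h1 : 0 ≤ γ
    · filter_upwards [hbad γ h1] with t ht _ using ht
    · exact ae_of_all _ fun t h => absurd h h1
  have hbox : ∀ᵐ t ∂(Measure.pi fun i => U (a i)), ∀ i, a i ≤ t i ∧ t i ≤ a i + 1 := by
    have h1 : (Measure.pi fun i => U (a i)) =
        (Measure.pi fun _ : ι => (volume : Measure ℝ)).restrict (Set.pi Set.univ fun i => Icc (a i) (a i + 1)) := by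
      rw [Measure.restrict_pi_pi]; rfl
    rw [h1]
    filter_upwards [ae_restrict_mem (MeasurableSet.univ_pi fun i => measurableSet_Icc)] with t ht i
    exact ht i (Set.mem_univ i)
  filter_upwards [hbad', hbox] with t ht htb γ hγ ε hε
  refine wrap_aa _ _ q (γ + 1) (fun γ' hγ' _ => ?_) γ hγ (by linarith) ε hε
  have hgood := good_scale_aa φ I q d γ' pm CC cw nn i0 hd1 (by exact_mod_cast hγ')
    hcw (by linarith) t hnn1 (fun n hn i => (hms' i n (hnn0 n hn i)).1) ?_ ?_ (ht γ' hγ')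
  · refine ⟨cw / (4 * Real.exp Real.pi) * ∏ i, (c1 i * l i ^ (κ i)⁻¹), ?_, 1 + Fintype.card ι,
      (CC ^ Fintype.card ι * (4 * Real.exp Real.pi) / cw) ^ 2, ?_, 4 + 2 * Fintype.card ι, ?_⟩
    · have h1 : 0 < ∏ i, (c1 i * l i ^ (κ i)⁻¹) := Finset.prod_pos fun i _ => by
        have := hc1 i; have := hl0 i; positivity
      positivity
    · have : 0 < CC := by linarith
      positivity
    · filter_upwards [hgood, eventually_ge_atTop nn] with n hn hnn'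
      refine (measure_mono ?_).trans hn
      rintro N ⟨hN, hrep⟩
      refine ⟨hN, fun hr => hrep (hr.mono ?_ le_rfl ?_)⟩
      · intro x hx i
        have h1 := (mem_J (hQ0 n i).le (by have := hQ0 n i; have := hR i; positivity)).mp (hx i)
        refine ⟨h1.2.2, ?_⟩
        have : (0 : ℝ) < x i := (hQ0 n i).trans h1.1
        exact_mod_cast this
      · have hn1 : 1 ≤ n := hnn1.trans hnn'
        have hnpos : (0 : ℝ) < n := by exact_mod_cast hn1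
        have hprod : (∏ i, (c1 i * l i ^ (κ i)⁻¹)) * (n : ℝ)⁻¹ ^ Fintype.card ι * ((2 : ℝ) ^ n) ^ q ≤
            ∏ i, ((I n i).card : ℝ) := by
          calc (∏ i, (c1 i * l i ^ (κ i)⁻¹)) * (n : ℝ)⁻¹ ^ Fintype.card ι * ((2 : ℝ) ^ n) ^ q
              = ∏ i, (c1 i * Q n i / n) := by
                rw [hq, Real.rpow_sum_of_pos (hX0 n), ← Finset.card_univ, ← Finset.prod_const,
                  ← Finset.prod_mul_distrib, ← Finset.prod_mul_distrib]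
                refine Finset.prod_congr rfl fun i _ => ?_
                simp only [hQ]
                rw [Real.mul_rpow (hl0 i).le (hX0 n).le]
                ring
            _ ≤ ∏ i, ((I n i).card : ℝ) :=
                Finset.prod_le_prod (fun i _ => by have := hc1 i; have := hQ0 n i; positivity)
                  fun i _ => (hms' i n (hnn0 n hnn' i)).2.1
        have e1 : ((2 : ℝ) ^ n) ^ (q - 1 - (γ' : ℝ)) = ((2 : ℝ) ^ n) ^ (-(1 + (γ' : ℝ))) * ((2 : ℝ) ^ n) ^ q := by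
          rw [← Real.rpow_add (hX0 n)]; congr 1; ring
        rw [e1, pow_add, pow_one]
        calc cw / (4 * Real.exp Real.pi) * (∏ i, (c1 i * l i ^ (κ i)⁻¹)) *
              ((n : ℝ)⁻¹ * (n : ℝ)⁻¹ ^ Fintype.card ι) *
              (((2 : ℝ) ^ n) ^ (-(1 + (γ' : ℝ))) * ((2 : ℝ) ^ n) ^ q)
            = cw / (4 * Real.exp Real.pi) * (n : ℝ)⁻¹ * ((2 : ℝ) ^ n) ^ (-(1 + (γ' : ℝ))) *
              ((∏ i, (c1 i * l i ^ (κ i)⁻¹)) * (n : ℝ)⁻¹ ^ Fintype.card ι * ((2 : ℝ) ^ n) ^ q) := by ring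
          _ ≤ _ := by gcongr
  · intro n hn y hy1 hy2
    have := hpiv' n (hnnw n hn) (t i0) (htb i0).1 (htb i0).2 y hy1 hy2
    have e1 : I n i0 = J (P i0) ((1 / (2 * (a i0 + 1)) * 2 ^ n) ^ (κ i0)⁻¹)
        ((2 * (4 * (a i0 + 1) / a i0) ^ (κ i0)⁻¹) * (1 / (2 * (a i0 + 1)) * 2 ^ n) ^ (κ i0)⁻¹) := by
      simp only [hI, hQ, hl, hRr, if_true]
    rw [e1]
    exact this
  · intro n hn i hi x hx
    have e1 : I n i = J (P i) ((1 / ((a i + 1) * (2 : ℝ) ^ κ i * (2 * s)) * 2 ^ n) ^ (κ i)⁻¹)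
        (3 / 2 * (1 / ((a i + 1) * (2 : ℝ) ^ κ i * (2 * s)) * 2 ^ n) ^ (κ i)⁻¹) := by
      simp only [hI, hQ, hl, hRr, hi, if_false]
    rw [e1] at hx
    exact other_coef (P i) (κ i) (a i) s (hκ i) (ha i) hs1 n (t i) (htb i).1 (htb i).2 x hx

/-- **Generic coefficients, almost all targets.** -/
theorem coef_aa_main (P : ι → Set ℕ) (hP : ∀ i, Dense (P i)) (κ : ι → ℝ) (hκ : ∀ i, 1 ≤ κ i)
    (hsum : 1 < ∑ i, (κ i)⁻¹) (hmax : ∀ i, 2 * (κ i)⁻¹ < ∑ i, (κ i)⁻¹) :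
    ∀ᵐ α : ι → ℝ, (∀ i, 0 < α i) →
      ∀ γ : ℝ, 0 ≤ γ → ∀ ε : ℝ, 0 < ε → ∀ᶠ Y : ℝ in atTop,
        volume {N : ℝ | (Y ≤ N ∧ N ≤ 2 * Y) ∧
          ¬ Rep (fun x : ι → ℕ => ∑ i, α i * (x i : ℝ) ^ κ i) (fun x => ∀ i, x i ∈ P i ∧ 0 < x i) N
          (N ^ (-γ)) (N ^ ((∑ i, (κ i)⁻¹) - 1 - γ - ε))} ≤
        ENNReal.ofReal (Y ^ (2 + γ - (∑ i, (κ i)⁻¹) + ε)) := by
  classical
  have h : ∀ a : ι → ℚ, ∀ᵐ α : ι → ℝ, (∀ i, 0 < a i) → (∀ i, (a i : ℝ) ≤ α i ∧ α i ≤ a i + 1) →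
      ∀ γ : ℝ, 0 ≤ γ → ∀ ε : ℝ, 0 < ε → ∀ᶠ Y : ℝ in atTop,
        volume {N : ℝ | (Y ≤ N ∧ N ≤ 2 * Y) ∧
          ¬ Rep (fun x : ι → ℕ => ∑ i, α i * (x i : ℝ) ^ κ i) (fun x => ∀ i, x i ∈ P i ∧ 0 < x i) N
          (N ^ (-γ)) (N ^ ((∑ i, (κ i)⁻¹) - 1 - γ - ε))} ≤
        ENNReal.ofReal (Y ^ (2 + γ - (∑ i, (κ i)⁻¹) + ε)) := by
    intro a
    by_cases ha : ∀ i, 0 < a i
    · have h1 := coef_aa_box P hP κ hκ hsum hmax (fun i => (a i : ℝ)) (fun i => by exact_mod_cast ha i)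
      have h2 : (Measure.pi fun i => U (a i : ℝ)) =
          (volume : Measure (ι → ℝ)).restrict (Set.pi Set.univ fun i => Icc (a i : ℝ) (a i + 1)) := by
        rw [volume_pi, Measure.restrict_pi_pi]; rfl
      rw [h2, ae_restrict_iff' (MeasurableSet.univ_pi fun i => measurableSet_Icc)] at h1
      filter_upwards [h1] with α hα _ hb
      exact hα fun i _ => hb i
    · exact ae_of_all _ fun α h => absurd h ha
  rw [← ae_all_iff] at h
  filter_upwards [h] with α hα hpos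
  have : ∀ i, ∃ r : ℚ, max 0 (α i - 1) < (r : ℝ) ∧ (r : ℝ) < α i := fun i =>
    exists_rat_btwn (max_lt (hpos i) (by linarith))
  choose r hr1 hr2 using this
  refine hα r (fun i => by exact_mod_cast (le_max_left _ _).trans_lt (hr1 i)) (fun i => ⟨(hr2 i).le, ?_⟩)
  have := (le_max_right 0 (α i - 1)).trans_lt (hr1 i)
  linarith

end Pool.Agent.Q83.WG
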