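import Mathlib
import Pool.Agent.Q83.WG.EC

/-!
# Generic exponents: all scales
-/

set_option autoImplicit false
set_option linter.unusedSectionVars false

open MeasureTheory Filter Topology Set
open scoped ENNReal
open Pool.Agent.H469R2.NK (e norm_e e_add conj_e e_zero)

namespace Pool.Agent.Q83.WG

variable {ι : Type*} [Fintype ι] [DecidableEq ι]

/-- failure probability at one scale, uniform in the exponent data -/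
theorem bad_one (μ : ι → Measure ℝ) [∀ i, IsProbabilityMeasure (μ i)] (φ : ι → ℕ → ℝ → ℝ)
    (hφ : ∀ i x, Measurable (φ i x)) (I : ι → Finset ℕ) (p : ι → ℝ) (η' η d γ C c : ℝ)
    (b n : ℕ) (hd : 0 < d) (hd1 : d ≤ 1) (hγ : 0 ≤ γ) (hη : 0 < η) (hηη : η ≤ η') (hC : 1 ≤ C) (hc : 0 < c)
    (hp : ∑ i, p i = 2 * (1 + η')) (hn : 1 ≤ n)
    (h0 : ∀ i, (I i).Nonempty)
    (h1 : ∀ i, ∀ θ : ℝ, ((2 : ℝ) ^ n) ^ (-1 + d / 2) ≤ θ → θ ≤ 1 →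
      Real.sqrt (A μ I φ i θ) ≤ (C * n) * (I i).card * (θ * 2 ^ n) ^ (-(p i / 2)))
    (h2 : ∀ i, ∀ θ : ℝ, 1 ≤ θ →
      Real.sqrt (A μ I φ i θ) ≤ (C * n) * (I i).card * ((2 : ℝ) ^ n) ^ (-(p i / 2))) :
    Measure.pi μ (Bad φ I ((2 : ℝ) ^ n) d γ (c * (n : ℝ)⁻¹ ^ b / (2 * Real.exp Real.pi))) ≤
      ENNReal.ofReal (4 * Real.exp Real.pi / c * C ^ Fintype.card ι * (n : ℝ) ^ (b + Fintype.card ι) *
        (Real.pi * ((2 : ℝ) ^ n) ^ (-(d / 2)) + η⁻¹ * ((2 : ℝ) ^ n) ^ (-(η * d / 2)) +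
          ((2 : ℝ) ^ n) ^ (-(η - γ)))) := by
  have hnpos : (0 : ℝ) < n := by exact_mod_cast hn
  have hn1' : (1 : ℝ) ≤ n := by exact_mod_cast hn
  have hX1 : (1 : ℝ) ≤ 2 ^ n := one_le_pow₀ (by norm_num)
  have hη' : 0 < η' := hη.trans_le hηη
  have := scale μ I φ hφ ((2 : ℝ) ^ n) d γ (C * n) η' (c * (n : ℝ)⁻¹ ^ b / (2 * Real.exp Real.pi)) p
    hX1 hd hd1 hγ (by nlinarith) hη' (by positivity) hp h0 h1 h2
  refine this.trans (ENNReal.ofReal_le_ofReal ?_)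
  have m1 : η'⁻¹ * ((2 : ℝ) ^ n) ^ (-(η' * d / 2)) ≤ η⁻¹ * ((2 : ℝ) ^ n) ^ (-(η * d / 2)) := by
    apply mul_le_mul (inv_anti₀ hη hηη) _ (by positivity) (by positivity)
    apply Real.rpow_le_rpow_of_exponent_le hX1
    nlinarith
  have m2 : ((2 : ℝ) ^ n) ^ (-(η' - γ)) ≤ ((2 : ℝ) ^ n) ^ (-(η - γ)) :=
    Real.rpow_le_rpow_of_exponent_le hX1 (by linarith)
  have m3 : Real.pi * ((2 : ℝ) ^ n) ^ (-(d / 2)) + η'⁻¹ * ((2 : ℝ) ^ n) ^ (-(η' * d / 2)) +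
      ((2 : ℝ) ^ n) ^ (-(η' - γ)) ≤ Real.pi * ((2 : ℝ) ^ n) ^ (-(d / 2)) +
        η⁻¹ * ((2 : ℝ) ^ n) ^ (-(η * d / 2)) + ((2 : ℝ) ^ n) ^ (-(η - γ)) := by linarith
  obtain ⟨W', hW'⟩ : ∃ W' : ℝ, W' = Real.pi * ((2 : ℝ) ^ n) ^ (-(d / 2)) +
    η'⁻¹ * ((2 : ℝ) ^ n) ^ (-(η' * d / 2)) + ((2 : ℝ) ^ n) ^ (-(η' - γ)) := ⟨_, rfl⟩
  obtain ⟨W, hW⟩ : ∃ W : ℝ, W = Real.pi * ((2 : ℝ) ^ n) ^ (-(d / 2)) +
    η⁻¹ * ((2 : ℝ) ^ n) ^ (-(η * d / 2)) + ((2 : ℝ) ^ n) ^ (-(η - γ)) := ⟨_, rfl⟩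
  rw [← hW', ← hW] at m3
  rw [← hW', ← hW]
  have e1 : 2 / (c * (n : ℝ)⁻¹ ^ b / (2 * Real.exp Real.pi)) * (C * n) ^ Fintype.card ι * W' =
      4 * Real.exp Real.pi / c * C ^ Fintype.card ι * (n : ℝ) ^ (b + Fintype.card ι) * W' := by
    rw [mul_pow, pow_add]
    have := (Real.exp_pos Real.pi).ne'
    generalize Real.exp Real.pi = Z at *
    rw [inv_pow]
    field_simp
    ring
  rw [e1]
  gcongr

/-- the base exponent -/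
noncomputable def cx (m : ι → ℕ) (n : ℕ) (j : ι → ℕ) (i : ι) : ℝ := m i + (j i : ℝ) / n

/-- scaling factor of the boxes -/
noncomputable def lx (i0 : ι) (C s : ℝ) (i : ι) : ℝ :=
  if i = i0 then 1 / 8 else 1 / ((2 : ℝ) ^ C * 2 * (2 * s))

/-- ratio of the boxes -/
noncomputable def Rx (i0 i : ι) : ℝ := if i = i0 then 32 else 3 / 2

/-- the index sets -/
noncomputable def Ix (P : ι → Set ℕ) (m : ι → ℕ) (i0 : ι) (C s : ℝ) (n : ℕ) (j : ι → ℕ) (i : ι) :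
    Finset ℕ :=
  J (P i) ((lx i0 C s i * 2 ^ n) ^ (cx m n j i)⁻¹) (Rx i0 i * (lx i0 C s i * 2 ^ n) ^ (cx m n j i)⁻¹)

/-- the powers -/
noncomputable def φx (m : ι → ℕ) (n : ℕ) (j : ι → ℕ) (i : ι) (x : ℕ) (u : ℝ) : ℝ :=
  (x : ℝ) ^ (cx m n j i + u / n)

lemma φx_meas (m : ι → ℕ) (n : ℕ) (j : ι → ℕ) (i : ι) (x : ℕ) : Measurable (φx m n j i x) := by
  unfold φx
  exact measurable_const.pow (by fun_prop)

lemma lx_pos (i0 : ι) (C s : ℝ) (hs : 1 ≤ s) (i : ι) : 0 < lx i0 C s i := by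
  unfold lx
  split_ifs <;> positivity

lemma lx_le (i0 : ι) (C s : ℝ) (hC : 1 ≤ C) (hs : 1 ≤ s) (i : ι) : lx i0 C s i ≤ 1 := by
  unfold lx
  have h2C : (1 : ℝ) ≤ 2 ^ C := Real.one_le_rpow (by norm_num) (by linarith)
  split_ifs
  · norm_num
  · rw [div_le_one (by positivity)]
    nlinarith

lemma Rx_ge (i0 i : ι) : 3 / 2 ≤ Rx i0 i := by
  unfold Rx
  split_ifs <;> norm_num

lemma cx_ge (m : ι → ℕ) (hm : ∀ i, 1 ≤ m i) (n : ℕ) (j : ι → ℕ) (i : ι) : 1 ≤ cx m n j i := by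
  unfold cx
  have h1 : (1 : ℝ) ≤ m i := by exact_mod_cast hm i
  have : (0 : ℝ) ≤ (j i : ℝ) / n := by positivity
  linarith

lemma cx_le (m : ι → ℕ) (n : ℕ) (hn : 1 ≤ n) (j : ι → ℕ) (hj : ∀ i, j i ≤ n) (i : ι) :
    cx m n j i ≤ m i + 1 := by
  unfold cx
  have hn0 : (0 : ℝ) < n := by exact_mod_cast hn
  have : (j i : ℝ) / n ≤ 1 := by
    rw [div_le_one hn0]
    exact_mod_cast hj i
  linarith

/-- mean squares for generic exponents -/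
theorem ms_exp (P : ι → Set ℕ) (hP : ∀ i, Dense (P i)) (m : ι → ℕ) (hm : ∀ i, 1 ≤ m i) (i0 : ι) (C s : ℝ)
    (hC : ∀ i, (m i : ℝ) + 1 ≤ C) (hs : 1 ≤ s) (i : ι) :
    ∃ K c1 : ℝ, 1 ≤ K ∧ 0 < c1 ∧ ∃ n0 : ℕ, 1 ≤ n0 ∧ ∀ n : ℕ, n0 ≤ n → ∀ j : ι → ℕ, (∀ i, j i ≤ n) →
      (1 ≤ lx i0 C s i * 2 ^ n) ∧
      (Ix P m i0 C s n j i).Nonempty ∧
      c1 * (lx i0 C s i * 2 ^ n) ^ (cx m n j i)⁻¹ / n ≤ ((Ix P m i0 C s n j i).card : ℝ) ∧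
      ∀ θ : ℝ, 0 < θ →
        (((2 : ℝ) ^ n)⁻¹ ≤ θ → θ ≤ 1 →
          Real.sqrt (A (fun _ => U 0) (Ix P m i0 C s n j) (φx m n j) i θ) ≤
          (K * n) * (Ix P m i0 C s n j i).card * (θ * 2 ^ n) ^ (-((cx m n j i)⁻¹ / 2))) ∧
        (1 ≤ θ → Real.sqrt (A (fun _ => U 0) (Ix P m i0 C s n j) (φx m n j) i θ) ≤
          (K * n) * (Ix P m i0 C s n j i).card * ((2 : ℝ) ^ n) ^ (-((cx m n j i)⁻¹ / 2))) := by
  have hm1 : (1 : ℝ) ≤ m i := by exact_mod_cast hm i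
  have hC1 : 1 ≤ C := by have := hC i; linarith
  have hC0 : 0 < C := by linarith
  have hl0 := lx_pos i0 C s hs i
  have hl1 := lx_le i0 C s hC1 hs i
  have hR := Rx_ge i0 i
  have hlog2 : 0 < Real.log 2 := Real.log_pos (by norm_num)
  have hπ := Real.pi_pos
  obtain ⟨K, c1, hK, hc1, n0, hn0, h⟩ := ms_scale_u (P i) (hP i) C⁻¹
    (2 * C / (Real.pi * lx i0 C s i * Real.log 2)) (lx i0 C s i) 1 (Rx i0 i) (by positivity)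
    (by positivity) hl0 one_pos hR
  have hev : ∀ᶠ n : ℕ in atTop, 1 / (lx i0 C s i) ^ 2 ≤ (2 : ℝ) ^ n :=
    two_pow_tendsto.eventually_ge_atTop _
  obtain ⟨n1, hn1⟩ := eventually_atTop.mp hev
  refine ⟨K, c1, hK, hc1, max n0 n1, hn0.trans (le_max_left _ _), ?_⟩
  intro n hn j hj
  have hn0' : n0 ≤ n := (le_max_left _ _).trans hn
  have hn1' : n1 ≤ n := (le_max_right _ _).trans hn
  have hnn : 1 ≤ n := hn0.trans hn0'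
  have hX0 : (0 : ℝ) < 2 ^ n := by positivity
  have hX1 : (1 : ℝ) ≤ 2 ^ n := one_le_pow₀ (by norm_num)
  have hln : (1 : ℝ) ≤ (lx i0 C s i) ^ 2 * 2 ^ n := by
    have := hn1 n hn1'
    rw [div_le_iff₀ (by positivity)] at this
    linarith
  have hlX : 1 ≤ lx i0 C s i * 2 ^ n := by
    refine hln.trans ?_
    have : (lx i0 C s i) ^ 2 ≤ lx i0 C s i := by nlinarith
    gcongr
  have hc := cx_ge m hm n j i
  have hcm := cx_le m n hnn j hj i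
  have hcC : cx m n j i ≤ C := hcm.trans (hC i)
  have hc0 : 0 < cx m n j i := by linarith
  have hp1 : (cx m n j i)⁻¹ ≤ 1 := inv_le_one_of_one_le₀ hc
  have hp0 : 0 < (cx m n j i)⁻¹ := by positivity
  obtain ⟨g1, g2, g3⟩ := h n hn0' (cx m n j i)⁻¹ (inv_anti₀ hc0 hcC) hp1
    ((lx i0 C s i * 2 ^ n) ^ (cx m n j i)⁻¹) (by
      rw [Real.mul_rpow hl0.le hX0.le]
      have : lx i0 C s i ≤ (lx i0 C s i) ^ (cx m n j i)⁻¹ := by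
        calc lx i0 C s i = (lx i0 C s i) ^ (1 : ℝ) := (Real.rpow_one _).symm
          _ ≤ (lx i0 C s i) ^ (cx m n j i)⁻¹ :=
            Real.rpow_le_rpow_of_exponent_ge hl0 hl1 hp1
      gcongr) (by
      have := rpow_inv_le hc hl0 hX1
      rwa [max_eq_left hl1] at this)
  refine ⟨hlX, g1, g2, fun θ hθ => ?_⟩
  exact g3 (U 0) (φx m n j i) (φx_meas m n j i) θ hθ (fun x hx y hy hxy =>
    osc_hyp_exp (P i) (cx m n j i) C (lx i0 C s i) (Rx i0 i) θ n hnn hc hcC hl0 hR hln hl1 hθ x y hx hy hxy)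

end Pool.Agent.Q83.WG
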