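import Mathlib
import Pool.Agent.Q83.WG.ED

/-!
# Generic exponents: main theorem
-/

set_option autoImplicit false
set_option linter.unusedSectionVars false

open MeasureTheory Filter Topology Set
open scoped ENNReal
open Pool.Agent.H469R2.NK (e norm_e e_add conj_e e_zero)

namespace Pool.Agent.Q83.WG

variable {ι : Type*} [Fintype ι] [DecidableEq ι]

theorem exp_box (P : ι → Set ℕ) (hP : ∀ i, Dense (P i)) (m : ι → ℕ) (hm : ∀ i, 1 ≤ m i) (i0 : ι)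
    (η γ : ℝ) (hη : 0 < η) (hγ : 0 ≤ γ) (hγη : γ < η) :
    ∀ᵐ t : ι → ℝ, (∀ i, (m i : ℝ) ≤ t i ∧ t i ≤ m i + 1) → 2 * (1 + η) ≤ ∑ i, (t i)⁻¹ →
      ∃ c : ℝ, 0 < c ∧ ∃ b : ℕ, ∀ᶠ n : ℕ in atTop, ∀ N : ℝ, (2 : ℝ) ^ n ≤ N → N ≤ 2 * (2 : ℝ) ^ n →
        Rep (fun x : ι → ℕ => ∑ i, (x i : ℝ) ^ t i) (fun x => ∀ i, x i ∈ P i ∧ 0 < x i) N
          (n * ((2 : ℝ) ^ n) ^ (-γ)) (c * (n : ℝ)⁻¹ ^ b * ((2 : ℝ) ^ n) ^ ((∑ i, (t i)⁻¹) - 1 - γ)) := by
  classical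
  obtain ⟨C, hC⟩ : ∃ C : ℝ, C = ∑ i, (m i : ℝ) + 1 := ⟨_, rfl⟩
  have hmC : ∀ i, (m i : ℝ) + 1 ≤ C := by
    intro i
    rw [hC]
    have := Finset.single_le_sum (f := fun i => (m i : ℝ)) (fun j _ => Nat.cast_nonneg _) (Finset.mem_univ i)
    linarith
  have hC1 : 1 ≤ C := by
    have := hmC i0
    have h2 : (0 : ℝ) ≤ m i0 := Nat.cast_nonneg _
    linarith
  obtain ⟨d0, hd0, hpiv⟩ := pivot_exp (P i0) (hP i0) C hC1
  obtain ⟨d, hd, hdd, hd1⟩ : ∃ d : ℝ, 0 < d ∧ d < d0 ∧ d ≤ 1 :=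
    ⟨min (d0 / 2) 1, by positivity, by
      have := min_le_left (d0 / 2) 1
      linarith, min_le_right _ _⟩
  obtain ⟨cw, hcw, nw, hnw, hpiv'⟩ := hpiv d hd hdd
  obtain ⟨s, hs⟩ : ∃ s : ℝ, s = (Fintype.card ι : ℝ) := ⟨_, rfl⟩
  have hs1 : 1 ≤ s := by
    rw [hs]; exact_mod_cast Fintype.card_pos_iff.mpr ⟨i0⟩
  have hms := fun i => ms_exp P hP m hm i0 C s hmC hs1 i
  choose K c1 hK hc1 n0 hn0 hms' using hms
  set nn : ℕ := ∑ i, n0 i + nw with hnn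
  have hnn0 : ∀ n, nn ≤ n → ∀ i, n0 i ≤ n := by
    intro n hn i
    have := Finset.single_le_sum (f := n0) (fun j _ => Nat.zero_le _) (Finset.mem_univ i)
    omega
  have hnnw : ∀ n, nn ≤ n → nw ≤ n := fun n hn => by omega
  have hnn1 : 1 ≤ nn := by omega
  obtain ⟨KK, hKK⟩ : ∃ KK : ℝ, KK = ∑ i, K i := ⟨_, rfl⟩
  have hKi : ∀ i, K i ≤ KK := fun i => by
    rw [hKK]
    exact Finset.single_le_sum (f := K) (fun j _ => by linarith [hK j]) (Finset.mem_univ i)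
  have hKK1 : 1 ≤ KK := (hK i0).trans (hKi i0)
  have hX1 : ∀ n : ℕ, (1 : ℝ) ≤ 2 ^ n := fun n => one_le_pow₀ (by norm_num)
  have hX0 : ∀ n : ℕ, (0 : ℝ) < 2 ^ n := fun n => by positivity
  -- failure probabilities
  set W : ℕ → ℝ := fun n => 4 * Real.exp Real.pi / cw * KK ^ Fintype.card ι *
    (n : ℝ) ^ (1 + Fintype.card ι) *
        (Real.pi * ((2 : ℝ) ^ n) ^ (-(d / 2)) + η⁻¹ * ((2 : ℝ) ^ n) ^ (-(η * d / 2)) +
          ((2 : ℝ) ^ n) ^ (-(η - γ))) with hW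
  have hW0 : ∀ n, 0 ≤ W n := by
    intro n
    have : 0 ≤ KK := by linarith
    simp only [hW]
    positivity
  have hprob : ∀ n, nn ≤ n → ∀ j : ι → ℕ, (∀ i, j i ≤ n) → 2 * (1 + η) ≤ ∑ i, (cx m n j i)⁻¹ →
      Measure.pi (fun _ : ι => U 0) (Bad (φx m n j) (Ix P m i0 C s n j) ((2 : ℝ) ^ n) d γ
        (cw * (n : ℝ)⁻¹ ^ 1 / (2 * Real.exp Real.pi))) ≤ ENNReal.ofReal (W n) := by
    intro n hn j hj hsum
    have hn1 : 1 ≤ n := hnn1.trans hn
    refine bad_one (fun _ => U 0) (φx m n j) (φx_meas m n j) (Ix P m i0 C s n j)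
      (fun i => (cx m n j i)⁻¹) ((∑ i, (cx m n j i)⁻¹) / 2 - 1) η d γ KK cw 1 n hd hd1 hγ hη (by linarith)
      hKK1 hcw (by ring) hn1 (fun i => (hms' i n (hnn0 n hn i) j hj).2.1) ?_ ?_
    · intro i θ hθ1 hθ2
      have hX := hX0 n
      have hθ0 : 0 < θ := lt_of_lt_of_le (by positivity) hθ1
      have h1 : ((2 : ℝ) ^ n)⁻¹ ≤ θ := by
        refine le_trans ?_ hθ1
        rw [← Real.rpow_neg_one]
        exact Real.rpow_le_rpow_of_exponent_le (hX1 n) (by linarith)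
      have h2 := ((hms' i n (hnn0 n hn i) j hj).2.2.2 θ hθ0).1 h1 hθ2
      refine h2.trans ?_
      have : 0 ≤ (θ * 2 ^ n) ^ (-((cx m n j i)⁻¹ / 2)) := by positivity
      have h3 := hKi i
      gcongr
    · intro i θ hθ1
      have hθ0 : 0 < θ := by linarith
      have h2 := ((hms' i n (hnn0 n hn i) j hj).2.2.2 θ hθ0).2 hθ1
      refine h2.trans ?_
      have : 0 ≤ ((2 : ℝ) ^ n) ^ (-((cx m n j i)⁻¹ / 2)) := by positivity
      have h3 := hKi i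
      gcongr
  -- the bad set at scale n
  set B : ℕ → Set (ι → ℝ) := fun n => ⋃ j ∈ (Fintype.piFinset fun _ : ι => Finset.range (n + 1)).filter
      (fun j : ι → ℕ => 2 * (1 + η) ≤ ∑ i, (cx m n j i)⁻¹),
    {t : ι → ℝ | ∃ u : ι → ℝ, (∀ i, u i ∈ Icc (0 : ℝ) 1) ∧
      u ∈ Bad (φx m n j) (Ix P m i0 C s n j) ((2 : ℝ) ^ n) d γ
        (cw * (n : ℝ)⁻¹ ^ 1 / (2 * Real.exp Real.pi)) ∧ t = fun i => cx m n j i + u i * (n : ℝ)⁻¹} with hB
  have hBvol : ∀ n, nn ≤ n → volume (B n) ≤ ENNReal.ofReal (2 ^ Fintype.card ι * W n) := by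
    intro n hn
    have hn1 : 1 ≤ n := hnn1.trans hn
    have hnpos : (0 : ℝ) < n := by exact_mod_cast hn1
    have hnone : (1 : ℝ) ≤ n := by exact_mod_cast hn1
    simp only [hB]
    refine (measure_biUnion_finset_le _ _).trans ?_
    have hstep : ∀ j ∈ (Fintype.piFinset fun _ : ι => Finset.range (n + 1)).filter
      (fun j : ι → ℕ => 2 * (1 + η) ≤ ∑ i, (cx m n j i)⁻¹),
      volume {t : ι → ℝ | ∃ u : ι → ℝ, (∀ i, u i ∈ Icc (0 : ℝ) 1) ∧
        u ∈ Bad (φx m n j) (Ix P m i0 C s n j) ((2 : ℝ) ^ n) d γ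
        (cw * (n : ℝ)⁻¹ ^ 1 / (2 * Real.exp Real.pi)) ∧ t = fun i => cx m n j i + u i * (n : ℝ)⁻¹} ≤
      ENNReal.ofReal (((n : ℝ)⁻¹) ^ Fintype.card ι * W n) := by
      intro j hj
      rw [Finset.mem_filter, Fintype.mem_piFinset] at hj
      refine (vol_affine _ (n : ℝ)⁻¹ (by positivity) _).trans ?_
      rw [ENNReal.ofReal_mul (by positivity)]
      gcongr
      exact hprob n hn j (fun i => by have := Finset.mem_range.mp (hj.1 i); omega) hj.2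
    refine (Finset.sum_le_sum hstep).trans ?_
    rw [Finset.sum_const, nsmul_eq_mul, ← ENNReal.ofReal_natCast, ← ENNReal.ofReal_mul (by positivity)]
    apply ENNReal.ofReal_le_ofReal
    have hcard : (((Fintype.piFinset fun _ : ι => Finset.range (n + 1)).filter
      (fun j : ι → ℕ => 2 * (1 + η) ≤ ∑ i, (cx m n j i)⁻¹)).card : ℝ) ≤ ((n : ℝ) + 1) ^ Fintype.card ι := by
      refine (Nat.cast_le.mpr (Finset.card_filter_le _ _)).trans ?_
      rw [Fintype.card_piFinset]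
      simp
    calc (((Fintype.piFinset fun _ : ι => Finset.range (n + 1)).filter
      (fun j : ι → ℕ => 2 * (1 + η) ≤ ∑ i, (cx m n j i)⁻¹)).card : ℝ) *
        (((n : ℝ)⁻¹) ^ Fintype.card ι * W n)
        ≤ ((n : ℝ) + 1) ^ Fintype.card ι * (((n : ℝ)⁻¹) ^ Fintype.card ι * W n) := by
          have := hW0 n
          gcongr
      _ = (((n : ℝ) + 1) * (n : ℝ)⁻¹) ^ Fintype.card ι * W n := by rw [mul_pow]; ring
      _ ≤ 2 ^ Fintype.card ι * W n := by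
          have := hW0 n
          have h2 : ((n : ℝ) + 1) * (n : ℝ)⁻¹ ≤ 2 := by
            rw [← div_eq_mul_inv, div_le_iff₀ hnpos]
            linarith
          gcongr
  have hsum := summ (1 + Fintype.card ι) (2 ^ Fintype.card ι * (4 * Real.exp Real.pi / cw *
    KK ^ Fintype.card ι)) (d / 2) (η * d / 2) (η - γ) (by positivity)
    (by positivity) (by linarith) Real.pi η⁻¹
  have hBC := measure_limsup_atTop_eq_zero (μ := (volume : Measure (ι → ℝ)))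
    (s := fun n => if nn ≤ n then B n else ∅) (by
    refine ne_top_of_le_ne_top (Summable.tsum_ofReal_ne_top hsum) ?_
    refine ENNReal.tsum_le_tsum fun n => ?_
    by_cases hn : nn ≤ n
    · simp only [hn, if_true]
      refine (hBvol n hn).trans (le_of_eq ?_)
      congr 1
      simp only [hW]
      ring
    · simp [hn])
  have h7 : ∀ᵐ t : ι → ℝ, ∀ᶠ n : ℕ in atTop, t ∉ (if nn ≤ n then B n else ∅) := by
    rw [ae_iff]
    refine measure_mono_null ?_ hBC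
    intro t ht
    simp only [mem_ofPred_eq, not_eventually, not_not] at ht
    rw [mem_limsup_iff_frequently_mem]
    exact ht
  filter_upwards [h7] with t ht htbox hsumt
  have hcc : 0 < cw / (4 * Real.exp Real.pi) := by positivity
  refine ⟨cw / (4 * Real.exp Real.pi) * ∏ i, (c1 i * lx i0 C s i), ?_, 1 + Fintype.card ι, ?_⟩
  · have h1 : 0 < ∏ i, (c1 i * lx i0 C s i) := Finset.prod_pos fun i _ => by
      have := hc1 i; have := lx_pos i0 C s hs1 i; positivity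
    positivity
  filter_upwards [ht, eventually_ge_atTop nn, tail_small 1 _ (1 + γ) hcc] with n hn hnn' htail N hN1 hN2
  have hn1 : 1 ≤ n := hnn1.trans hnn'
  have hnpos : (0 : ℝ) < n := by exact_mod_cast hn1
  rw [if_pos hnn'] at hn
  -- the cell of t
  obtain ⟨j, hj⟩ : ∃ j : ι → ℕ, j = fun i => ⌊(t i - m i) * n⌋₊ := ⟨_, rfl⟩
  obtain ⟨u, hu⟩ : ∃ u : ι → ℝ, u = fun i => (t i - m i) * n - j i := ⟨_, rfl⟩
  have hjn : ∀ i, j i ≤ n := by
    intro i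
    rw [hj]
    have h1 : (t i - m i) * n ≤ (n : ℝ) := by
      have := (htbox i).2
      nlinarith
    calc ⌊(t i - m i) * (n : ℝ)⌋₊ ≤ ⌊(n : ℝ)⌋₊ := Nat.floor_le_floor h1
      _ = n := Nat.floor_natCast n
  have hnonneg : ∀ i, 0 ≤ (t i - m i) * n := by
    intro i
    have := (htbox i).1
    have : 0 ≤ t i - m i := by linarith
    positivity
  have hu01 : ∀ i, u i ∈ Icc (0 : ℝ) 1 := by
    intro i
    have h1 := Nat.floor_le (hnonneg i)
    have h2 := Nat.lt_floor_add_one ((t i - m i) * n)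
    have e1 : u i = (t i - m i) * n - (⌊(t i - m i) * n⌋₊ : ℝ) := by rw [hu, hj]
    rw [e1]
    constructor <;> linarith
  have htu : ∀ i, cx m n j i + u i / n = t i := by
    intro i
    unfold cx
    rw [hu]
    field_simp
    ring
  have hcxt : ∀ i, cx m n j i ≤ t i := by
    intro i
    have := (hu01 i).1
    have h2 : 0 ≤ u i / n := by positivity
    linarith [htu i]
  have htcx : ∀ i, t i ≤ cx m n j i + 1 / n := by
    intro i
    have := (hu01 i).2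
    have h2 : u i / n ≤ 1 / n := by gcongr
    linarith [htu i]
  have hc1' := fun i => cx_ge m hm n j i
  have hinv : ∀ i, (t i)⁻¹ ≤ (cx m n j i)⁻¹ := fun i =>
    inv_anti₀ (by linarith [hc1' i]) (hcxt i)
  have hsumc : ∑ i, (t i)⁻¹ ≤ ∑ i, (cx m n j i)⁻¹ := Finset.sum_le_sum fun i _ => hinv i
  have hubad : u ∉ Bad (φx m n j) (Ix P m i0 C s n j) ((2 : ℝ) ^ n) d γ
        (cw * (n : ℝ)⁻¹ ^ 1 / (2 * Real.exp Real.pi)) := by
    intro hcon
    apply hn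
    simp only [hB, mem_iUnion]
    refine ⟨j, ?_, u, hu01, hcon, ?_⟩
    · rw [Finset.mem_filter, Fintype.mem_piFinset]
      refine ⟨fun i => Finset.mem_range.mpr ?_, hsumt.trans hsumc⟩
      have := hjn i
      omega
    · funext i
      rw [← htu i, div_eq_mul_inv]
  have hgood := good_one (φx m n j) (Ix P m i0 C s n j) n d γ cw 1 i0 hd1 hγ hcw u hn1 htail
    (hms' i0 n (hnn0 n hnn' i0) j hjn).2.1 (by
      intro y hy1 hy2
      have htC : t i0 ≤ C := (htbox i0).2.trans (hmC i0)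
      have := hpiv' n (hnnw n hnn') (cx m n j i0) (t i0) (hc1' i0) (hcxt i0) (htcx i0) htC y hy1 hy2
      have e1 : Ix P m i0 C s n j i0 = J (P i0) ((1 / 8 * 2 ^ n) ^ (cx m n j i0)⁻¹)
          (32 * (1 / 8 * 2 ^ n) ^ (cx m n j i0)⁻¹) := by
        simp only [Ix, lx, Rx, if_true]
      have e2 : ∀ x : ℕ, φx m n j i0 x (u i0) = (x : ℝ) ^ t i0 := by
        intro x
        simp only [φx, htu]
      simp only [e2, pow_one]
      rw [e1]
      exact this) (by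
      intro i hi x hx
      have htC : t i ≤ C := (htbox i).2.trans (hmC i)
      have e1 : Ix P m i0 C s n j i = J (P i) ((1 / ((2 : ℝ) ^ C * 2 * (2 * s)) * 2 ^ n) ^ (cx m n j i)⁻¹)
          (3 / 2 * (1 / ((2 : ℝ) ^ C * 2 * (2 * s)) * 2 ^ n) ^ (cx m n j i)⁻¹) := by
        simp only [Ix, lx, Rx, hi, if_false]
      have e2 : φx m n j i x (u i) = (x : ℝ) ^ t i := by
        simp only [φx, htu]
      have hlX := (hms' i n (hnn0 n hnn' i) j hjn).1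
      simp only [lx, hi, if_false] at hlX
      rw [e1] at hx
      rw [e2, ← hs]
      exact other_exp (P i) (cx m n j i) (t i) C s hs1 hC1 n hn1 (hc1' i) (hcxt i) (htcx i) htC hlX x hx)
    hubad N hN1 hN2
  have hfun : (fun x : ι → ℕ => ∑ i, φx m n j i (x i) (u i)) = fun x => ∑ i, (x i : ℝ) ^ t i := by
    funext x
    refine Finset.sum_congr rfl fun i _ => ?_
    simp only [φx, htu]
  rw [hfun] at hgood
  refine hgood.mono ?_ le_rfl ?_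
  · intro x hx i
    have hl := lx_pos i0 C s hs1 i
    have hR := Rx_ge i0 i
    have h1 := (mem_J (by positivity) (by positivity)).mp (hx i)
    refine ⟨h1.2.2, ?_⟩
    have : (0 : ℝ) < x i := lt_of_le_of_lt (by positivity) h1.1
    exact_mod_cast this
  · have hprod : (∏ i, (c1 i * lx i0 C s i)) * (n : ℝ)⁻¹ ^ Fintype.card ι *
        ((2 : ℝ) ^ n) ^ (∑ i, (t i)⁻¹) ≤ ∏ i, ((Ix P m i0 C s n j i).card : ℝ) := by
      calc (∏ i, (c1 i * lx i0 C s i)) * (n : ℝ)⁻¹ ^ Fintype.card ι * ((2 : ℝ) ^ n) ^ (∑ i, (t i)⁻¹)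
          = ∏ i, (c1 i * (lx i0 C s i * ((2 : ℝ) ^ n) ^ (t i)⁻¹) / n) := by
            rw [Real.rpow_sum_of_pos (hX0 n), ← Finset.card_univ, ← Finset.prod_const,
              ← Finset.prod_mul_distrib, ← Finset.prod_mul_distrib]
            refine Finset.prod_congr rfl fun i _ => ?_
            ring
        _ ≤ ∏ i, ((Ix P m i0 C s n j i).card : ℝ) := by
            refine Finset.prod_le_prod (fun i _ => ?_) fun i _ => ?_
            · have := hc1 i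
              have := lx_pos i0 C s hs1 i
              positivity
            · refine le_trans ?_ (hms' i n (hnn0 n hnn' i) j hjn).2.2.1
              have hl0 := lx_pos i0 C s hs1 i
              have hl1 := lx_le i0 C s hC1 hs1 i
              have hc := hc1 i
              have hci : (cx m n j i)⁻¹ ≤ 1 := inv_le_one_of_one_le₀ (hc1' i)
              rw [Real.mul_rpow hl0.le (hX0 n).le]
              have a1 : lx i0 C s i ≤ (lx i0 C s i) ^ (cx m n j i)⁻¹ := by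
                calc lx i0 C s i = (lx i0 C s i) ^ (1 : ℝ) := (Real.rpow_one _).symm
                  _ ≤ (lx i0 C s i) ^ (cx m n j i)⁻¹ := Real.rpow_le_rpow_of_exponent_ge hl0 hl1 hci
              have a2 : ((2 : ℝ) ^ n) ^ (t i)⁻¹ ≤ ((2 : ℝ) ^ n) ^ (cx m n j i)⁻¹ :=
                Real.rpow_le_rpow_of_exponent_le (hX1 n) (hinv i)
              gcongr
    have e1 : ((2 : ℝ) ^ n) ^ ((∑ i, (t i)⁻¹) - 1 - γ) =
        ((2 : ℝ) ^ n) ^ (-(1 + γ)) * ((2 : ℝ) ^ n) ^ (∑ i, (t i)⁻¹) := by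
      rw [← Real.rpow_add (hX0 n)]; congr 1; ring
    rw [e1, pow_add, pow_one]
    calc cw / (4 * Real.exp Real.pi) * (∏ i, (c1 i * lx i0 C s i)) *
          ((n : ℝ)⁻¹ * (n : ℝ)⁻¹ ^ Fintype.card ι) *
          (((2 : ℝ) ^ n) ^ (-(1 + γ)) * ((2 : ℝ) ^ n) ^ (∑ i, (t i)⁻¹))
        = cw / (4 * Real.exp Real.pi) * (n : ℝ)⁻¹ * ((2 : ℝ) ^ n) ^ (-(1 + γ)) *
          ((∏ i, (c1 i * lx i0 C s i)) * (n : ℝ)⁻¹ ^ Fintype.card ι *
            ((2 : ℝ) ^ n) ^ (∑ i, (t i)⁻¹)) := by ring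
      _ ≤ _ := by gcongr

/-- **Generic exponents.** -/
theorem exp_main (P : ι → Set ℕ) (hP : ∀ i, Dense (P i)) :
    ∀ᵐ t : ι → ℝ, (∀ i, 1 ≤ t i) → 2 < ∑ i, (t i)⁻¹ →
      ∀ γ : ℝ, 0 ≤ γ → γ < (∑ i, (t i)⁻¹) / 2 - 1 → ∀ ε : ℝ, 0 < ε → ∀ᶠ N : ℝ in atTop,
        Rep (fun x : ι → ℕ => ∑ i, (x i : ℝ) ^ t i) (fun x => ∀ i, x i ∈ P i ∧ 0 < x i) N
          (N ^ (-γ)) (N ^ ((∑ i, (t i)⁻¹) - 1 - γ - ε)) := by
  classical
  rcases isEmpty_or_nonempty ι with hι | ⟨⟨i0⟩⟩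
  · refine ae_of_all _ fun t _ h => ?_
    rw [Finset.univ_eq_empty, Finset.sum_empty] at h
    norm_num at h
  have h : ∀ (m : ι → ℕ) (η γ : ℚ), ∀ᵐ t : ι → ℝ, (∀ i, 1 ≤ m i) → 0 < η → 0 ≤ γ → γ < η →
      (∀ i, (m i : ℝ) ≤ t i ∧ t i ≤ m i + 1) → 2 * (1 + (η : ℝ)) ≤ ∑ i, (t i)⁻¹ →
      ∃ c : ℝ, 0 < c ∧ ∃ b : ℕ, ∀ᶠ n : ℕ in atTop, ∀ N : ℝ, (2 : ℝ) ^ n ≤ N → N ≤ 2 * (2 : ℝ) ^ n →
        Rep (fun x : ι → ℕ => ∑ i, (x i : ℝ) ^ t i) (fun x => ∀ i, x i ∈ P i ∧ 0 < x i) N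
          (n * ((2 : ℝ) ^ n) ^ (-(γ : ℝ)))
          (c * (n : ℝ)⁻¹ ^ b * ((2 : ℝ) ^ n) ^ ((∑ i, (t i)⁻¹) - 1 - γ)) := by
    intro m η γ
    by_cases hh : (∀ i, 1 ≤ m i) ∧ 0 < η ∧ 0 ≤ γ ∧ γ < η
    · obtain ⟨h1, h2, h3, h4⟩ := hh
      filter_upwards [exp_box P hP m h1 i0 η γ (by exact_mod_cast h2) (by exact_mod_cast h3)
        (by exact_mod_cast h4)] with t ht _ _ _ _ g1 g2
      exact ht g1 g2
    · exact ae_of_all _ fun t a b c d => absurd ⟨a, b, c, d⟩ hh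
  have h' : ∀ᵐ t : ι → ℝ, ∀ (m : ι → ℕ) (η γ : ℚ), (∀ i, 1 ≤ m i) → 0 < η → 0 ≤ γ → γ < η →
      (∀ i, (m i : ℝ) ≤ t i ∧ t i ≤ m i + 1) → 2 * (1 + (η : ℝ)) ≤ ∑ i, (t i)⁻¹ →
      ∃ c : ℝ, 0 < c ∧ ∃ b : ℕ, ∀ᶠ n : ℕ in atTop, ∀ N : ℝ, (2 : ℝ) ^ n ≤ N → N ≤ 2 * (2 : ℝ) ^ n →
        Rep (fun x : ι → ℕ => ∑ i, (x i : ℝ) ^ t i) (fun x => ∀ i, x i ∈ P i ∧ 0 < x i) N
          (n * ((2 : ℝ) ^ n) ^ (-(γ : ℝ)))
          (c * (n : ℝ)⁻¹ ^ b * ((2 : ℝ) ^ n) ^ ((∑ i, (t i)⁻¹) - 1 - γ)) := by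
    rw [ae_all_iff]; intro m
    rw [ae_all_iff]; intro η
    rw [ae_all_iff]; intro γ
    exact h m η γ
  filter_upwards [h'] with t ht ht1 hsum γ hγ hγη ε hε
  refine wrap _ _ (∑ i, (t i)⁻¹) ((∑ i, (t i)⁻¹) / 2 - 1) (fun γ' h1 h2 => ?_) γ hγ hγη ε hε
  obtain ⟨η, g1, g2⟩ := exists_rat_btwn h2
  refine ht (fun i => ⌊t i⌋₊) η γ' (fun i => ?_) ?_ h1 (by exact_mod_cast g1) (fun i => ⟨?_, ?_⟩) ?_
  · exact Nat.le_floor (by exact_mod_cast ht1 i)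
  · exact h1.trans_lt (by exact_mod_cast g1)
  · exact Nat.floor_le (by linarith [ht1 i])
  · exact (Nat.lt_floor_add_one _).le
  · linarith

end Pool.Agent.Q83.WG
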