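import Mathlib
import Pool.Agent.Q83.WG.G
import Pool.Agent.H295R3.Hoheisel

/-!
# The primes are dense in short intervals (Hoheisel)
-/

set_option autoImplicit false

open Filter Topology

namespace Pool.Agent.Q83.WG

theorem dense_primes : Dense {p : ℕ | p.Prime} := by
  classical
  obtain ⟨δ, η, hδ, hδ1, hη, X₀, hX₀, h⟩ := Pool.Agent.H295R3.D.hoheisel
  -- (z)^(1-δ/2) - 1 ≥ z^(1-δ) for large z
  have hev : ∀ᶠ z : ℝ in atTop, (4 : ℝ) ≤ z ^ (δ / 2) :=
    (tendsto_rpow_atTop (by linarith)).eventually_ge_atTop 4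
  obtain ⟨z1, hz1⟩ := eventually_atTop.mp hev
  refine ⟨δ / 2, η / 2, max (X₀ + 4) z1, by linarith, by linarith, by linarith, ?_, ?_⟩
  · refine lt_of_lt_of_le ?_ (le_max_left _ _)
    have : (0 : ℝ) ≤ X₀ := Nat.cast_nonneg _
    linarith
  intro z hh hz h1 h2
  have hzX : (X₀ : ℝ) + 4 ≤ z := (le_max_left _ _).trans hz
  have hz4 := hz1 z ((le_max_right _ _).trans hz)
  have hX0' : (0 : ℝ) ≤ X₀ := Nat.cast_nonneg _
  have hz0 : 0 < z := by linarith
  set X : ℕ := ⌊z⌋₊ with hX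
  set Y : ℕ := ⌊z + hh⌋₊ - ⌊z⌋₊ with hY
  have hfl : ⌊z⌋₊ ≤ ⌊z + hh⌋₊ := Nat.floor_le_floor (by
    have : 0 ≤ z ^ (1 - δ / 2) := by positivity
    linarith)
  have hXY : X + Y = ⌊z + hh⌋₊ := by rw [hX, hY]; omega
  have a1 : (X : ℝ) ≤ z := Nat.floor_le hz0.le
  have a1' : z < (X : ℝ) + 1 := Nat.lt_floor_add_one z
  have hh0 : 0 < hh := lt_of_lt_of_le (by positivity) h1
  have a2 : ((X + Y : ℕ) : ℝ) ≤ z + hh := by rw [hXY]; exact Nat.floor_le (by linarith)
  have a3 : z + hh < ((X + Y : ℕ) : ℝ) + 1 := by rw [hXY]; exact Nat.lt_floor_add_one _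
  push_cast at a2 a3
  -- h ≥ 2 etc.
  have hbig : z ^ (1 - δ) * 4 ≤ hh := by
    refine le_trans ?_ h1
    have : z ^ (1 - δ / 2) = z ^ (1 - δ) * z ^ (δ / 2) := by
      rw [← Real.rpow_add hz0]; congr 1; ring
    rw [this]
    gcongr
  have hz1' : 1 ≤ z ^ (1 - δ) := Real.one_le_rpow (by linarith) (by linarith)
  have hY1 : (X : ℝ) ^ (1 - δ) ≤ Y := by
    have b1 : (X : ℝ) ^ (1 - δ) ≤ z ^ (1 - δ) := Real.rpow_le_rpow (Nat.cast_nonneg _) a1 (by linarith)
    linarith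
  have hYX : Y ≤ X := by
    have : (Y : ℝ) ≤ X := by linarith
    exact_mod_cast this
  have hXX : X₀ ≤ X := by
    have : (X₀ : ℝ) ≤ X := by linarith
    exact_mod_cast this
  have key := h X Y hXX hY1 hYX
  have hJ : J {p : ℕ | p.Prime} z (z + hh) = (Finset.Ioc X (X + Y)).filter Nat.Prime := by
    unfold J
    rw [hXY]
    ext x
    simp [Finset.mem_filter, hX]
  rw [hJ]
  have hlogX : 0 < Real.log X := Real.log_pos (by
    have : (2 : ℝ) ≤ X₀ := by exact_mod_cast hX₀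
    linarith)
  have hlog : Real.log X ≤ Real.log z := Real.log_le_log (by linarith) a1
  have hYh : hh / 2 ≤ Y := by linarith
  calc η / 2 * hh / Real.log z ≤ η / 2 * hh / Real.log X :=
        div_le_div_of_nonneg_left (by positivity) hlogX hlog
    _ = η * (hh / 2) / Real.log X := by ring
    _ ≤ η * Y / Real.log X := by gcongr
    _ ≤ _ := by
        refine key.trans (le_of_eq ?_)
        congr 1

end Pool.Agent.Q83.WG
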