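import Mathlib
import Pool.Agent.Q83.WG.AB

/-!
# Squaring the exceptional set with one more variable: preparations
-/

set_option autoImplicit false
set_option linter.unusedSectionVars false

open MeasureTheory Filter Topology Set
open scoped ENNReal

namespace Pool.Agent.Q83.WG

/-- the value of a tuple -/
noncomputable def Sv {n : ℕ} (φ : Fin n → ℕ → ℝ → ℝ) (t : Fin n → ℝ) (x : Fin n → ℕ) : ℝ :=
  ∑ i, φ i (x i) (t i)

/-- allowed tuples -/
def Al {n : ℕ} (P : Fin n → Set ℕ) (x : Fin n → ℕ) : Prop := ∀ i, x i ∈ P i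

/-- bad targets in `[X, 2X]` -/
def Bs {n : ℕ} (φ : Fin n → ℕ → ℝ → ℝ) (P : Fin n → Set ℕ) (r X : ℝ) (m : (Fin n → ℝ) → ℝ)
    (t : Fin n → ℝ) : Set ℝ :=
  {N | (X ≤ N ∧ N ≤ 2 * X) ∧ ¬ Rep (Sv φ t) (Al P) N r (m t)}

lemma measurable_Sv {n : ℕ} {φ : Fin n → ℕ → ℝ → ℝ} (hφ : ∀ i x, Measurable (φ i x)) (x : Fin n → ℕ) :
    Measurable fun t : Fin n → ℝ => Sv φ t x := by
  unfold Sv
  exact Finset.measurable_fun_sum _ fun i _ => (hφ i (x i)).comp (measurable_pi_apply i)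

lemma measurableSet_rep {n : ℕ} {φ : Fin n → ℕ → ℝ → ℝ} (hφ : ∀ i x, Measurable (φ i x))
    (P : Fin n → Set ℕ) (r : ℝ) {m : (Fin n → ℝ) → ℝ} (hm : Measurable m) :
    MeasurableSet {p : (Fin n → ℝ) × ℝ | Rep (Sv φ p.1) (Al P) p.2 r (m p.1)} := by
  have h : {p : (Fin n → ℝ) × ℝ | Rep (Sv φ p.1) (Al P) p.2 r (m p.1)} =
      ⋃ T : Finset (Fin n → ℕ), ({p : (Fin n → ℝ) × ℝ | m p.1 ≤ (T.card : ℝ)} ∩
        ⋂ x ∈ T, {p : (Fin n → ℝ) × ℝ | Al P x ∧ |Sv φ p.1 x - p.2| ≤ r}) := by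
    ext p
    simp only [Rep, mem_ofPred_eq, mem_iUnion, mem_inter_iff, mem_iInter]
  rw [h]
  refine MeasurableSet.iUnion fun T => MeasurableSet.inter ?_ ?_
  · exact measurableSet_le (hm.comp measurable_fst) measurable_const
  · refine Finset.measurableSet_biInter _ fun x _ => ?_
    refine (MeasurableSet.const _).inter ?_
    exact measurableSet_le (((measurable_Sv hφ x).comp measurable_fst).sub measurable_snd).abs
      measurable_const

lemma measurableSet_Bs {n : ℕ} {φ : Fin n → ℕ → ℝ → ℝ} (hφ : ∀ i x, Measurable (φ i x))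
    (P : Fin n → Set ℕ) (r X : ℝ) {m : (Fin n → ℝ) → ℝ} (hm : Measurable m) :
    MeasurableSet {p : (Fin n → ℝ) × ℝ | p.2 ∈ Bs φ P r X m p.1} := by
  have h1 : MeasurableSet {p : (Fin n → ℝ) × ℝ | X ≤ p.2 ∧ p.2 ≤ 2 * X} :=
    (measurableSet_le measurable_const measurable_snd).inter
      (measurableSet_le measurable_snd measurable_const)
  exact h1.inter (measurableSet_rep hφ P r hm).compl

lemma measurable_vol_Bs {n : ℕ} {φ : Fin n → ℕ → ℝ → ℝ} (hφ : ∀ i x, Measurable (φ i x))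
    (P : Fin n → Set ℕ) (r X : ℝ) {m : (Fin n → ℝ) → ℝ} (hm : Measurable m) :
    Measurable fun t : Fin n → ℝ => volume (Bs φ P r X m t) :=
  measurable_measure_prodMk_left (measurableSet_Bs hφ P r X hm)

lemma measurableSet_Bs_fst {n : ℕ} {φ : Fin n → ℕ → ℝ → ℝ} (hφ : ∀ i x, Measurable (φ i x))
    (P : Fin n → Set ℕ) (r X : ℝ) {m : (Fin n → ℝ) → ℝ} (hm : Measurable m) (t : Fin n → ℝ) :
    MeasurableSet (Bs φ P r X m t) := by
  have h2 : Measurable fun N : ℝ => (t, N) := by fun_prop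
  exact h2 (measurableSet_Bs hφ P r X hm)

lemma mp_cons (n : ℕ) (μ : Fin (n + 1) → Measure ℝ) [∀ i, IsProbabilityMeasure (μ i)] :
    MeasurePreserving (fun p : ℝ × (Fin n → ℝ) => (Fin.cons p.1 p.2 : Fin (n + 1) → ℝ))
      ((μ 0).prod (Measure.pi fun i : Fin n => μ i.succ)) (Measure.pi μ) := by
  have h := (measurePreserving_piFinSuccAbove μ 0).symm
  have e : (fun p : ℝ × (Fin n → ℝ) => (Fin.cons p.1 p.2 : Fin (n + 1) → ℝ)) =
      ⇑(MeasurableEquiv.piFinSuccAbove (fun _ : Fin (n + 1) => ℝ) 0).symm := by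
    funext p
    exact (Fin.insertNth_zero' p.1 p.2).symm
  rw [e]
  simpa only [Fin.succAbove_zero] using h

lemma ae_cons {n : ℕ} (μ : Fin (n + 1) → Measure ℝ) [∀ i, IsProbabilityMeasure (μ i)]
    {s : Set (Fin (n + 1) → ℝ)} (hs : MeasurableSet s)
    (h : ∀ᵐ t ∂(Measure.pi fun i : Fin n => μ i.succ), ∀ᵐ l ∂(μ 0), (Fin.cons l t : Fin (n + 1) → ℝ) ∈ s) :
    ∀ᵐ β ∂(Measure.pi μ), β ∈ s := by
  have hmp := (mp_cons n μ).comp (Measure.measurePreserving_swap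
    (μ := Measure.pi fun i : Fin n => μ i.succ) (ν := μ 0))
  rw [← hmp.map_eq]
  refine (ae_map_iff (p := fun β => β ∈ s) hmp.measurable.aemeasurable hs).2 ?_
  have hs2 : MeasurableSet (((fun p : ℝ × (Fin n → ℝ) =>
      (Fin.cons p.1 p.2 : Fin (n + 1) → ℝ)) ∘ Prod.swap) ⁻¹' s) := hmp.measurable hs
  exact (Measure.ae_prod_mem_iff_ae_ae_mem hs2).2 h

lemma cons_measurable {n : ℕ} (t : Fin n → ℝ) :
    Measurable fun l : ℝ => (Fin.cons l t : Fin (n + 1) → ℝ) := by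
  refine measurable_pi_iff.2 fun i => ?_
  refine Fin.cases ?_ (fun j => ?_) i
  · exact measurable_id
  · exact measurable_const

lemma Sv_cons {n : ℕ} (φ : Fin (n + 1) → ℕ → ℝ → ℝ) (l : ℝ) (t : Fin n → ℝ) (x : ℕ) (y : Fin n → ℕ) :
    Sv φ (Fin.cons l t) (Fin.cons x y) = φ 0 x l + Sv (fun i => φ i.succ) t y := by
  unfold Sv
  rw [Fin.sum_univ_succ]
  simp

/-- combining solutions -/
lemma rep_cons {n : ℕ} (φ : Fin (n + 1) → ℕ → ℝ → ℝ) (P : Fin (n + 1) → Set ℕ) (l : ℝ) (t : Fin n → ℝ)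
    (G : Finset ℕ) (hG : ∀ x ∈ G, x ∈ P 0) (N r m : ℝ)
    (h : ∀ x ∈ G, Rep (Sv (fun i => φ i.succ) t) (Al fun i => P i.succ) (N - φ 0 x l) r m) :
    Rep (Sv φ (Fin.cons l t)) (Al P) N r (G.card * m) := by
  classical
  unfold Rep at h
  choose! T hT1 hT2 using h
  refine ⟨(G.sigma T).image fun z => (Fin.cons z.1 z.2 : Fin (n + 1) → ℕ), ?_, ?_⟩
  · rw [Finset.card_image_of_injective, Finset.card_sigma]
    · push_cast
      rw [← nsmul_eq_mul]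
      exact Finset.card_nsmul_le_sum _ _ _ fun x hx => hT1 x hx
    · rintro ⟨a, b⟩ ⟨c, d⟩ hh
      have hh' : (Fin.cons a b : Fin (n + 1) → ℕ) = Fin.cons c d := hh
      have h1 := congrFun hh' 0
      have h2 : b = d := by
        funext i
        have := congrFun hh' i.succ
        simpa using this
      simp only [Fin.cons_zero] at h1
      subst h1 h2
      rfl
  · intro z hz
    rw [Finset.mem_image] at hz
    obtain ⟨⟨x, y⟩, hxy, rfl⟩ := hz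
    rw [Finset.mem_sigma] at hxy
    obtain ⟨hx, hy⟩ := hxy
    obtain ⟨h1, h2⟩ := hT2 x hx y hy
    refine ⟨?_, ?_⟩
    · intro i
      refine Fin.cases ?_ (fun j => ?_) i
      · exact hG x hx
      · exact h1 j
    · show |Sv φ (Fin.cons l t) (Fin.cons x y) - N| ≤ r
      rw [Sv_cons]
      have : φ 0 x l + Sv (fun i => φ i.succ) t y - N = Sv (fun i => φ i.succ) t y - (N - φ 0 x l) := by ring
      rw [this]
      exact h2

open Classical in
/-- many candidates are bad -/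
def Half (φ0 : ℕ → ℝ → ℝ) (E : Set ℝ) (F : Finset ℕ) (l N : ℝ) : Prop :=
  F.card ≤ 2 * (F.filter fun x => N - φ0 x l ∈ E).card

/-- what is needed of the new variable -/
def NewVar (μ0 : Measure ℝ) (φ0 : ℕ → ℝ → ℝ) (P0 : Set ℕ) (p0 : ℝ → ℝ) : Prop :=
  ∃ c C : ℝ, 0 < c ∧ 0 < C ∧ ∃ k0 : ℕ, 1 ≤ k0 ∧ ∀ k : ℕ, k0 ≤ k → ∃ F1 F2 : ℝ → Finset ℕ,
    (∀ᵐ l ∂μ0, (c * ((2 : ℝ) ^ k) ^ p0 l / k ≤ ((F1 l).card : ℝ) ∧
        ∀ x ∈ F1 l, x ∈ P0 ∧ 0 ≤ φ0 x l ∧ φ0 x l ≤ 2 ^ k / 2) ∧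
      (c * ((2 : ℝ) ^ k) ^ p0 l / k ≤ ((F2 l).card : ℝ) ∧
        ∀ x ∈ F2 l, x ∈ P0 ∧ 0 ≤ φ0 x l ∧ φ0 x l ≤ 2 ^ k / 2)) ∧
    ∀ E : Set ℝ, MeasurableSet E →
      ∫⁻ l, volume {N : ℝ | Half φ0 E (F1 l) l N ∧ Half φ0 E (F2 l) l N} ∂μ0 ≤
        ENNReal.ofReal (C / 2 ^ k) * (volume E * volume E)

/-- if not half of the candidates are bad then there are many solutions -/
lemma half_of_bad {n : ℕ} (φ : Fin (n + 1) → ℕ → ℝ → ℝ) (P : Fin (n + 1) → Set ℕ) (l : ℝ) (t : Fin n → ℝ)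
    (F : Finset ℕ) (X r r' r1 m m1 : ℝ) (ms : (Fin n → ℝ) → ℝ) (ms1 : (Fin n → ℝ) → ℝ)
    (ms' : (Fin (n + 1) → ℝ) → ℝ)
    (hF : ∀ x ∈ F, x ∈ P 0 ∧ 0 ≤ φ 0 x l ∧ φ 0 x l ≤ X / 2) (hr : r ≤ r') (hr1 : r1 ≤ r')
    (hm : m ≤ ms t) (hm1 : m ≤ ms1 t) (hm0 : 0 ≤ m) (hms' : ms' (Fin.cons l t) ≤ m1)
    (hm1' : m1 ≤ (F.card : ℝ) / 2 * m) (N : ℝ) (hN : N ∈ Bs φ P r' X ms' (Fin.cons l t)) :
    Half (φ 0) (Bs (fun i => φ i.succ) (fun i => P i.succ) r X ms t ∪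
      Bs (fun i => φ i.succ) (fun i => P i.succ) r1 (X / 2) ms1 t) F l N := by
  obtain ⟨E, hE⟩ : ∃ E : Set ℝ, E = Bs (fun i => φ i.succ) (fun i => P i.succ) r X ms t ∪
      Bs (fun i => φ i.succ) (fun i => P i.succ) r1 (X / 2) ms1 t := ⟨_, rfl⟩
  rw [← hE]
  classical
  obtain ⟨⟨hN1, hN2⟩, hN3⟩ := hN
  unfold Half
  by_contra hcon
  push Not at hcon
  set G := F.filter fun x => N - φ 0 x l ∉ E with hG
  have hcard : (F.filter fun x => N - φ 0 x l ∈ E).card + G.card = F.card := by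
    rw [hG]
    exact Finset.card_filter_add_card_filter_not _
  have hGc : (F.card : ℝ) / 2 ≤ (G.card : ℝ) := by
    have h1 : F.card ≤ 2 * G.card := by
      omega
    have h2 : (F.card : ℝ) ≤ 2 * G.card := by exact_mod_cast h1
    linarith
  apply hN3
  have hrep : ∀ x ∈ G, Rep (Sv (fun i => φ i.succ) t) (Al fun i => P i.succ) (N - φ 0 x l) r' m := by
    intro x hx
    rw [hG, Finset.mem_filter] at hx
    obtain ⟨hxF, hxE⟩ := hx
    obtain ⟨-, h0, h1⟩ := hF x hxF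
    rw [hE, mem_union, not_or] at hxE
    rcases le_or_gt X (N - φ 0 x l) with h | h
    · have : Rep (Sv (fun i => φ i.succ) t) (Al fun i => P i.succ) (N - φ 0 x l) r (ms t) := by
        by_contra hh
        exact hxE.1 ⟨⟨h, by linarith⟩, hh⟩
      exact this.mono (fun _ h => h) hr hm
    · have : Rep (Sv (fun i => φ i.succ) t) (Al fun i => P i.succ) (N - φ 0 x l) r1 (ms1 t) := by
        by_contra hh
        exact hxE.2 ⟨⟨by linarith, by linarith⟩, hh⟩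
      exact this.mono (fun _ h => h) hr1 hm1
  have := rep_cons φ P l t G (fun x hx => (hF x (Finset.mem_of_mem_filter x hx)).1) N r' m hrep
  refine this.mono (fun _ h => h) le_rfl ?_
  calc ms' (Fin.cons l t) ≤ m1 := hms'
    _ ≤ (F.card : ℝ) / 2 * m := hm1'
    _ ≤ G.card * m := by gcongr

/-- Borel–Cantelli for measures of bad sets -/
lemma bc {Ω : Type*} [MeasurableSpace Ω] (μ : Measure Ω) (f : ℕ → Ω → ℝ≥0∞) (hf : ∀ k, Measurable (f k))
    (a b : ℕ → ℝ) (ha : ∀ k, 0 ≤ a k) (hb : ∀ k, 0 < b k) (K : ℕ)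
    (h : ∀ k, K ≤ k → ∫⁻ ω, f k ω ∂μ ≤ ENNReal.ofReal (a k)) (hs : Summable fun k => a k / b k) :
    ∀ᵐ ω ∂μ, ∀ᶠ k in atTop, f k ω ≤ ENNReal.ofReal (b k) := by
  have hB : ∀ k, K ≤ k → μ {ω | ENNReal.ofReal (b k) ≤ f k ω} ≤ ENNReal.ofReal (a k / b k) := by
    intro k hk
    refine (meas_ge_le_lintegral_div (hf k).aemeasurable (by simpa using hb k)
      ENNReal.ofReal_ne_top).trans ?_
    rw [ENNReal.ofReal_div_of_pos (hb k)]
    exact ENNReal.div_le_div_right (h k hk) _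
  have hBC := measure_limsup_atTop_eq_zero (μ := μ)
    (s := fun k => if K ≤ k then {ω | ENNReal.ofReal (b k) ≤ f k ω} else ∅) (by
    refine ne_top_of_le_ne_top (Summable.tsum_ofReal_ne_top hs) ?_
    refine ENNReal.tsum_le_tsum fun k => ?_
    by_cases hk : K ≤ k
    · simp only [hk, if_true]; exact hB k hk
    · simp [hk])
  have h7 : ∀ᵐ ω ∂μ, ∀ᶠ k : ℕ in atTop,
      ω ∉ (if K ≤ k then {ω | ENNReal.ofReal (b k) ≤ f k ω} else ∅) := by
    rw [ae_iff]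
    refine measure_mono_null ?_ hBC
    intro ω hω
    simp only [mem_ofPred_eq, not_eventually, not_not] at hω
    rw [mem_limsup_iff_frequently_mem]
    exact hω
  filter_upwards [h7] with ω hω
  filter_upwards [hω, eventually_ge_atTop K] with k hk hk2
  rw [if_pos hk2] at hk
  exact (not_le.mp hk).le

end Pool.Agent.Q83.WG
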