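import Mathlib
import Pool.Agent.Q83.WG.TA

/-!
# The squaring step
-/

set_option autoImplicit false
set_option linter.unusedSectionVars false

open MeasureTheory Filter Topology Set
open scoped ENNReal

namespace Pool.Agent.Q83.WG

/-- the almost-all property with density exponent `2^j (q1 - 1 - γ)` -/
def HH {n : ℕ} (μ : Fin n → Measure ℝ) (φ : Fin n → ℕ → ℝ → ℝ) (P : Fin n → Set ℕ)
    (q q1 : (Fin n → ℝ) → ℝ) (j : ℕ) : Prop :=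
  ∀ γ : ℝ, 0 ≤ γ → ∀ ε : ℝ, 0 < ε → ∀ᵐ t ∂(Measure.pi μ), ∀ᶠ k : ℕ in atTop,
    volume (Bs φ P (((2 : ℝ) ^ k) ^ (-γ)) (2 ^ k) (fun t => ((2 : ℝ) ^ k) ^ (q t - 1 - γ - ε)) t) ≤
      ENNReal.ofReal (((2 : ℝ) ^ k) ^ (1 - 2 ^ j * (q1 t - 1 - γ) + ε))

lemma measurableSet_ev {Ω : Type*} [MeasurableSpace Ω] (f g : ℕ → Ω → ℝ≥0∞) (hf : ∀ k, Measurable (f k))
    (hg : ∀ k, Measurable (g k)) : MeasurableSet {ω | ∀ᶠ k in atTop, f k ω ≤ g k ω} := by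
  have h : {ω | ∀ᶠ k in atTop, f k ω ≤ g k ω} = ⋃ a : ℕ, ⋂ b : ℕ, ⋂ _ : a ≤ b, {ω | f b ω ≤ g b ω} := by
    ext ω
    simp only [eventually_atTop, mem_ofPred_eq, mem_iUnion, mem_iInter, ge_iff_le]
  rw [h]
  exact MeasurableSet.iUnion fun a => MeasurableSet.iInter fun b => MeasurableSet.iInter fun _ =>
    measurableSet_le (hf b) (hg b)

lemma half_pow (k : ℕ) (hk : 1 ≤ k) : (2 : ℝ) ^ k / 2 = 2 ^ (k - 1) := by
  obtain ⟨m, rfl⟩ : ∃ m, k = m + 1 := ⟨k - 1, by omega⟩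
  rw [pow_succ]
  simp

lemma half_rpow (k : ℕ) (hk : 1 ≤ k) (B : ℝ) :
    ((2 : ℝ) ^ (k - 1)) ^ B = ((2 : ℝ) ^ k) ^ B * (2 : ℝ) ^ (-B) := by
  rw [← half_pow k hk, Real.div_rpow (by positivity) (by norm_num), Real.rpow_neg (by norm_num)]
  rfl

lemma summable_geo (C' δ : ℝ) (hδ : 0 < δ) : Summable fun k : ℕ => C' * ((2 : ℝ) ^ k) ^ (-δ) := by
  have h1 : (2 : ℝ) ^ (-δ) < 1 := Real.rpow_lt_one_of_one_lt_of_neg (by norm_num) (by linarith)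
  have h2 : (0 : ℝ) ≤ (2 : ℝ) ^ (-δ) := by positivity
  refine ((summable_geometric_of_lt_one h2 h1).mul_left C').congr fun k => ?_
  rw [rpow_two_pow]

theorem step {n : ℕ} (μ : Fin (n + 1) → Measure ℝ) [∀ i, IsProbabilityMeasure (μ i)]
    (φ : Fin (n + 1) → ℕ → ℝ → ℝ) (hφ : ∀ i x, Measurable (φ i x)) (P : Fin (n + 1) → Set ℕ)
    (q q1 : (Fin n → ℝ) → ℝ) (hq : Measurable q) (hq1 : Measurable q1) (p0 : ℝ → ℝ)
    (hp0 : Measurable p0) (j : ℕ)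
    (H : HH (fun i : Fin n => μ i.succ) (fun i => φ i.succ) (fun i => P i.succ) q q1 j)
    (hnew : NewVar (μ 0) (φ 0) (P 0) p0) :
    HH μ φ P (fun t => p0 (t 0) + q (fun i => t i.succ)) (fun t => q1 (fun i => t i.succ)) (j + 1) := by
  intro γ hγ ε hε
  obtain ⟨ε1, hε1⟩ : ∃ ε1 : ℝ, ε1 = ε / (4 * (2 ^ (j + 1) + 2)) := ⟨_, rfl⟩
  have h2j : (0 : ℝ) < 2 ^ (j + 1) + 2 := by positivity
  have hε10 : 0 < ε1 := by rw [hε1]; positivity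
  have hε1e : (2 ^ (j + 1) + 2) * ε1 = ε / 4 := by rw [hε1]; field_simp
  have hε12 : 2 * ε1 ≤ ε / 4 := by
    rw [← hε1e]
    have : (0 : ℝ) ≤ 2 ^ (j + 1) := by positivity
    nlinarith
  obtain ⟨c, C, hc, hC, k0, hk0, hnew'⟩ := hnew
  have hmtail : Measurable fun t : Fin (n + 1) → ℝ => fun i : Fin n => t i.succ :=
    measurable_pi_iff.2 fun i => measurable_pi_apply _
  have hmm : ∀ k : ℕ, Measurable fun t : Fin (n + 1) → ℝ =>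
      ((2 : ℝ) ^ k) ^ (p0 (t 0) + q (fun i => t i.succ) - 1 - γ - ε) := by
    intro k
    refine Measurable.pow measurable_const ?_
    exact ((((hp0.comp (measurable_pi_apply 0)).add (hq.comp hmtail)).sub_const _).sub_const _).sub_const _
  refine ae_cons μ (s := {t | ∀ᶠ k : ℕ in atTop,
    volume (Bs φ P (((2 : ℝ) ^ k) ^ (-γ)) (2 ^ k)
      (fun t => ((2 : ℝ) ^ k) ^ (p0 (t 0) + q (fun i => t i.succ) - 1 - γ - ε)) t) ≤
      ENNReal.ofReal (((2 : ℝ) ^ k) ^ (1 - 2 ^ (j + 1) * (q1 (fun i => t i.succ) - 1 - γ) + ε))}) ?_ ?_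
  · refine measurableSet_ev _ _ (fun k => measurable_vol_Bs hφ P _ _ (hmm k)) (fun k => ?_)
    refine Measurable.ennreal_ofReal (Measurable.pow measurable_const ?_)
    exact (measurable_const.sub (((((hq1.comp hmtail).sub_const _).sub_const _)).const_mul _)).add_const _
  filter_upwards [H (γ + ε1) (by linarith) ε1 hε10] with t ht
  obtain ⟨B, hB⟩ : ∃ B : ℝ, B = 1 - 2 ^ j * (q1 t - 1 - (γ + ε1)) + ε1 := ⟨_, rfl⟩
  obtain ⟨y, hy⟩ : ∃ y : ℝ, y = q t - 1 - (γ + ε1) - ε1 := ⟨_, rfl⟩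
  rw [← hB] at ht
  have ht' : ∀ᶠ k : ℕ in atTop, volume (Bs (fun i => φ i.succ) (fun i => P i.succ)
      (((2 : ℝ) ^ k) ^ (-(γ + ε1))) (2 ^ k) (fun t => ((2 : ℝ) ^ k) ^ (q t - 1 - (γ + ε1) - ε1)) t) ≤
      ENNReal.ofReal (((2 : ℝ) ^ k) ^ B) := ht
  -- thresholds
  have hmin0 : 0 < min 1 ((2 : ℝ) ^ (-y)) := lt_min one_pos (by positivity)
  have ev1 := poly_le_geom 1 ((2 / c) / min 1 ((2 : ℝ) ^ (-y))) (ε - 2 * ε1) (by linarith)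
  have ev2 : ∀ᶠ k : ℕ in atTop, (2 : ℝ) ^ (γ + ε1) ≤ ((2 : ℝ) ^ k) ^ ε1 :=
    (((tendsto_rpow_atTop hε10).comp two_pow_tendsto)).eventually_ge_atTop _
  obtain ⟨K0, hK0⟩ := eventually_atTop.mp (ht'.and (ev1.and ev2))
  have main := bc (μ 0) (fun k l => volume (Bs φ P (((2 : ℝ) ^ k) ^ (-γ)) (2 ^ k)
      (fun t => ((2 : ℝ) ^ k) ^ (p0 (t 0) + q (fun i => t i.succ) - 1 - γ - ε)) (Fin.cons l t)))
    (fun k => (measurable_vol_Bs hφ P _ _ (hmm k)).comp (cons_measurable t))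
    (fun k => C / 2 ^ k * ((((2 : ℝ) ^ k) ^ B * (1 + (2 : ℝ) ^ (-B))) *
      (((2 : ℝ) ^ k) ^ B * (1 + (2 : ℝ) ^ (-B)))))
    (fun k => ((2 : ℝ) ^ k) ^ (1 - 2 ^ (j + 1) * (q1 t - 1 - γ) + ε))
    (fun k => by positivity) (fun k => by positivity) (max k0 (K0 + 1)) ?_ ?_
  · filter_upwards [main] with l hl
    filter_upwards [hl] with k hk
    simpa using hk
  · intro k hk
    have hk0' : k0 ≤ k := (le_max_left _ _).trans hk
    have hK0' : K0 + 1 ≤ k := (le_max_right _ _).trans hk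
    have hk1 : 1 ≤ k := by omega
    have hkpos : (0 : ℝ) < k := by exact_mod_cast hk1
    obtain ⟨g1, g2, g3⟩ := hK0 k (by omega)
    obtain ⟨g1', -, -⟩ := hK0 (k - 1) (by omega)
    obtain ⟨F1, F2, hF, hE⟩ := hnew' k hk0'
    have hX0 : (0 : ℝ) < 2 ^ k := by positivity
    have hX0' : (0 : ℝ) < 2 ^ (k - 1) := by positivity
    obtain ⟨E, hEd⟩ : ∃ E : Set ℝ, E = Bs (fun i => φ i.succ) (fun i => P i.succ)
      (((2 : ℝ) ^ k) ^ (-(γ + ε1))) (2 ^ k) (fun t => ((2 : ℝ) ^ k) ^ (q t - 1 - (γ + ε1) - ε1)) t ∪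
      Bs (fun i => φ i.succ) (fun i => P i.succ)
      (((2 : ℝ) ^ (k - 1)) ^ (-(γ + ε1))) (2 ^ k / 2)
        (fun t => ((2 : ℝ) ^ (k - 1)) ^ (q t - 1 - (γ + ε1) - ε1)) t := ⟨_, rfl⟩
    have hmq : ∀ k : ℕ, Measurable fun t : Fin n → ℝ => ((2 : ℝ) ^ k) ^ (q t - 1 - (γ + ε1) - ε1) := by
      intro k
      exact Measurable.pow measurable_const (((hq.sub_const _).sub_const _).sub_const _)
    have hEm : MeasurableSet E := by
      rw [hEd]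
      exact (measurableSet_Bs_fst (fun i x => hφ i.succ x) _ _ _ (hmq k) t).union
        (measurableSet_Bs_fst (fun i x => hφ i.succ x) _ _ _ (hmq (k - 1)) t)
    have hEv : volume E ≤ ENNReal.ofReal (((2 : ℝ) ^ k) ^ B * (1 + (2 : ℝ) ^ (-B))) := by
      have e1 : ((2 : ℝ) ^ k) ^ B * (1 + (2 : ℝ) ^ (-B)) = ((2 : ℝ) ^ k) ^ B + ((2 : ℝ) ^ (k - 1)) ^ B := by
        rw [half_rpow k hk1]; ring
      rw [e1, ENNReal.ofReal_add (by positivity) (by positivity), hEd]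
      refine (measure_union_le _ _).trans (add_le_add g1 ?_)
      rw [half_pow k hk1]
      exact g1'
    -- the parameters
    have hr1 : ((2 : ℝ) ^ (k - 1)) ^ (-(γ + ε1)) ≤ ((2 : ℝ) ^ k) ^ (-γ) := by
      rw [half_rpow k hk1, neg_neg, neg_add, Real.rpow_add hX0]
      have : ((2 : ℝ) ^ k) ^ (-ε1) * (2 : ℝ) ^ (γ + ε1) ≤ 1 := by
        rw [Real.rpow_neg hX0.le, inv_mul_le_one₀ (by positivity)]
        exact g3
      calc ((2 : ℝ) ^ k) ^ (-γ) * ((2 : ℝ) ^ k) ^ (-ε1) * (2 : ℝ) ^ (γ + ε1) =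
            ((2 : ℝ) ^ k) ^ (-γ) * (((2 : ℝ) ^ k) ^ (-ε1) * (2 : ℝ) ^ (γ + ε1)) := by ring
        _ ≤ ((2 : ℝ) ^ k) ^ (-γ) * 1 := by gcongr
        _ = _ := mul_one _
    have hr : ((2 : ℝ) ^ k) ^ (-(γ + ε1)) ≤ ((2 : ℝ) ^ k) ^ (-γ) :=
      Real.rpow_le_rpow_of_exponent_le (one_le_pow₀ (by norm_num)) (by linarith)
    have hmm1 : ∀ l : ℝ, ∀ F : Finset ℕ, c * ((2 : ℝ) ^ k) ^ p0 l / k ≤ (F.card : ℝ) →
        ((2 : ℝ) ^ k) ^ (p0 l + q t - 1 - γ - ε) ≤ (F.card : ℝ) / 2 *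
          min (((2 : ℝ) ^ k) ^ y) (((2 : ℝ) ^ (k - 1)) ^ y) := by
      intro l F hF
      rw [pow_one, div_mul_eq_mul_div, div_le_iff₀ hmin0] at g2
      have e1 : min (((2 : ℝ) ^ k) ^ y) (((2 : ℝ) ^ (k - 1)) ^ y) =
          ((2 : ℝ) ^ k) ^ y * min 1 ((2 : ℝ) ^ (-y)) := by
        rw [half_rpow k hk1, mul_min_of_nonneg _ _ (by positivity), mul_one]
      rw [e1]
      have e2 : ((2 : ℝ) ^ k) ^ (p0 l + q t - 1 - γ - ε) =
          ((2 : ℝ) ^ k) ^ p0 l * ((2 : ℝ) ^ k) ^ y * ((2 : ℝ) ^ k) ^ (-(ε - 2 * ε1)) := by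
        rw [← Real.rpow_add hX0, ← Real.rpow_add hX0]
        congr 1
        rw [hy]; ring
      rw [e2]
      have h3 : ((2 : ℝ) ^ k) ^ (-(ε - 2 * ε1)) ≤ c / (2 * k) * min 1 ((2 : ℝ) ^ (-y)) := by
        rw [Real.rpow_neg hX0.le, inv_le_iff_one_le_mul₀ (by positivity)]
        calc (1 : ℝ) = c / (2 * k) * (2 / c * k) := by field_simp
          _ ≤ c / (2 * k) * (((2 : ℝ) ^ k) ^ (ε - 2 * ε1) * min 1 ((2 : ℝ) ^ (-y))) := by gcongr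
          _ = _ := by ring
      calc ((2 : ℝ) ^ k) ^ p0 l * ((2 : ℝ) ^ k) ^ y * ((2 : ℝ) ^ k) ^ (-(ε - 2 * ε1))
          ≤ ((2 : ℝ) ^ k) ^ p0 l * ((2 : ℝ) ^ k) ^ y * (c / (2 * k) * min 1 ((2 : ℝ) ^ (-y))) := by
            gcongr
        _ = (c * ((2 : ℝ) ^ k) ^ p0 l / k) / 2 * (((2 : ℝ) ^ k) ^ y * min 1 ((2 : ℝ) ^ (-y))) := by
            ring
        _ ≤ _ := by gcongr
    calc ∫⁻ l, volume (Bs φ P (((2 : ℝ) ^ k) ^ (-γ)) (2 ^ k)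
          (fun t => ((2 : ℝ) ^ k) ^ (p0 (t 0) + q (fun i => t i.succ) - 1 - γ - ε)) (Fin.cons l t)) ∂(μ 0)
        ≤ ∫⁻ l, volume {N : ℝ | Half (φ 0) E (F1 l) l N ∧ Half (φ 0) E (F2 l) l N} ∂(μ 0) := by
          refine lintegral_mono_ae ?_
          filter_upwards [hF] with l hl
          refine measure_mono fun N hN => ?_
          obtain ⟨⟨a1, a2⟩, ⟨b1, b2⟩⟩ := hl
          rw [hEd]
          refine ⟨?_, ?_⟩
          · exact half_of_bad φ P l t (F1 l) (2 ^ k) _ _ _ (min (((2 : ℝ) ^ k) ^ y) (((2 : ℝ) ^ (k - 1)) ^ y))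
              (((2 : ℝ) ^ k) ^ (p0 l + q t - 1 - γ - ε)) _ _ _ a2 hr hr1
              (by rw [← hy]; exact min_le_left _ _) (by rw [← hy]; exact min_le_right _ _)
              (by positivity) (by simp) (hmm1 l _ a1) N hN
          · exact half_of_bad φ P l t (F2 l) (2 ^ k) _ _ _ (min (((2 : ℝ) ^ k) ^ y) (((2 : ℝ) ^ (k - 1)) ^ y))
              (((2 : ℝ) ^ k) ^ (p0 l + q t - 1 - γ - ε)) _ _ _ b2 hr hr1
              (by rw [← hy]; exact min_le_left _ _) (by rw [← hy]; exact min_le_right _ _)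
              (by positivity) (by simp) (hmm1 l _ b1) N hN
      _ ≤ ENNReal.ofReal (C / 2 ^ k) * (volume E * volume E) := hE E hEm
      _ ≤ ENNReal.ofReal (C / 2 ^ k) * (ENNReal.ofReal (((2 : ℝ) ^ k) ^ B * (1 + (2 : ℝ) ^ (-B))) *
            ENNReal.ofReal (((2 : ℝ) ^ k) ^ B * (1 + (2 : ℝ) ^ (-B)))) := by gcongr
      _ = _ := by
          rw [← ENNReal.ofReal_mul (by positivity), ← ENNReal.ofReal_mul (by positivity)]
  · have hs := summable_geo (C * ((1 + (2 : ℝ) ^ (-B)) * (1 + (2 : ℝ) ^ (-B)))) (3 * ε / 4) (by positivity)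
    refine hs.congr fun k => ?_
    have hX0 : (0 : ℝ) < 2 ^ k := by positivity
    have e1 : ((2 : ℝ) ^ k) ^ (-(3 * ε / 4)) * ((2 : ℝ) ^ k) ^ (1 - 2 ^ (j + 1) * (q1 t - 1 - γ) + ε) * 2 ^ k =
        ((2 : ℝ) ^ k) ^ B * ((2 : ℝ) ^ k) ^ B := by
      nth_rewrite 3 [← Real.rpow_one ((2 : ℝ) ^ k)]
      rw [← Real.rpow_add hX0, ← Real.rpow_add hX0, ← Real.rpow_add hX0]
      congr 1
      rw [hB]
      have : (2 : ℝ) ^ (j + 1) = 2 * 2 ^ j := by ring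
      rw [this] at hε1e ⊢
      linear_combination (-1 : ℝ) * hε1e
    have hb0 : 0 < ((2 : ℝ) ^ k) ^ (1 - 2 ^ (j + 1) * (q1 t - 1 - γ) + ε) := by positivity
    rw [eq_div_iff hb0.ne']
    calc C * ((1 + (2 : ℝ) ^ (-B)) * (1 + (2 : ℝ) ^ (-B))) * ((2 : ℝ) ^ k) ^ (-(3 * ε / 4)) *
          ((2 : ℝ) ^ k) ^ (1 - 2 ^ (j + 1) * (q1 t - 1 - γ) + ε)
        = C / 2 ^ k * ((1 + (2 : ℝ) ^ (-B)) * (1 + (2 : ℝ) ^ (-B))) * (((2 : ℝ) ^ k) ^ (-(3 * ε / 4)) *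
          ((2 : ℝ) ^ k) ^ (1 - 2 ^ (j + 1) * (q1 t - 1 - γ) + ε) * 2 ^ k) := by field_simp
      _ = _ := by rw [e1]; ring

end Pool.Agent.Q83.WG
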