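import Mathlib
import Pool.Agent.Q83.WG.TB

/-!
# No exceptional targets; the two-point estimate
-/

set_option autoImplicit false
set_option linter.unusedSectionVars false

open MeasureTheory Filter Topology Set
open scoped ENNReal

namespace Pool.Agent.Q83.WG

/-- comparison of powers at `N ∈ [X, 2X]` -/
lemma pow_comp (X N z : ℝ) (hX : 0 < X) (h1 : X ≤ N) (h2 : N ≤ 2 * X) :
    N ^ z ≤ 2 ^ |z| * X ^ z ∧ X ^ z ≤ 2 ^ |z| * N ^ z := by
  have hN : 0 < N := by linarith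
  have h2z : (1 : ℝ) ≤ 2 ^ |z| := Real.one_le_rpow (by norm_num) (abs_nonneg _)
  rcases le_or_gt 0 z with h | h
  · constructor
    · rw [abs_of_nonneg h, ← Real.mul_rpow (by norm_num) hX.le]
      exact Real.rpow_le_rpow hN.le h2 h
    · calc X ^ z ≤ N ^ z := Real.rpow_le_rpow hX.le h1 h
        _ ≤ 2 ^ |z| * N ^ z := by
          have : 0 < N ^ z := by positivity
          nlinarith
  · constructor
    · calc N ^ z ≤ X ^ z := Real.rpow_le_rpow_of_nonpos hX h1 h.le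
        _ ≤ 2 ^ |z| * X ^ z := by
          have : 0 < X ^ z := by positivity
          nlinarith
    · rw [abs_of_neg h, Real.rpow_neg (by norm_num : (0:ℝ) ≤ 2), ← Real.inv_rpow (by norm_num),
        ← Real.mul_rpow (by norm_num) hN.le]
      exact Real.rpow_le_rpow_of_nonpos (by positivity) (by linarith) h.le

/-- **All large targets.** -/
theorem final {n : ℕ} (μ : Fin n → Measure ℝ) (φ : Fin n → ℕ → ℝ → ℝ) (P : Fin n → Set ℕ)
    (q q1 : (Fin n → ℝ) → ℝ) (j : ℕ) (H : HH μ φ P q q1 j) :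
    ∀ᵐ t ∂(Measure.pi μ), ∀ γ : ℝ, 0 ≤ γ → 1 + γ < 2 ^ j * (q1 t - 1 - γ) → ∀ ε : ℝ, 0 < ε →
      ∀ᶠ N : ℝ in atTop, Rep (Sv φ t) (Al P) N (N ^ (-γ)) (N ^ (q t - 1 - γ - ε)) := by
  have H' : ∀ᵐ t ∂(Measure.pi μ), ∀ γ ε : ℚ, 0 ≤ γ → 0 < ε → ∀ᶠ k : ℕ in atTop,
      volume (Bs φ P (((2 : ℝ) ^ k) ^ (-(γ : ℝ))) (2 ^ k)
        (fun t => ((2 : ℝ) ^ k) ^ (q t - 1 - γ - ε)) t) ≤
      ENNReal.ofReal (((2 : ℝ) ^ k) ^ (1 - 2 ^ j * (q1 t - 1 - (γ : ℝ)) + ε)) := by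
    rw [ae_all_iff]; intro γ
    rw [ae_all_iff]; intro ε
    by_cases h1 : 0 ≤ γ
    · by_cases h2 : 0 < ε
      · filter_upwards [H γ (by exact_mod_cast h1) ε (by exact_mod_cast h2)] with t ht _ _ using ht
      · exact ae_of_all _ fun t _ h => absurd h h2
    · exact ae_of_all _ fun t h => absurd h h1
  filter_upwards [H'] with t ht γ hγ hγ2 ε hε
  obtain ⟨Δ, hΔ⟩ : ∃ Δ : ℝ, Δ = 2 ^ j * (q1 t - 1 - γ) - (1 + γ) := ⟨_, rfl⟩
  have hΔ0 : 0 < Δ := by rw [hΔ]; linarith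
  have h2j : (0 : ℝ) < 2 ^ j := by positivity
  obtain ⟨γ', hγ1, hγ'⟩ := exists_rat_btwn (show γ < γ + min (Δ / (2 * (2 ^ j + 1))) (ε / 2) by
    have : 0 < min (Δ / (2 * (2 ^ j + 1))) (ε / 2) := lt_min (by positivity) (by positivity)
    linarith)
  have hγ'1 : (γ' : ℝ) < γ + Δ / (2 * (2 ^ j + 1)) := hγ'.trans_le (by
    have := min_le_left (Δ / (2 * (2 ^ j + 1))) (ε / 2)
    linarith)
  have hγ'2 : (γ' : ℝ) < γ + ε / 2 := hγ'.trans_le (by
    have := min_le_right (Δ / (2 * (2 ^ j + 1))) (ε / 2)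
    linarith)
  obtain ⟨ε', hε'0, hε'⟩ := exists_rat_btwn (show (0 : ℝ) < min (Δ / 4) (ε / 4) from
    lt_min (by positivity) (by positivity))
  have hε'1 : (ε' : ℝ) < Δ / 4 := hε'.trans_le (min_le_left _ _)
  have hε'2 : (ε' : ℝ) < ε / 4 := hε'.trans_le (min_le_right _ _)
  have hexp : 1 - 2 ^ j * (q1 t - 1 - (γ' : ℝ)) + ε' < -(γ' : ℝ) := by
    have h1 : (2 ^ j + 1) * ((γ' : ℝ) - γ) < Δ / 2 := by
      have h2 : (γ' : ℝ) - γ < Δ / (2 * (2 ^ j + 1)) := by linarith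
      calc (2 ^ j + 1) * ((γ' : ℝ) - γ) < (2 ^ j + 1) * (Δ / (2 * (2 ^ j + 1))) :=
            mul_lt_mul_of_pos_left h2 (by positivity)
        _ = Δ / 2 := by field_simp
    rw [hΔ] at h1 hε'1
    have hΔ0' := hΔ0
    rw [hΔ] at hΔ0'
    nlinarith
  have hγ'0 : (0 : ℝ) ≤ γ' := by linarith
  have h1 := ht γ' ε' (by exact_mod_cast hγ'0) (by exact_mod_cast hε'0)
  obtain ⟨z, hz⟩ : ∃ z : ℝ, z = q t - 1 - γ - ε := ⟨_, rfl⟩
  have ev1 : ∀ᶠ k : ℕ in atTop, (2 : ℝ) ^ (1 + γ) ≤ ((2 : ℝ) ^ k) ^ ((γ' : ℝ) - γ) :=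
    (((tendsto_rpow_atTop (by linarith)).comp two_pow_tendsto)).eventually_ge_atTop _
  have ev2 : ∀ᶠ k : ℕ in atTop, (2 : ℝ) ^ |z| ≤ ((2 : ℝ) ^ k) ^ (ε - ε' - ((γ' : ℝ) - γ)) :=
    (((tendsto_rpow_atTop (by linarith)).comp two_pow_tendsto)).eventually_ge_atTop _
  obtain ⟨K, hK⟩ := eventually_atTop.mp (h1.and (ev1.and ev2))
  filter_upwards [eventually_ge_atTop ((2 : ℝ) ^ (K + 1))] with N0 hN0
  have hN1 : 1 ≤ N0 := le_trans (one_le_pow₀ (by norm_num)) hN0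
  obtain ⟨k, ha, hb⟩ := exists_nat_pow_near hN1 (show (1 : ℝ) < 2 by norm_num)
  have hkK : K + 1 ≤ k := by
    by_contra hcon
    have : k + 1 ≤ K + 1 := by omega
    have := pow_le_pow_right₀ (show (1 : ℝ) ≤ 2 by norm_num) this
    linarith
  obtain ⟨g1, g2, g3⟩ := hK k (by omega)
  obtain ⟨X, hX⟩ : ∃ X : ℝ, X = (2 : ℝ) ^ k := ⟨_, rfl⟩
  rw [← hX] at ha g1 g2 g3
  have hb' : N0 ≤ 2 * X := by rw [hX]; rw [pow_succ] at hb; linarith
  have hX2 : 2 ≤ X := by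
    rw [hX]
    calc (2 : ℝ) = 2 ^ 1 := by norm_num
      _ ≤ 2 ^ k := pow_le_pow_right₀ (by norm_num) (by omega)
  have hX0 : 0 < X := by linarith
  by_contra hbad
  obtain ⟨h, hh⟩ : ∃ h : ℝ, h = X ^ (-(γ' : ℝ)) := ⟨_, rfl⟩
  have hh0 : 0 < h := by rw [hh]; positivity
  have hh1 : h ≤ 1 := by rw [hh]; exact Real.rpow_le_one_of_one_le_of_nonpos (by linarith) (by linarith)
  have key : ∀ N : ℝ, |N - N0| ≤ h → X ≤ N → N ≤ 2 * X → N ∈ Bs φ P (X ^ (-(γ' : ℝ))) X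
      (fun t => X ^ (q t - 1 - γ' - ε')) t := by
    intro N hN hN1 hN2
    refine ⟨⟨hN1, hN2⟩, fun hrep => hbad ?_⟩
    obtain ⟨T, hT1, hT2⟩ := hrep
    refine ⟨T, ?_, fun x hx => ⟨(hT2 x hx).1, ?_⟩⟩
    · refine le_trans ?_ hT1
      rw [← hz]
      refine (pow_comp X N0 z hX0 ha hb').1.trans ?_
      have e1 : X ^ (q t - 1 - (γ' : ℝ) - ε') = X ^ (ε - ε' - ((γ' : ℝ) - γ)) * X ^ z := by
        rw [← Real.rpow_add hX0]; congr 1; rw [hz]; ring
      show 2 ^ |z| * X ^ z ≤ X ^ (q t - 1 - (γ' : ℝ) - ε')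
      rw [e1]
      gcongr
    · have h2 := (hT2 x hx).2
      have h3 : |Sv φ t x - N0| ≤ |Sv φ t x - N| + |N - N0| := by
        have := abs_sub_le (Sv φ t x) N N0
        exact this
      refine h3.trans ?_
      have h4 : 2 * h ≤ N0 ^ (-γ) := by
        have h5 : (2 * X) ^ (-γ) ≤ N0 ^ (-γ) := Real.rpow_le_rpow_of_nonpos (by linarith) hb' (by linarith)
        refine le_trans ?_ h5
        rw [Real.mul_rpow (by norm_num) hX0.le, hh]
        have e2 : X ^ (-γ) = X ^ ((γ' : ℝ) - γ) * X ^ (-(γ' : ℝ)) := by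
          rw [← Real.rpow_add hX0]; congr 1; ring
        rw [e2]
        have e3 : (2 : ℝ) = 2 ^ (-γ) * 2 ^ (1 + γ) := by
          rw [← Real.rpow_add (by norm_num)]
          norm_num
        calc 2 * X ^ (-(γ' : ℝ)) = 2 ^ (-γ) * 2 ^ (1 + γ) * X ^ (-(γ' : ℝ)) := by rw [← e3]
          _ ≤ 2 ^ (-γ) * X ^ ((γ' : ℝ) - γ) * X ^ (-(γ' : ℝ)) := by gcongr
          _ = _ := by ring
      rw [← hh] at h2
      linarith
  have hvol : ENNReal.ofReal h ≤ volume (Bs φ P (X ^ (-(γ' : ℝ))) X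
      (fun t => X ^ (q t - 1 - γ' - ε')) t) := by
    rcases le_or_gt (N0 + h) (2 * X) with h' | h'
    · have hsub : Icc N0 (N0 + h) ⊆ Bs φ P (X ^ (-(γ' : ℝ))) X (fun t => X ^ (q t - 1 - γ' - ε')) t := by
        intro N hN
        refine key N ?_ (by linarith [hN.1]) (by linarith [hN.2])
        rw [abs_of_nonneg (by linarith [hN.1])]
        linarith [hN.2]
      refine le_trans (le_of_eq ?_) (measure_mono hsub)
      rw [Real.volume_Icc]
      congr 1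
      ring
    · have hsub : Icc (N0 - h) N0 ⊆ Bs φ P (X ^ (-(γ' : ℝ))) X (fun t => X ^ (q t - 1 - γ' - ε')) t := by
        intro N hN
        refine key N ?_ (by linarith [hN.1]) (by linarith [hN.2])
        rw [abs_sub_comm, abs_of_nonneg (by linarith [hN.2])]
        linarith [hN.1]
      refine le_trans (le_of_eq ?_) (measure_mono hsub)
      rw [Real.volume_Icc]
      congr 1
      ring
  have h5 := hvol.trans g1
  rw [ENNReal.ofReal_le_ofReal_iff (by positivity)] at h5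
  have h6 : X ^ (1 - 2 ^ j * (q1 t - 1 - (γ' : ℝ)) + ε') < X ^ (-(γ' : ℝ)) :=
    Real.rpow_lt_rpow_of_exponent_lt (by linarith) hexp
  rw [← hh] at h6
  linarith

/-- one pair -/
lemma pair_bound (μ0 : Measure ℝ) [SFinite μ0] (f g : ℝ → ℝ) (hf : Measurable f) (hg : Measurable g)
    (C0 : ℝ≥0∞) (hJ : ∀ E : Set ℝ, MeasurableSet E → μ0 {l | f l - g l ∈ E} ≤ C0 * volume E)
    (E : Set ℝ) (hE : MeasurableSet E) :
    ∫⁻ l, (∫⁻ N : ℝ, E.indicator (fun _ => (1 : ℝ≥0∞)) (N - f l) * E.indicator (fun _ => 1) (N - g l)) ∂μ0 ≤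
      C0 * (volume E * volume E) := by
  have hI : Measurable (E.indicator (fun _ => (1 : ℝ≥0∞))) := measurable_const.indicator hE
  have h1 : ∀ l, ∫⁻ N : ℝ, E.indicator (fun _ => (1 : ℝ≥0∞)) (N - f l) * E.indicator (fun _ => 1) (N - g l) =
      ∫⁻ u : ℝ, E.indicator (fun _ => (1 : ℝ≥0∞)) u * E.indicator (fun _ => 1) (u + (f l - g l)) := by
    intro l
    rw [← lintegral_add_right_eq_self _ (f l)]
    refine lintegral_congr fun u => ?_
    congr 2
    · ring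
    · ring
  rw [lintegral_congr h1, lintegral_lintegral_swap]
  · have h2 : ∀ u : ℝ, ∫⁻ l, E.indicator (fun _ => (1 : ℝ≥0∞)) u * E.indicator (fun _ => 1) (u + (f l - g l)) ∂μ0 ≤
        E.indicator (fun _ => (1 : ℝ≥0∞)) u * (C0 * volume E) := by
      intro u
      have hm : Measurable fun l => E.indicator (fun _ => (1 : ℝ≥0∞)) (u + (f l - g l)) :=
        hI.comp (measurable_const.add (hf.sub hg))
      rw [lintegral_const_mul _ hm]
      gcongr
      have hE' : MeasurableSet {v : ℝ | u + v ∈ E} := (measurable_const.add measurable_id) hE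
      have h3 : ∫⁻ l, E.indicator (fun _ => (1 : ℝ≥0∞)) (u + (f l - g l)) ∂μ0 =
          μ0 {l | f l - g l ∈ {v : ℝ | u + v ∈ E}} := by
        have hS : MeasurableSet {l | f l - g l ∈ {v : ℝ | u + v ∈ E}} := (hf.sub hg) hE'
        rw [← lintegral_indicator_one hS]
        refine lintegral_congr fun l => ?_
        by_cases h : u + (f l - g l) ∈ E
        · rw [indicator_of_mem h, indicator_of_mem (show l ∈ {l | f l - g l ∈ {v : ℝ | u + v ∈ E}} from h)]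
          rfl
        · rw [indicator_of_notMem h,
            indicator_of_notMem (show l ∉ {l | f l - g l ∈ {v : ℝ | u + v ∈ E}} from h)]
      rw [h3]
      refine (hJ _ hE').trans (le_of_eq ?_)
      congr 1
      exact measure_preimage_add volume u E
    refine (lintegral_mono h2).trans (le_of_eq ?_)
    rw [lintegral_mul_const _ hI, lintegral_indicator_const hE]
    ring
  · refine Measurable.aemeasurable ?_
    exact (hI.comp measurable_snd).mul
      (hI.comp (measurable_snd.add ((hf.sub hg).comp measurable_fst)))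

/-- **Two-point estimate.** -/
lemma two_point (μ0 : Measure ℝ) [SFinite μ0] (φ0 : ℕ → ℝ → ℝ) (hφ : ∀ x, Measurable (φ0 x))
    (F1 F2 : Finset ℕ) (hF1 : F1.Nonempty) (hF2 : F2.Nonempty) (C0 : ℝ≥0∞)
    (hJ : ∀ x ∈ F1, ∀ x' ∈ F2, ∀ E : Set ℝ, MeasurableSet E →
      μ0 {l | φ0 x l - φ0 x' l ∈ E} ≤ C0 * volume E)
    (E : Set ℝ) (hE : MeasurableSet E) :
    ∫⁻ l, volume {N : ℝ | Half φ0 E F1 l N ∧ Half φ0 E F2 l N} ∂μ0 ≤
      4 * (C0 * (volume E * volume E)) := by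
  classical
  have hI : Measurable (E.indicator (fun _ => (1 : ℝ≥0∞))) := measurable_const.indicator hE
  set M : ℝ≥0∞ := (F1.card : ℝ≥0∞) * F2.card with hM
  have hM0 : M ≠ 0 := by
    rw [hM]
    have h1 := hF1.card_pos.ne'
    have h2 := hF2.card_pos.ne'
    simp only [ne_eq, mul_eq_zero, Nat.cast_eq_zero, not_or]
    exact ⟨h1, h2⟩
  have hMt : M ≠ ∞ := ENNReal.mul_ne_top (ENNReal.natCast_ne_top _) (ENNReal.natCast_ne_top _)
  set G : ℝ → ℝ → ℝ≥0∞ := fun l N => ∑ x ∈ F1, ∑ x' ∈ F2,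
    E.indicator (fun _ => (1 : ℝ≥0∞)) (N - φ0 x l) * E.indicator (fun _ => 1) (N - φ0 x' l) with hG
  have hcount : ∀ (F : Finset ℕ) (l N : ℝ), ∑ x ∈ F, E.indicator (fun _ => (1 : ℝ≥0∞)) (N - φ0 x l) =
      ((F.filter fun x => N - φ0 x l ∈ E).card : ℝ≥0∞) := by
    intro F l N
    rw [Finset.card_filter, Nat.cast_sum]
    refine Finset.sum_congr rfl fun x _ => ?_
    by_cases h : N - φ0 x l ∈ E
    · rw [indicator_of_mem h, if_pos h, Nat.cast_one]
    · rw [indicator_of_notMem h, if_neg h, Nat.cast_zero]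
  have hGe : ∀ l N, Half φ0 E F1 l N ∧ Half φ0 E F2 l N → M ≤ 4 * G l N := by
    rintro l N ⟨h1, h2⟩
    have e1 : G l N = (∑ x ∈ F1, E.indicator (fun _ => (1 : ℝ≥0∞)) (N - φ0 x l)) *
        ∑ x ∈ F2, E.indicator (fun _ => (1 : ℝ≥0∞)) (N - φ0 x l) := by
      rw [hG, Finset.sum_mul_sum]
    rw [e1, hcount, hcount, hM]
    unfold Half at h1 h2
    have h1' : (F1.card : ℝ≥0∞) ≤ 2 * ((F1.filter fun x => N - φ0 x l ∈ E).card : ℝ≥0∞) := by
      exact_mod_cast h1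
    have h2' : (F2.card : ℝ≥0∞) ≤ 2 * ((F2.filter fun x => N - φ0 x l ∈ E).card : ℝ≥0∞) := by
      exact_mod_cast h2
    refine (mul_le_mul' h1' h2').trans (le_of_eq ?_)
    ring
  have hpair : ∀ (l : ℝ) (x x' : ℕ), Measurable fun N : ℝ =>
      E.indicator (fun _ => (1 : ℝ≥0∞)) (N - φ0 x l) * E.indicator (fun _ => 1) (N - φ0 x' l) := by
    intro l x x'
    exact (hI.comp (measurable_id.sub_const _)).mul (hI.comp (measurable_id.sub_const _))
  have hGm : ∀ l, Measurable (G l) := by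
    intro l
    exact Finset.measurable_fun_sum _ fun x _ => Finset.measurable_fun_sum _ fun x' _ => hpair l x x'
  have hpt : ∀ l, M * volume {N : ℝ | Half φ0 E F1 l N ∧ Half φ0 E F2 l N} ≤ ∫⁻ N, 4 * G l N := by
    intro l
    refine le_trans ?_ (mul_meas_ge_le_lintegral ((hGm l).const_mul 4) M)
    exact mul_le_mul' le_rfl (measure_mono fun N hN => hGe l N hN)
  have hsum : ∀ l, ∫⁻ N, 4 * G l N = 4 * ∑ x ∈ F1, ∑ x' ∈ F2, ∫⁻ N : ℝ,
      E.indicator (fun _ => (1 : ℝ≥0∞)) (N - φ0 x l) * E.indicator (fun _ => 1) (N - φ0 x' l) := by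
    intro l
    rw [lintegral_const_mul _ (hGm l)]
    congr 1
    simp only [hG]
    rw [lintegral_finsetSum _ fun x _ => Finset.measurable_fun_sum _ fun x' _ => hpair l x x']
    refine Finset.sum_congr rfl fun x _ => ?_
    rw [lintegral_finsetSum _ fun x' _ => hpair l x x']
  have hpm : ∀ x x' : ℕ, Measurable fun l : ℝ => ∫⁻ N : ℝ,
      E.indicator (fun _ => (1 : ℝ≥0∞)) (N - φ0 x l) * E.indicator (fun _ => 1) (N - φ0 x' l) := by
    intro x x'
    refine Measurable.lintegral_prod_right' (f := fun z : ℝ × ℝ =>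
      E.indicator (fun _ => (1 : ℝ≥0∞)) (z.2 - φ0 x z.1) * E.indicator (fun _ => 1) (z.2 - φ0 x' z.1)) ?_
    exact (hI.comp (measurable_snd.sub ((hφ x).comp measurable_fst))).mul
      (hI.comp (measurable_snd.sub ((hφ x').comp measurable_fst)))
  have hfin : M * ∫⁻ l, volume {N : ℝ | Half φ0 E F1 l N ∧ Half φ0 E F2 l N} ∂μ0 ≤
      M * (4 * (C0 * (volume E * volume E))) := by
    calc M * ∫⁻ l, volume {N : ℝ | Half φ0 E F1 l N ∧ Half φ0 E F2 l N} ∂μ0
        = ∫⁻ l, M * volume {N : ℝ | Half φ0 E F1 l N ∧ Half φ0 E F2 l N} ∂μ0 :=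
          (lintegral_const_mul' _ _ hMt).symm
      _ ≤ ∫⁻ l, (4 * ∑ x ∈ F1, ∑ x' ∈ F2, ∫⁻ N : ℝ,
          E.indicator (fun _ => (1 : ℝ≥0∞)) (N - φ0 x l) * E.indicator (fun _ => 1) (N - φ0 x' l)) ∂μ0 :=
          lintegral_mono fun l => (hpt l).trans (le_of_eq (hsum l))
      _ = 4 * ∑ x ∈ F1, ∑ x' ∈ F2, ∫⁻ l, (∫⁻ N : ℝ,
          E.indicator (fun _ => (1 : ℝ≥0∞)) (N - φ0 x l) * E.indicator (fun _ => 1) (N - φ0 x' l)) ∂μ0 := by
          rw [lintegral_const_mul _ (Finset.measurable_fun_sum _ fun x _ =>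
            Finset.measurable_fun_sum _ fun x' _ => hpm x x')]
          congr 1
          rw [lintegral_finsetSum _ fun x _ => Finset.measurable_fun_sum _ fun x' _ => hpm x x']
          refine Finset.sum_congr rfl fun x _ => ?_
          rw [lintegral_finsetSum _ fun x' _ => hpm x x']
      _ ≤ 4 * ∑ x ∈ F1, ∑ x' ∈ F2, (C0 * (volume E * volume E)) := by
          gcongr with x hx x' hx'
          exact pair_bound μ0 (φ0 x) (φ0 x') (hφ x) (hφ x') C0 (hJ x hx x' hx') E hE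
      _ = M * (4 * (C0 * (volume E * volume E))) := by
          rw [Finset.sum_const, Finset.sum_const, nsmul_eq_mul, nsmul_eq_mul, hM]
          ring
  exact (ENNReal.mul_le_mul_iff_right hM0 hMt).mp hfin

end Pool.Agent.Q83.WG
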