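import Mathlib
import Pool.Agent.Q83.WG.TC
import Pool.Agent.Q83.WG.AC

/-!
# Generic coefficients with the squaring step
-/

set_option autoImplicit false
set_option linter.unusedSectionVars false

open MeasureTheory Filter Topology Set
open scoped ENNReal

namespace Pool.Agent.Q83.WG

/-- positive elements -/
def posi (P : Set ℕ) : Set ℕ := {x | x ∈ P ∧ 0 < x}

/-- a new variable with generic coefficient -/
theorem newvar_coef (P : Set ℕ) (hP : Dense P) (κ a : ℝ) (hκ : 1 ≤ κ) (ha : 0 < a) :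
    NewVar (U a) (fun x t => t * (x : ℝ) ^ κ) (posi P) (fun _ => κ⁻¹) := by
  have hκ0 : 0 < κ := by linarith
  obtain ⟨l, hl⟩ : ∃ l : ℝ, l = 1 / ((a + 1) * 3 ^ κ * 2) := ⟨_, rfl⟩
  have hl0 : 0 < l := by rw [hl]; positivity
  obtain ⟨C, c1, hC, hc1, n0, hn0, h⟩ := ms_scale P hP κ⁻¹ 1 (l ^ κ⁻¹) (2 * max 1 l) (3 / 2) (by positivity)
    (by rw [inv_le_one₀ hκ0]; exact hκ) (by norm_num) (by positivity) (by positivity) le_rfl
  refine ⟨c1 * l ^ κ⁻¹, 4 * (2 / l), by positivity, by positivity, n0, hn0, ?_⟩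
  intro k hk
  have hX1 : (1 : ℝ) ≤ 2 ^ k := one_le_pow₀ (by norm_num)
  have hX0 : (0 : ℝ) < 2 ^ k := by positivity
  have hk1 : 1 ≤ k := hn0.trans hk
  have hkpos : (0 : ℝ) < k := by exact_mod_cast hk1
  obtain ⟨Q, hQ⟩ : ∃ Q : ℝ, Q = (l * 2 ^ k) ^ κ⁻¹ := ⟨_, rfl⟩
  have hQ0 : 0 < Q := by rw [hQ]; positivity
  have hQX : Q = l ^ κ⁻¹ * ((2 : ℝ) ^ k) ^ κ⁻¹ := by rw [hQ, Real.mul_rpow hl0.le hX0.le]
  have hQκ : Q ^ κ = l * 2 ^ k := by rw [hQ]; exact rpow_inv_pow hκ (by positivity)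
  have hQle : Q ≤ max 1 l * 2 ^ k := by rw [hQ]; exact rpow_inv_le hκ hl0 hX1
  obtain ⟨g1, g2, -⟩ := h k hk Q hQX.ge (by
    have : 0 < max 1 l * (2 : ℝ) ^ k := by positivity
    linarith)
  obtain ⟨g1', g2', -⟩ := h k hk (2 * Q) (by rw [← hQX]; linarith) (by linarith)
  obtain ⟨F1, hF1⟩ : ∃ F1 : Finset ℕ, F1 = J P Q (3 / 2 * Q) := ⟨_, rfl⟩
  obtain ⟨F2, hF2⟩ : ∃ F2 : Finset ℕ, F2 = J P (2 * Q) (3 / 2 * (2 * Q)) := ⟨_, rfl⟩
  rw [← hF1] at g1 g2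
  rw [← hF2] at g1' g2'
  have m1 : ∀ x ∈ F1, Q < x ∧ (x : ℝ) ≤ 3 / 2 * Q ∧ x ∈ P := by
    intro x hx
    rw [hF1, mem_J hQ0.le (by positivity)] at hx
    exact hx
  have m2 : ∀ x ∈ F2, 2 * Q < x ∧ (x : ℝ) ≤ 3 / 2 * (2 * Q) ∧ x ∈ P := by
    intro x hx
    rw [hF2, mem_J (by positivity) (by positivity)] at hx
    exact hx
  have hup : ∀ x : ℕ, Q < x → (x : ℝ) ≤ 3 * Q → ∀ t : ℝ, a ≤ t → t ≤ a + 1 →
      0 ≤ t * (x : ℝ) ^ κ ∧ t * (x : ℝ) ^ κ ≤ 2 ^ k / 2 := by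
    intro x hx1 hx2 t ht1 ht2
    have hx0 : (0 : ℝ) < x := hQ0.trans hx1
    have ht0 : 0 < t := by linarith
    refine ⟨by positivity, ?_⟩
    have h2 : (x : ℝ) ^ κ ≤ (3 * Q) ^ κ := Real.rpow_le_rpow hx0.le hx2 hκ0.le
    rw [Real.mul_rpow (by norm_num) hQ0.le, hQκ] at h2
    calc t * (x : ℝ) ^ κ ≤ (a + 1) * (3 ^ κ * (l * 2 ^ k)) := by gcongr
      _ = 2 ^ k / 2 := by rw [hl]; field_simp
  have hsupp : ∀ᵐ t ∂(U a), a ≤ t ∧ t ≤ a + 1 := by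
    unfold U
    filter_upwards [ae_restrict_mem measurableSet_Icc] with t ht using ht
  refine ⟨fun _ => F1, fun _ => F2, ?_, ?_⟩
  · filter_upwards [hsupp] with t ht
    refine ⟨⟨?_, ?_⟩, ⟨?_, ?_⟩⟩
    · refine le_trans (le_of_eq ?_) g2
      rw [hQX]; ring
    · intro x hx
      obtain ⟨h1, h2, h3⟩ := m1 x hx
      refine ⟨⟨h3, ?_⟩, hup x h1 (by linarith) t ht.1 ht.2⟩
      have : (0 : ℝ) < x := hQ0.trans h1
      exact_mod_cast this
    · refine le_trans ?_ g2'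
      have : c1 * l ^ κ⁻¹ * ((2 : ℝ) ^ k) ^ κ⁻¹ / k = c1 * Q / k := by rw [hQX]; ring
      rw [this]
      gcongr
      linarith
    · intro x hx
      obtain ⟨h1, h2, h3⟩ := m2 x hx
      refine ⟨⟨h3, ?_⟩, hup x (by linarith) (by linarith) t ht.1 ht.2⟩
      have : (0 : ℝ) < x := by linarith
      exact_mod_cast this
  · intro E hE
    have key := two_point (U a) (fun x t => t * (x : ℝ) ^ κ) (fun x => measurable_id.mul_const _) F1 F2 g1 g1'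
      (ENNReal.ofReal (2 / l / 2 ^ k)) (by
        intro x hx x' hx' E hE
        obtain ⟨h1, h2, -⟩ := m1 x hx
        obtain ⟨h1', h2', -⟩ := m2 x' hx'
        have hx0 : (0 : ℝ) < x := hQ0.trans h1
        have hlow : l * 2 ^ k / 2 ≤ (x' : ℝ) ^ κ - (x : ℝ) ^ κ := by
          have e1 := rpow_diff_ge hκ hx0 (by linarith : (x : ℝ) ≤ x')
          refine le_trans ?_ e1
          rw [← hQκ]
          have e2 : Q ^ κ = Q ^ (κ - 1) * Q := by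
            rw [← Real.rpow_add_one hQ0.ne']; congr 1; ring
          rw [e2]
          have e3 : Q ^ (κ - 1) ≤ (x : ℝ) ^ (κ - 1) := Real.rpow_le_rpow hQ0.le h1.le (by linarith)
          calc Q ^ (κ - 1) * Q / 2 = Q ^ (κ - 1) * (Q / 2) := by ring
            _ ≤ (x : ℝ) ^ (κ - 1) * ((x' : ℝ) - x) := by
                apply mul_le_mul e3 (by linarith) (by positivity) (by positivity)
        obtain ⟨b, hb⟩ : ∃ b : ℝ, b = (x : ℝ) ^ κ - (x' : ℝ) ^ κ := ⟨_, rfl⟩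
        have hlX : 0 < l * 2 ^ k / 2 := by positivity
        have hb0 : b ≠ 0 := by rw [hb]; intro h; linarith
        have hb1 : |b⁻¹| ≤ 2 / l / 2 ^ k := by
          rw [abs_inv, hb, abs_sub_comm, abs_of_pos (by linarith)]
          rw [show 2 / l / (2 : ℝ) ^ k = (l * 2 ^ k / 2)⁻¹ by field_simp]
          exact inv_anti₀ hlX hlow
        calc (U a) {t | t * (x : ℝ) ^ κ - t * (x' : ℝ) ^ κ ∈ E} ≤
              volume {t | t * (x : ℝ) ^ κ - t * (x' : ℝ) ^ κ ∈ E} := Measure.restrict_apply_le _ _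
          _ = volume ((fun t : ℝ => t * b) ⁻¹' E) := by
              congr 1
              ext t
              simp only [mem_ofPred_eq, mem_preimage, hb, mul_sub]
          _ = ENNReal.ofReal |b⁻¹| * volume E := Real.volume_preimage_mul_right hb0 E
          _ ≤ ENNReal.ofReal (2 / l / 2 ^ k) * volume E := by
              gcongr) E hE
    refine key.trans (le_of_eq ?_)
    rw [show 4 * (2 / l) / (2 : ℝ) ^ k = 4 * (2 / l / 2 ^ k) by ring,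
      ENNReal.ofReal_mul (by norm_num), ENNReal.ofReal_ofNat]
    ring

/-- the almost-all property for coefficients, base case -/
theorem coef_HH_base (b : ℕ) (P : Fin b → Set ℕ) (hP : ∀ i, Dense (P i)) (κ : Fin b → ℝ) (hκ : ∀ i, 1 ≤ κ i)
    (hsum : 1 < ∑ i, (κ i)⁻¹) (hmax : ∀ i, 2 * (κ i)⁻¹ < ∑ i, (κ i)⁻¹) (a : Fin b → ℝ) (ha : ∀ i, 0 < a i) :
    HH (fun i => U (a i)) (fun i x t => t * (x : ℝ) ^ κ i) (fun i => posi (P i)) (fun _ => ∑ i, (κ i)⁻¹)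
      (fun _ => ∑ i, (κ i)⁻¹) 0 := by
  intro γ hγ ε hε
  filter_upwards [coef_aa_box P hP κ hκ hsum hmax a ha] with t ht
  obtain ⟨q, hq⟩ : ∃ q : ℝ, q = ∑ i, (κ i)⁻¹ := ⟨_, rfl⟩
  rw [← hq] at ht ⊢
  have h1 := two_pow_tendsto.eventually (ht γ hγ (ε / 2) (by positivity))
  have ev : ∀ᶠ k : ℕ in atTop, (2 : ℝ) ^ |q - 1 - γ - ε / 2| ≤ ((2 : ℝ) ^ k) ^ (ε / 2) :=
    (((tendsto_rpow_atTop (by positivity)).comp two_pow_tendsto)).eventually_ge_atTop _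
  filter_upwards [h1, ev] with k g1 g2
  have hX0 : (0 : ℝ) < 2 ^ k := by positivity
  have hX1 : (1 : ℝ) ≤ 2 ^ k := one_le_pow₀ (by norm_num)
  refine le_trans (measure_mono ?_) (g1.trans (ENNReal.ofReal_le_ofReal ?_))
  · rintro N ⟨⟨hN1, hN2⟩, hN3⟩
    refine ⟨⟨hN1, hN2⟩, fun hrep => hN3 ?_⟩
    refine Rep.mono (S := Sv (fun i x t => t * (x : ℝ) ^ κ i) t) hrep (fun x hx i => hx i) ?_ ?_
    · exact Real.rpow_le_rpow_of_nonpos hX0 hN1 (by linarith)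
    · have h3 := (pow_comp (2 ^ k) N (q - 1 - γ - ε / 2) hX0 hN1 hN2).2
      have e1 : ((2 : ℝ) ^ k) ^ (q - 1 - γ - ε / 2) = ((2 : ℝ) ^ k) ^ (q - 1 - γ - ε) * ((2 : ℝ) ^ k) ^ (ε / 2) := by
        rw [← Real.rpow_add hX0]; congr 1; ring
      rw [e1] at h3
      have hN0 : 0 < N := by linarith
      have h4 : 0 < N ^ (q - 1 - γ - ε / 2) := by positivity
      have h5 : ((2 : ℝ) ^ k) ^ (q - 1 - γ - ε) * ((2 : ℝ) ^ k) ^ (ε / 2) ≤
          N ^ (q - 1 - γ - ε / 2) * ((2 : ℝ) ^ k) ^ (ε / 2) := by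
        refine h3.trans ?_
        rw [mul_comm]
        gcongr
      exact le_of_mul_le_mul_right h5 (by positivity)
  · apply Real.rpow_le_rpow_of_exponent_le hX1
    rw [pow_zero]
    linarith

/-- the almost-all property for coefficients -/
theorem coef_HH (b : ℕ) (m : ℕ) : ∀ (P : Fin (b + m) → Set ℕ) (_ : ∀ i, Dense (P i)) (κ : Fin (b + m) → ℝ)
    (_ : ∀ i, 1 ≤ κ i) (_ : 1 < ∑ i : Fin b, (κ (Fin.addNat i m))⁻¹)
    (_ : ∀ i : Fin b, 2 * (κ (Fin.addNat i m))⁻¹ < ∑ i : Fin b, (κ (Fin.addNat i m))⁻¹)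
    (a : Fin (b + m) → ℝ) (_ : ∀ i, 0 < a i),
    HH (fun i => U (a i)) (fun i x t => t * (x : ℝ) ^ κ i) (fun i => posi (P i)) (fun _ => ∑ i, (κ i)⁻¹)
      (fun _ => ∑ i : Fin b, (κ (Fin.addNat i m))⁻¹) m := by
  induction m with
  | zero =>
    intro P hP κ hκ hsum hmax a ha
    exact coef_HH_base b P hP κ hκ hsum hmax a ha
  | succ m ih =>
    intro P hP κ hκ hsum hmax a ha
    have h := ih (fun i => P i.succ) (fun i => hP i.succ) (fun i => κ i.succ) (fun i => hκ i.succ)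
      hsum hmax (fun i => a i.succ) (fun i => ha i.succ)
    have h2 := step (fun i : Fin (b + m + 1) => U (a i)) (fun i x t => t * (x : ℝ) ^ κ i)
      (fun i x => measurable_id.mul_const _) (fun i => posi (P i)) _ _ measurable_const measurable_const
      (fun _ => (κ 0)⁻¹) measurable_const m h (newvar_coef (P 0) (hP 0) (κ 0) (a 0) (hκ 0) (ha 0))
    have e1 : ∑ i : Fin (b + (m + 1)), (κ i)⁻¹ = (κ 0)⁻¹ + ∑ i : Fin (b + m), (κ i.succ)⁻¹ :=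
      Fin.sum_univ_succ (n := b + m) fun i => (κ i)⁻¹
    rw [e1]
    exact h2

/-- **Generic coefficients, `b + m` variables.** -/
theorem coef_log_main (b m : ℕ) (P : Fin (b + m) → Set ℕ) (hP : ∀ i, Dense (P i)) (κ : Fin (b + m) → ℝ)
    (hκ : ∀ i, 1 ≤ κ i)
    (hmax : ∀ i : Fin b, 2 * (κ (Fin.addNat i m))⁻¹ < ∑ i : Fin b, (κ (Fin.addNat i m))⁻¹) :
    ∀ᵐ α : Fin (b + m) → ℝ, (∀ i, 0 < α i) →
      ∀ γ : ℝ, 0 ≤ γ → 1 + γ < 2 ^ m * ((∑ i : Fin b, (κ (Fin.addNat i m))⁻¹) - 1 - γ) →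
      ∀ ε : ℝ, 0 < ε → ∀ᶠ N : ℝ in atTop,
        Rep (fun x : Fin (b + m) → ℕ => ∑ i, α i * (x i : ℝ) ^ κ i) (fun x => ∀ i, x i ∈ P i ∧ 0 < x i) N
          (N ^ (-γ)) (N ^ ((∑ i, (κ i)⁻¹) - 1 - γ - ε)) := by
  classical
  obtain ⟨q1, hq1⟩ : ∃ q1 : ℝ, q1 = ∑ i : Fin b, (κ (Fin.addNat i m))⁻¹ := ⟨_, rfl⟩
  by_cases hsum : 1 < q1
  swap
  · refine ae_of_all _ fun α _ γ hγ hγ2 => ?_
    exfalso
    push Not at hsum
    rw [← hq1] at hγ2
    have h2m : (0 : ℝ) < 2 ^ m := by positivity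
    nlinarith
  have h : ∀ a : Fin (b + m) → ℚ, ∀ᵐ α : Fin (b + m) → ℝ, (∀ i, 0 < a i) →
      (∀ i, (a i : ℝ) ≤ α i ∧ α i ≤ a i + 1) →
      ∀ γ : ℝ, 0 ≤ γ → 1 + γ < 2 ^ m * ((∑ i : Fin b, (κ (Fin.addNat i m))⁻¹) - 1 - γ) →
      ∀ ε : ℝ, 0 < ε → ∀ᶠ N : ℝ in atTop,
        Rep (fun x : Fin (b + m) → ℕ => ∑ i, α i * (x i : ℝ) ^ κ i) (fun x => ∀ i, x i ∈ P i ∧ 0 < x i) N
          (N ^ (-γ)) (N ^ ((∑ i, (κ i)⁻¹) - 1 - γ - ε)) := by
    intro a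
    by_cases ha : ∀ i, 0 < a i
    · have h1 := final (fun i : Fin (b + m) => U (a i : ℝ)) _ _ _ _ m
        (coef_HH b m P hP κ hκ (by rw [← hq1]; exact hsum) hmax (fun i => (a i : ℝ))
          (fun i => by exact_mod_cast ha i))
      have h2 : (Measure.pi fun i => U (a i : ℝ)) =
          (volume : Measure (Fin (b + m) → ℝ)).restrict (Set.pi Set.univ fun i => Icc (a i : ℝ) (a i + 1)) := by
        rw [volume_pi, Measure.restrict_pi_pi]; rfl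
      rw [h2, ae_restrict_iff' (MeasurableSet.univ_pi fun i => measurableSet_Icc)] at h1
      filter_upwards [h1] with α hα _ hb
      exact hα fun i _ => hb i
    · exact ae_of_all _ fun α h => absurd h ha
  rw [← ae_all_iff] at h
  filter_upwards [h] with α hα hpos
  have : ∀ i, ∃ r : ℚ, max 0 (α i - 1) < (r : ℝ) ∧ (r : ℝ) < α i := fun i =>
    exists_rat_btwn (max_lt (hpos i) (by linarith))
  choose r hr1 hr2 using this
  refine hα r (fun i => by exact_mod_cast (le_max_left _ _).trans_lt (hr1 i)) (fun i => ⟨(hr2 i).le, ?_⟩)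
  have := (le_max_right 0 (α i - 1)).trans_lt (hr1 i)
  linarith

end Pool.Agent.Q83.WG
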